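import Mathlib

/-!
# Binary quartics: covariants, invariants, and the points attached to rational points
-/

set_option autoImplicit false

namespace Pool.Agent.H79.QR

/-- binary quartic forms -/
@[ext]
structure BQ (R : Type) where
  a : R
  b : R
  c : R
  d : R
  e : R

namespace BQ

variable {R : Type} [CommRing R]

/-- the value `a x⁴ + b x³ z + c x² z² + d x z³ + e z⁴` -/
def ev (g : BQ R) (x z : R) : R :=
  g.a * x ^ 4 + g.b * x ^ 3 * z + g.c * x ^ 2 * z ^ 2 + g.d * x * z ^ 3 + g.e * z ^ 4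

/-- the substitution `x ↦ p x + q z`, `z ↦ r x + s z` -/
def act (g : BQ R) (p q r s : R) : BQ R where
  a := g.a * p ^ 4 + g.b * p ^ 3 * r + g.c * p ^ 2 * r ^ 2 + g.d * p * r ^ 3 + g.e * r ^ 4
  b := 4 * g.a * p ^ 3 * q + g.b * (3 * p ^ 2 * q * r + p ^ 3 * s) +
    g.c * (2 * p * q * r ^ 2 + 2 * p ^ 2 * r * s) + g.d * (q * r ^ 3 + 3 * p * r ^ 2 * s) +
    4 * g.e * r ^ 3 * s
  c := 6 * g.a * p ^ 2 * q ^ 2 + g.b * (3 * p * q ^ 2 * r + 3 * p ^ 2 * q * s) +
    g.c * (q ^ 2 * r ^ 2 + 4 * p * q * r * s + p ^ 2 * s ^ 2) +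
    g.d * (3 * q * r ^ 2 * s + 3 * p * r * s ^ 2) + 6 * g.e * r ^ 2 * s ^ 2
  d := 4 * g.a * p * q ^ 3 + g.b * (q ^ 3 * r + 3 * p * q ^ 2 * s) +
    g.c * (2 * q ^ 2 * r * s + 2 * p * q * s ^ 2) + g.d * (3 * q * r * s ^ 2 + p * s ^ 3) +
    4 * g.e * r * s ^ 3
  e := g.a * q ^ 4 + g.b * q ^ 3 * s + g.c * q ^ 2 * s ^ 2 + g.d * q * s ^ 3 + g.e * s ^ 4

/-- multiplication by a constant -/
def sm (t : R) (g : BQ R) : BQ R := ⟨t * g.a, t * g.b, t * g.c, t * g.d, t * g.e⟩

/-- the invariant `I` -/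
def I (g : BQ R) : R := 12 * g.a * g.e - 3 * g.b * g.d + g.c ^ 2

/-- the invariant `J` -/
def J (g : BQ R) : R :=
  72 * g.a * g.c * g.e + 9 * g.b * g.c * g.d - 27 * g.a * g.d ^ 2 - 27 * g.e * g.b ^ 2
    - 2 * g.c ^ 3

/-- the quartic covariant -/
def H (g : BQ R) : BQ R where
  a := 3 * g.b ^ 2 - 8 * g.a * g.c
  b := 4 * (g.b * g.c - 6 * g.a * g.d)
  c := 2 * (2 * g.c ^ 2 - 24 * g.a * g.e - 3 * g.b * g.d)
  d := 4 * (g.c * g.d - 6 * g.b * g.e)
  e := 3 * g.d ^ 2 - 8 * g.c * g.e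

theorem ev_act (g : BQ R) (p q r s x z : R) :
    (g.act p q r s).ev x z = g.ev (p * x + q * z) (r * x + s * z) := by
  simp only [act, ev]; ring

theorem act_act (g : BQ R) (p q r s p' q' r' s' : R) :
    (g.act p q r s).act p' q' r' s' =
      g.act (p * p' + q * r') (p * q' + q * s') (r * p' + s * r') (r * q' + s * s') := by
  ext <;> simp only [act] <;> ring

theorem act_one (g : BQ R) : g.act 1 0 0 1 = g := by
  ext <;> simp only [act] <;> ring

theorem I_act (g : BQ R) (p q r s : R) : (g.act p q r s).I = (p * s - q * r) ^ 4 * g.I := by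
  simp only [act, I]; ring

theorem J_act (g : BQ R) (p q r s : R) : (g.act p q r s).J = (p * s - q * r) ^ 6 * g.J := by
  simp only [act, J]; ring

theorem H_act (g : BQ R) (p q r s : R) :
    (g.act p q r s).H = sm ((p * s - q * r) ^ 2) (g.H.act p q r s) := by
  ext <;> simp only [act, H, sm] <;> ring

theorem ev_sm (t : R) (g : BQ R) (x z : R) : (sm t g).ev x z = t * g.ev x z := by
  simp only [sm, ev]; ring

theorem H_sm (t : R) (g : BQ R) : (sm t g).H = sm (t ^ 2) g.H := by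
  ext <;> simp only [sm, H] <;> ring

theorem I_sm (t : R) (g : BQ R) : (sm t g).I = t ^ 2 * g.I := by
  simp only [sm, I]; ring

theorem J_sm (t : R) (g : BQ R) : (sm t g).J = t ^ 3 * g.J := by
  simp only [sm, J]; ring

theorem act_sm (t : R) (g : BQ R) (p q r s : R) :
    (sm t g).act p q r s = sm t (g.act p q r s) := by
  ext <;> simp only [sm, act] <;> ring

theorem sm_sm (t u : R) (g : BQ R) : sm t (sm u g) = sm (t * u) g := by
  ext <;> simp only [sm] <;> ring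

theorem sm_one (g : BQ R) : sm 1 g = g := by
  ext <;> simp only [sm] <;> ring

/-- the image under a ring homomorphism -/
def map {S : Type} (φ : R → S) (g : BQ R) : BQ S := ⟨φ g.a, φ g.b, φ g.c, φ g.d, φ g.e⟩

end BQ

open BQ

/-- the quartic of the 2-covering which belongs to the point `(x, y)` of `y² = x³ + A x + B` -/
def gP {R : Type} [CommRing R] (A x y : R) : BQ R := ⟨1, 0, -6 * x, 8 * y, -(4 * A + 3 * x ^ 2)⟩

theorem gP_I {R : Type} [CommRing R] (A x y : R) : (gP A x y).I = -48 * A := by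
  simp only [gP, I]; ring

theorem gP_J {R : Type} [CommRing R] {A B x y : R} (h : y ^ 2 = x ^ 3 + A * x + B) :
    (gP A x y).J = -1728 * B := by
  simp only [gP, J]; linear_combination (-1728 : R) * h

/-- `x` is the abscissa which belongs to a rational point of `w² = g(X, Z)`, `w ≠ 0` -/
def Kt (g : BQ ℚ) (x : ℚ) : Prop :=
  ∃ X Z w : ℚ, w ≠ 0 ∧ g.ev X Z = w ^ 2 ∧ g.H.ev X Z = 48 * x * w ^ 2

/-- equivalence of quartics with the same invariants -/
def Equ (g g' : BQ ℚ) : Prop :=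
  ∃ p q r s : ℚ, p * s - q * r ≠ 0 ∧ g.act p q r s = sm ((p * s - q * r) ^ 2) g'

theorem Equ.symm {g g' : BQ ℚ} (h : Equ g g') : Equ g' g := by
  obtain ⟨p, q, r, s, h0, h1⟩ := h
  obtain ⟨t, ht⟩ : ∃ t, t = p * s - q * r := ⟨_, rfl⟩
  rw [← ht] at h0 h1
  refine ⟨s / t, -q / t, -r / t, p / t, ?_, ?_⟩
  · have : s / t * (p / t) - -q / t * (-r / t) = 1 / t := by
      field_simp; rw [ht]; ring
    rw [this]; exact one_div_ne_zero h0
  · have h2 : g' = sm (1 / t ^ 2) (g.act p q r s) := by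
      rw [h1, sm_sm]
      have : 1 / t ^ 2 * t ^ 2 = 1 := by field_simp
      rw [this, sm_one]
    have h3 : s / t * (p / t) - -q / t * (-r / t) = 1 / t := by
      field_simp; rw [ht]; ring
    rw [h3, h2, act_sm, act_act]
    have e1 : p * (s / t) + q * (-r / t) = 1 := by field_simp; rw [ht]; ring
    have e2 : p * (-q / t) + q * (p / t) = 0 := by field_simp; ring
    have e3 : r * (s / t) + s * (-r / t) = 0 := by field_simp; ring
    have e4 : r * (-q / t) + s * (p / t) = 1 := by field_simp; rw [ht]; ring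
    rw [e1, e2, e3, e4, act_one]
    congr 1
    field_simp

theorem Equ.kt {g g' : BQ ℚ} (h : Equ g g') {x : ℚ} (hk : Kt g' x) : Kt g x := by
  obtain ⟨p, q, r, s, h0, h1⟩ := h
  obtain ⟨X, Z, w, hw, e1, e2⟩ := hk
  obtain ⟨t, ht⟩ : ∃ t, t = p * s - q * r := ⟨_, rfl⟩
  rw [← ht] at h0 h1
  refine ⟨p * X + q * Z, r * X + s * Z, t * w, mul_ne_zero h0 hw, ?_, ?_⟩
  · rw [← ev_act, h1, ev_sm, e1]; ring
  · have h2 := H_act g p q r s
    rw [← ht, h1, H_sm] at h2
    have h3 := congrArg (fun f => BQ.ev f X Z) h2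
    simp only [ev_sm, ev_act] at h3
    rw [e2] at h3
    have ht2 : t ^ 2 ≠ 0 := pow_ne_zero 2 h0
    apply mul_left_cancel₀ ht2
    rw [← h3]; ring

theorem Equ.kt_iff {g g' : BQ ℚ} (h : Equ g g') {x : ℚ} : Kt g x ↔ Kt g' x :=
  ⟨fun hk => h.symm.kt hk, fun hk => h.kt hk⟩

theorem Equ.trans {g g' g'' : BQ ℚ} (h : Equ g g') (h' : Equ g' g'') : Equ g g'' := by
  obtain ⟨p, q, r, s, h0, h1⟩ := h
  obtain ⟨p', q', r', s', h0', h1'⟩ := h'
  refine ⟨p * p' + q * r', p * q' + q * s', r * p' + s * r', r * q' + s * s', ?_, ?_⟩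
  · have : (p * p' + q * r') * (r * q' + s * s') - (p * q' + q * s') * (r * p' + s * r') =
      (p * s - q * r) * (p' * s' - q' * r') := by ring
    rw [this]; exact mul_ne_zero h0 h0'
  · rw [← act_act, h1, act_sm, h1', sm_sm]
    congr 1; ring

/-- a quartic with a suitable rational point is equivalent to `gP` -/
theorem kt_equ {g : BQ ℚ} {A B x y : ℚ} (hI : g.I = -48 * A) (hJ : g.J = -1728 * B)
    (hE : y ^ 2 = x ^ 3 + A * x + B) (hk : Kt g x) : Equ g (gP A x y) := by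
  obtain ⟨X, Z, w, hw, e1, e2⟩ := hk
  -- a matrix with the first column `(X, Z)` and determinant `w`
  obtain ⟨q0, s0, hdet0⟩ : ∃ q s : ℚ, X * s - q * Z = w := by
    by_cases hX : X = 0
    · have hZ : Z ≠ 0 := by
        rintro rfl
        apply hw
        rw [hX] at e1
        simp only [ev] at e1
        have : w ^ 2 = 0 := by rw [← e1]; ring
        exact pow_eq_zero_iff two_ne_zero |>.mp this
      exact ⟨-w / Z, 0, by field_simp; ring⟩
    · exact ⟨0, w / X, by field_simp; ring⟩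
  obtain ⟨β, hβ⟩ : ∃ β, β = (g.act X q0 Z s0).b := ⟨_, rfl⟩
  obtain ⟨u, hu⟩ : ∃ u, u = -β / (4 * w ^ 2) := ⟨_, rfl⟩
  obtain ⟨q, hq⟩ : ∃ q, q = X * u + q0 := ⟨_, rfl⟩
  obtain ⟨s, hs⟩ : ∃ s, s = Z * u + s0 := ⟨_, rfl⟩
  have hdet : X * s - q * Z = w := by rw [hq, hs, ← hdet0]; ring
  obtain ⟨f, hf⟩ : ∃ f, f = g.act X q Z s := ⟨_, rfl⟩
  have ha : f.a = w ^ 2 := by
    rw [← e1, hf]; simp only [act, ev]
  have hb : f.b = 0 := by
    have h1 : f = (g.act X q0 Z s0).act 1 u 0 1 := by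
      rw [hf, act_act, hq, hs]; congr 1 <;> ring
    have h2 : (g.act X q0 Z s0).a = w ^ 2 := by
      rw [← e1]; simp only [act, ev]
    have h3 : f.b = 4 * (g.act X q0 Z s0).a * u + (g.act X q0 Z s0).b := by
      rw [h1]
      generalize g.act X q0 Z s0 = k
      simp only [act]; ring
    rw [h3, h2, ← hβ, hu]; field_simp; ring
  have hw2 : w ^ 2 ≠ 0 := pow_ne_zero 2 hw
  have hc : f.c = -6 * x * w ^ 2 := by
    have h1 := H_act g X q Z s
    rw [hdet, ← hf] at h1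
    have h2 := congrArg BQ.a h1
    have h3 : (sm (w ^ 2) (g.H.act X q Z s)).a = w ^ 2 * g.H.ev X Z := by
      simp only [sm, act, ev]
    rw [h3, e2] at h2
    simp only [H, hb, ha] at h2
    apply mul_left_cancel₀ (mul_ne_zero (by norm_num : (-8 : ℚ) ≠ 0) hw2)
    linear_combination h2
  have he : f.e = -(w ^ 2 * (4 * A + 3 * x ^ 2)) := by
    have h1 := I_act g X q Z s
    rw [hdet, ← hf, hI] at h1
    simp only [I, ha, hb, hc] at h1
    apply mul_left_cancel₀ (mul_ne_zero (by norm_num : (12 : ℚ) ≠ 0) hw2)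
    linear_combination h1
  have hd : f.d = 8 * y * w ^ 2 ∨ f.d = -(8 * y * w ^ 2) := by
    have h1 := J_act g X q Z s
    rw [hdet, ← hf, hJ] at h1
    simp only [J, ha, hb, hc, he] at h1
    apply sq_eq_sq_iff_eq_or_eq_neg.mp
    apply mul_left_cancel₀ (mul_ne_zero (by norm_num : (-27 : ℚ) ≠ 0) hw2)
    linear_combination h1 + (1728 * w ^ 6) * hE
  rcases hd with hd | hd
  · refine ⟨X, q, Z, s, by rw [hdet]; exact hw, ?_⟩
    rw [hdet, ← hf]
    ext <;> simp only [sm, gP, ha, hb, hc, hd, he] <;> ring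
  · refine ⟨-X, q, -Z, s, ?_, ?_⟩
    · have : -X * s - q * -Z = -w := by rw [← hdet]; ring
      rw [this]; exact neg_ne_zero.mpr hw
    · have h1 : -X * s - q * -Z = -w := by rw [← hdet]; ring
      rw [h1]
      have h2 : g.act (-X) q (-Z) s = f.act (-1) 0 0 1 := by
        rw [hf, act_act]; congr 1 <;> ring
      rw [h2]
      ext <;> simp only [sm, gP, act, ha, hb, hc, hd, he] <;> ring

theorem gP_kt (A x y : ℚ) : Kt (gP A x y) x :=
  ⟨1, 0, 1, one_ne_zero, by simp only [gP, ev]; ring, by simp only [gP, H, ev]; ring⟩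

end Pool.Agent.H79.QR
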