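import Mathlib
import Pool.Agent.H79.QR.Alg

/-!
# Two points have the same quartics if and only if they are congruent modulo `2 E(ℚ)`
-/

set_option autoImplicit false

namespace Pool.Agent.H79.QR

open WeierstrassCurve BQ

/-- the curve `y² = x³ + A x + B` -/
abbrev EC (A B : ℚ) : WeierstrassCurve ℚ := ⟨0, 0, 0, A, B⟩

/-- its rational points -/
abbrev Pts (A B : ℚ) : Type := (EC A B).toAffine.Point

theorem eqn {A B x y : ℚ} : (EC A B).toAffine.Equation x y ↔ y ^ 2 = x ^ 3 + A * x + B := by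
  rw [Affine.equation_iff]; simp

theorem delta (A B : ℚ) : (EC A B).Δ = -16 * (4 * A ^ 3 + 27 * B ^ 2) := by
  simp only [WeierstrassCurve.Δ, WeierstrassCurve.b₂, WeierstrassCurve.b₄, WeierstrassCurve.b₆,
    WeierstrassCurve.b₈]
  ring

theorem nons {A B x y : ℚ} (hD : 4 * A ^ 3 + 27 * B ^ 2 ≠ 0) (h : y ^ 2 = x ^ 3 + A * x + B) :
    (EC A B).toAffine.Nonsingular x y := by
  refine (Affine.equation_iff_nonsingular_of_Δ_ne_zero ?_).mp (eqn.mpr h)
  rw [delta]
  exact mul_ne_zero (by norm_num) hD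

theorem neg_eq {A B x y : ℚ} (h : (EC A B).toAffine.Nonsingular x y)
    (h' : (EC A B).toAffine.Nonsingular x (-y)) :
    -(Affine.Point.some x y h : Pts A B) = Affine.Point.some x (-y) h' := by
  rw [Affine.Point.neg_some]
  simp [Affine.negY]

theorem add_ne {A B x1 y1 x2 y2 X Y : ℚ} (h1 : (EC A B).toAffine.Nonsingular x1 y1)
    (h2 : (EC A B).toAffine.Nonsingular x2 y2) (h3 : (EC A B).toAffine.Nonsingular X Y)
    (hx : x1 ≠ x2) (l : ℚ) (hl : l * (x1 - x2) = y1 - y2)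
    (hX : X = l ^ 2 - x1 - x2) (hY : Y = -(l * (X - x1) + y1)) :
    (Affine.Point.some x1 y1 h1 : Pts A B) + Affine.Point.some x2 y2 h2 =
      Affine.Point.some X Y h3 := by
  have hx' : x1 - x2 ≠ 0 := sub_ne_zero.mpr hx
  have hsl : (EC A B).toAffine.slope x1 x2 y1 y2 = l := by
    rw [Affine.slope_of_X_ne hx, ← hl, mul_div_cancel_right₀ _ hx']
  rw [Affine.Point.add_of_X_ne hx]
  have e1 : (EC A B).toAffine.addX x1 x2 ((EC A B).toAffine.slope x1 x2 y1 y2) = X := by
    rw [hsl, hX]; simp [Affine.addX]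
  have e2 : (EC A B).toAffine.addY x1 x2 y1 ((EC A B).toAffine.slope x1 x2 y1 y2) = Y := by
    rw [Affine.addY, Affine.negAddY, e1, hsl, hY]; simp [Affine.negY]
  simp only [Affine.Point.some.injEq]
  exact ⟨e1, e2⟩

theorem add_ne' {A B x1 y1 x2 y2 X Y : ℚ} (h1 : (EC A B).toAffine.Nonsingular x1 y1)
    (h2 : (EC A B).toAffine.Nonsingular x2 y2) (h3 : (EC A B).toAffine.Nonsingular X Y)
    (hx : x1 ≠ x2) (h : (Affine.Point.some x1 y1 h1 : Pts A B) + Affine.Point.some x2 y2 h2 =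
      Affine.Point.some X Y h3) : ∃ l : ℚ, l * (x1 - x2) = y1 - y2 ∧
    X = l ^ 2 - x1 - x2 ∧ Y = -(l * (X - x1) + y1) := by
  have hx' : x1 - x2 ≠ 0 := sub_ne_zero.mpr hx
  rw [Affine.Point.add_of_X_ne hx] at h
  simp only [Affine.Point.some.injEq] at h
  obtain ⟨e1, e2⟩ := h
  rw [Affine.addY, Affine.negAddY, e1, Affine.slope_of_X_ne hx] at e2
  rw [Affine.slope_of_X_ne hx] at e1
  refine ⟨(y1 - y2) / (x1 - x2), by field_simp, ?_, ?_⟩
  · rw [← e1]; simp [Affine.addX]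
  · rw [← e2]; simp [Affine.negY]

/-- the identity behind the abscissa of the difference -/
theorem H_id (A x y m : ℚ) : (gP A x y).H.ev m 1 =
    48 * ((2 * y + m * (m ^ 2 - 3 * x)) ^ 2 - (m ^ 2 - x) * (gP A x y).ev m 1) := by
  simp only [gP, H, ev]; ring

theorem kt_of_coset {A B x y x' y' : ℚ} (hD : 4 * A ^ 3 + 27 * B ^ 2 ≠ 0)
    (h : (EC A B).toAffine.Nonsingular x y) (h' : (EC A B).toAffine.Nonsingular x' y')
    {Q : Pts A B} (hQ : (Affine.Point.some x' y' h' : Pts A B) = Affine.Point.some x y h + (Q + Q)) :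
    Kt (gP A x y) x' := by
  have q := eqn.mp h.1
  have hneg : (EC A B).toAffine.Nonsingular x (-y) := nons hD (by rw [← q]; ring)
  rcases hQc : Q with _ | ⟨x1, y1, h1⟩
  · have h0 : Q = 0 := hQc
    rw [h0, add_zero, add_zero] at hQ
    simp only [Affine.Point.some.injEq] at hQ
    rw [hQ.1]; exact gP_kt A x y
  rcases hSc : -(Affine.Point.some x y h : Pts A B) - Q with _ | ⟨x2, y2, h2⟩
  · have h0 : -(Affine.Point.some x y h : Pts A B) - Q = 0 := hSc
    have h3 : Q = -(Affine.Point.some x y h : Pts A B) := (sub_eq_zero.mp h0).symm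
    have h4 : (Affine.Point.some x' y' h' : Pts A B) = -(Affine.Point.some x y h : Pts A B) := by
      rw [hQ, h3]; abel
    rw [neg_eq h hneg] at h4
    simp only [Affine.Point.some.injEq] at h4
    rw [h4.1]; exact gP_kt A x y
  have hsum : (Affine.Point.some x1 y1 h1 : Pts A B) + Affine.Point.some x2 y2 h2 =
      Affine.Point.some x (-y) hneg := by
    rw [← neg_eq h hneg, ← hSc, ← hQc]; abel
  have q1 := eqn.mp h1.1
  have q2 := eqn.mp h2.1
  have hneg2 : (EC A B).toAffine.Nonsingular x2 (-y2) := nons hD (by rw [← q2]; ring)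
  have hdif : (Affine.Point.some x1 y1 h1 : Pts A B) + Affine.Point.some x2 (-y2) hneg2 =
      Affine.Point.some x' y' h' := by
    rw [← neg_eq h2 hneg2, ← hSc, ← hQc, hQ]; abel
  have hx : x1 ≠ x2 := by
    intro hx
    subst hx
    have : y1 = y2 ∨ y1 = -y2 := by
      apply sq_eq_sq_iff_eq_or_eq_neg.mp
      rw [q1, q2]
    rcases this with rfl | rfl
    · rw [← neg_eq h1 hneg2, add_neg_cancel] at hdif
      exact Affine.Point.some_ne_zero _ hdif.symm
    · have h5 : (Affine.Point.some x1 (-y2) h1 : Pts A B) = -Affine.Point.some x1 y2 h2 := by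
        rw [neg_eq h2 h1]
      rw [h5, neg_add_cancel] at hsum
      exact Affine.Point.some_ne_zero _ hsum.symm
  have hx' : x1 - x2 ≠ 0 := sub_ne_zero.mpr hx
  obtain ⟨m, k1, k2, k3⟩ := add_ne' h1 h2 hneg hx hsum
  obtain ⟨l, l1, l2, l3⟩ := add_ne' h1 hneg2 h' hx hdif
  have k4 : m * (y1 + y2) = x1 ^ 2 + x1 * x2 + x2 ^ 2 + A := by
    apply mul_left_cancel₀ hx'
    linear_combination (y1 + y2) * k1 + q1 - q2
  have hy1 : y1 = y + m * (x1 - x) := by linear_combination k3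
  have hy2 : y2 = y + m * (x2 - x) := by linear_combination hy1 + k1
  have e1 : (gP A x y).ev m 1 = (x1 - x2) ^ 2 := by
    rw [hy1, hy2] at k4
    have hm : m ^ 2 = x + x1 + x2 := by linear_combination -k2
    simp only [gP, ev]
    linear_combination (m ^ 2 - 5 * x + (x1 + x2)) * hm + 4 * k4 +
      (8 * x - 4 * (x1 + x2)) * hm
  refine ⟨m, 1, x1 - x2, hx', e1, ?_⟩
  rw [H_id, e1]
  have e2 : y1 + y2 = 2 * y + m * (m ^ 2 - 3 * x) := by
    rw [hy1, hy2, k2]; ring
  have e3 : x1 + x2 = m ^ 2 - x := by linear_combination k2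
  rw [← e2, ← e3, l2]
  have l4 : (l * (x1 - x2)) ^ 2 = (y1 + y2) ^ 2 := by rw [l1]; ring
  linear_combination (-48 : ℚ) * l4

theorem coset_of_kt {A B x y x' y' : ℚ} (hD : 4 * A ^ 3 + 27 * B ^ 2 ≠ 0)
    (h : (EC A B).toAffine.Nonsingular x y) (h' : (EC A B).toAffine.Nonsingular x' y')
    (hk : Kt (gP A x y) x') :
    ∃ Q : Pts A B, (Affine.Point.some x' y' h' : Pts A B) = Affine.Point.some x y h + (Q + Q) := by
  have q := eqn.mp h.1
  have q' := eqn.mp h'.1
  have hneg : (EC A B).toAffine.Nonsingular x (-y) := nons hD (by rw [← q]; ring)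
  obtain ⟨X, Z, w, hw, e1, e2⟩ := hk
  by_cases hZ : Z = 0
  · subst hZ
    have hX : X ^ 4 = w ^ 2 := by rw [← e1]; simp only [gP, ev]; ring
    have hx : x' = x := by
      have h1 : 48 * x * X ^ 4 = 48 * x' * w ^ 2 := by
        rw [← e2]; simp only [gP, H, ev]; ring
      rw [hX] at h1
      have hw2 : w ^ 2 ≠ 0 := pow_ne_zero 2 hw
      apply mul_left_cancel₀ (mul_ne_zero (by norm_num : (48 : ℚ) ≠ 0) hw2)
      linear_combination -h1
    subst hx
    have : y' = y ∨ y' = -y := by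
      apply sq_eq_sq_iff_eq_or_eq_neg.mp
      rw [q, q']
    rcases this with rfl | rfl
    · exact ⟨0, by rw [add_zero, add_zero]⟩
    · refine ⟨-Affine.Point.some x' y h, ?_⟩
      rw [← neg_eq h h']; abel
  · obtain ⟨m, hm⟩ : ∃ m, m = X / Z := ⟨_, rfl⟩
    obtain ⟨z, hz⟩ : ∃ z, z = w / Z ^ 2 := ⟨_, rfl⟩
    have hz0 : z ≠ 0 := by rw [hz]; exact div_ne_zero hw (pow_ne_zero 2 hZ)
    have hZ4 : Z ^ 4 ≠ 0 := pow_ne_zero 4 hZ
    have hmZ : X = m * Z := by rw [hm]; field_simp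
    have hzZ : w = z * Z ^ 2 := by rw [hz]; field_simp
    have f1 : (gP A x y).ev m 1 = z ^ 2 := by
      apply mul_left_cancel₀ hZ4
      have : Z ^ 4 * (gP A x y).ev m 1 = (gP A x y).ev X Z := by
        rw [hmZ]; simp only [ev]; ring
      rw [this, e1, hzZ]; ring
    have f2 : (gP A x y).H.ev m 1 = 48 * x' * z ^ 2 := by
      apply mul_left_cancel₀ hZ4
      have : Z ^ 4 * (gP A x y).H.ev m 1 = (gP A x y).H.ev X Z := by
        rw [hmZ]; simp only [ev]; ring
      rw [this, e2, hzZ]; ring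
    have f1' : z ^ 2 = m ^ 4 - 6 * x * m ^ 2 + 8 * y * m - (4 * A + 3 * x ^ 2) := by
      rw [← f1]; simp only [gP, ev]; ring
    obtain ⟨x1, hx1⟩ : ∃ x1, x1 = (m ^ 2 - x + z) / 2 := ⟨_, rfl⟩
    obtain ⟨x2, hx2⟩ : ∃ x2, x2 = (m ^ 2 - x - z) / 2 := ⟨_, rfl⟩
    obtain ⟨y1, hy1⟩ : ∃ y1, y1 = y + m * (x1 - x) := ⟨_, rfl⟩
    obtain ⟨y2, hy2⟩ : ∃ y2, y2 = y + m * (x2 - x) := ⟨_, rfl⟩
    have hd : x1 - x2 = z := by rw [hx1, hx2]; ring
    have hx : x1 ≠ x2 := by
      intro h0; apply hz0; rw [← hd, h0, sub_self]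
    have q1 : y1 ^ 2 = x1 ^ 3 + A * x1 + B := by
      rw [hy1, hx1]
      linear_combination q - ((m ^ 2 - x + z) / 2 - x) / 4 * f1'
    have q2 : y2 ^ 2 = x2 ^ 3 + A * x2 + B := by
      rw [hy2, hx2]
      linear_combination q - ((m ^ 2 - x - z) / 2 - x) / 4 * f1'
    have h1 := nons hD q1
    have h2 := nons hD q2
    have hneg2 : (EC A B).toAffine.Nonsingular x2 (-y2) := nons hD (by rw [← q2]; ring)
    have hsum : (Affine.Point.some x1 y1 h1 : Pts A B) + Affine.Point.some x2 y2 h2 =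
        Affine.Point.some x (-y) hneg := by
      refine add_ne h1 h2 hneg hx m (by rw [hy1, hy2]; ring) (by rw [hx1, hx2]; ring) ?_
      rw [hy1]; ring
    -- the difference
    obtain ⟨l, hl⟩ : ∃ l, l = (y1 + y2) / z := ⟨_, rfl⟩
    have hxl : x' = l ^ 2 - x1 - x2 := by
      have g1 := H_id A x y m
      rw [f2, f1] at g1
      have g2 : y1 + y2 = 2 * y + m * (m ^ 2 - 3 * x) := by
        rw [hy1, hy2, hx1, hx2]; ring
      have g3 : x1 + x2 = m ^ 2 - x := by rw [hx1, hx2]; ring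
      rw [← g2, ← g3] at g1
      rw [hl]
      field_simp
      linear_combination g1 / 48
    have hlz : l * z = y1 + y2 := by rw [hl]; field_simp
    obtain ⟨Y, hY⟩ : ∃ Y, Y = -(l * (x' - x1) + y1) := ⟨_, rfl⟩
    have hYn : (EC A B).toAffine.Nonsingular x' Y := by
      have hn := Affine.nonsingular_add h1 hneg2 (fun hxy => hx hxy.left)
      have e1 : (EC A B).toAffine.slope x1 x2 y1 (-y2) = l := by
        rw [Affine.slope_of_X_ne hx, hd, hl]; ring
      have e2 : (EC A B).toAffine.addX x1 x2 ((EC A B).toAffine.slope x1 x2 y1 (-y2)) = x' := by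
        rw [e1, hxl]; simp [Affine.addX]
      have e3 : (EC A B).toAffine.addY x1 x2 y1 ((EC A B).toAffine.slope x1 x2 y1 (-y2)) = Y := by
        rw [Affine.addY, Affine.negAddY, e2, e1, hY]; simp [Affine.negY]
      rw [e2, e3] at hn
      exact hn
    have hdif : (Affine.Point.some x1 y1 h1 : Pts A B) + Affine.Point.some x2 (-y2) hneg2 =
        Affine.Point.some x' Y hYn := by
      refine add_ne h1 hneg2 hYn hx l ?_ hxl hY
      rw [hd, hlz]; ring
    have qY := eqn.mp hYn.1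
    have hS : (Affine.Point.some x2 y2 h2 : Pts A B) =
        -Affine.Point.some x y h - Affine.Point.some x1 y1 h1 := by
      rw [neg_eq h hneg, ← hsum]; abel
    have : y' = Y ∨ y' = -Y := by
      apply sq_eq_sq_iff_eq_or_eq_neg.mp
      rw [qY, q']
    rcases this with rfl | rfl
    · refine ⟨Affine.Point.some x1 y1 h1, ?_⟩
      rw [← hdif, ← neg_eq h2 hneg2, hS]; abel
    · refine ⟨Affine.Point.some x2 y2 h2, ?_⟩
      rw [← neg_eq hYn h', ← hdif, ← neg_eq h2 hneg2, hS]; abel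

end Pool.Agent.H79.QR
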