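import Mathlib
import Pool.Agent.H79.QR.Grp
import Pool.Graph.R_pool_sql_team_seeded_b677cdb8.E8helper89.PC.FG
import Pool.Graph.R_seed8.TeamU.B1

/-!
# Quartics with infinitely many rational points and classes of `E(ℚ)` modulo `2 E(ℚ)`
-/

set_option autoImplicit false

namespace Pool.Agent.H79.QR

open WeierstrassCurve BQ

theorem exists_pt {g : BQ ℚ} {A B : ℚ} (hI : g.I = -48 * A) (hJ : g.J = -1728 * B)
    {X Z w : ℚ} (hw : w ≠ 0) (e1 : g.ev X Z = w ^ 2) :
    ∃ x y : ℚ, y ^ 2 = x ^ 3 + A * x + B ∧ g.H.ev X Z = 48 * x * w ^ 2 := by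
  obtain ⟨x, hx⟩ : ∃ x, x = g.H.ev X Z / (48 * w ^ 2) := ⟨_, rfl⟩
  have hw2 : w ^ 2 ≠ 0 := pow_ne_zero 2 hw
  have e2 : g.H.ev X Z = 48 * x * w ^ 2 := by rw [hx]; field_simp
  obtain ⟨q0, s0, hdet0⟩ : ∃ q s : ℚ, X * s - q * Z = w := by
    by_cases hX : X = 0
    · have hZ : Z ≠ 0 := by
        rintro rfl
        apply hw
        rw [hX] at e1
        simp only [ev] at e1
        have : w ^ 2 = 0 := by rw [← e1]; ring
        exact pow_eq_zero_iff two_ne_zero |>.mp this
      exact ⟨-w / Z, 0, by field_simp; ring⟩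
    · exact ⟨0, w / X, by field_simp; ring⟩
  obtain ⟨β, hβ⟩ : ∃ β, β = (g.act X q0 Z s0).b := ⟨_, rfl⟩
  obtain ⟨u, hu⟩ : ∃ u, u = -β / (4 * w ^ 2) := ⟨_, rfl⟩
  obtain ⟨q, hq⟩ : ∃ q, q = X * u + q0 := ⟨_, rfl⟩
  obtain ⟨s, hs⟩ : ∃ s, s = Z * u + s0 := ⟨_, rfl⟩
  have hdet : X * s - q * Z = w := by rw [hq, hs, ← hdet0]; ring
  obtain ⟨f, hf⟩ : ∃ f, f = g.act X q Z s := ⟨_, rfl⟩
  have ha : f.a = w ^ 2 := by
    rw [← e1, hf]; simp only [act, ev]
  have hb : f.b = 0 := by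
    have h1 : f = (g.act X q0 Z s0).act 1 u 0 1 := by
      rw [hf, act_act, hq, hs]; congr 1 <;> ring
    have h2 : (g.act X q0 Z s0).a = w ^ 2 := by
      rw [← e1]; simp only [act, ev]
    have h3 : f.b = 4 * (g.act X q0 Z s0).a * u + (g.act X q0 Z s0).b := by
      rw [h1]
      generalize g.act X q0 Z s0 = k
      simp only [act]; ring
    rw [h3, h2, ← hβ, hu]; field_simp; ring
  have hc : f.c = -6 * x * w ^ 2 := by
    have h1 := H_act g X q Z s
    rw [hdet, ← hf] at h1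
    have h2 := congrArg BQ.a h1
    have h3 : (sm (w ^ 2) (g.H.act X q Z s)).a = w ^ 2 * g.H.ev X Z := by
      simp only [sm, act, ev]
    rw [h3, e2] at h2
    simp only [H, hb, ha] at h2
    apply mul_left_cancel₀ (mul_ne_zero (by norm_num : (-8 : ℚ) ≠ 0) hw2)
    linear_combination h2
  have he : f.e = -(w ^ 2 * (4 * A + 3 * x ^ 2)) := by
    have h1 := I_act g X q Z s
    rw [hdet, ← hf, hI] at h1
    simp only [BQ.I, ha, hb, hc] at h1
    apply mul_left_cancel₀ (mul_ne_zero (by norm_num : (12 : ℚ) ≠ 0) hw2)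
    linear_combination h1
  have hd : f.d ^ 2 = 64 * w ^ 4 * (x ^ 3 + A * x + B) := by
    have h1 := J_act g X q Z s
    rw [hdet, ← hf, hJ] at h1
    simp only [BQ.J, ha, hb, hc, he] at h1
    apply mul_left_cancel₀ (mul_ne_zero (by norm_num : (-27 : ℚ) ≠ 0) hw2)
    linear_combination h1
  refine ⟨x, f.d / (8 * w ^ 2), ?_, e2⟩
  rw [div_pow, hd]; field_simp; ring

theorem H_ne {g : BQ ℚ} {A B x y : ℚ} (hD : 4 * A ^ 3 + 27 * B ^ 2 ≠ 0)
    (hI : g.I = -48 * A) (hJ : g.J = -1728 * B) (hE : y ^ 2 = x ^ 3 + A * x + B)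
    (hk : Kt g x) : g.H ≠ sm (48 * x) g := by
  intro h
  obtain ⟨p, q, r, s, h0, h1⟩ := kt_equ hI hJ hE hk
  obtain ⟨t, ht⟩ : ∃ t, t = p * s - q * r := ⟨_, rfl⟩
  rw [← ht] at h0 h1
  have h2 := H_act g p q r s
  rw [← ht, h, act_sm, h1, H_sm, sm_sm, sm_sm] at h2
  have ht4 : t ^ 4 ≠ 0 := pow_ne_zero 4 h0
  have k1 := congrArg BQ.b h2
  have k2 := congrArg BQ.c h2
  simp only [sm, gP, H] at k1 k2
  have hy : y = 0 := by
    apply mul_left_cancel₀ (mul_ne_zero (by norm_num : (-192 : ℚ) ≠ 0) ht4)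
    linear_combination k1
  have hA : A = -3 * x ^ 2 := by
    apply mul_left_cancel₀ (mul_ne_zero (by norm_num : (192 : ℚ) ≠ 0) ht4)
    linear_combination k2
  apply hD
  have hB : B = 2 * x ^ 3 := by
    rw [hy, hA] at hE
    linear_combination -hE
  rw [hA, hB]; ring

theorem fin_roots (f : BQ ℚ) (hf : f ≠ ⟨0, 0, 0, 0, 0⟩) : {X : ℚ | f.ev X 1 = 0}.Finite := by
  obtain ⟨P, hP⟩ : ∃ P : Polynomial ℚ, P = Polynomial.C f.a * Polynomial.X ^ 4 +
    Polynomial.C f.b * Polynomial.X ^ 3 + Polynomial.C f.c * Polynomial.X ^ 2 +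
    Polynomial.C f.d * Polynomial.X + Polynomial.C f.e := ⟨_, rfl⟩
  have hP0 : P ≠ 0 := by
    intro h
    apply hf
    have k4 := congrArg (fun q => Polynomial.coeff q 4) h
    have k3 := congrArg (fun q => Polynomial.coeff q 3) h
    have k2 := congrArg (fun q => Polynomial.coeff q 2) h
    have k1 := congrArg (fun q => Polynomial.coeff q 1) h
    have k0 := congrArg (fun q => Polynomial.coeff q 0) h
    rw [hP] at k4 k3 k2 k1 k0
    simp [Polynomial.coeff_X, Polynomial.coeff_C] at k4 k3 k2 k1 k0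
    ext
    · exact k4
    · exact k3
    · exact k2
    · exact k1
    · exact k0
  refine Set.Finite.subset (Polynomial.finite_setOfPred_isRoot hP0) ?_
  intro X hX
  simp only [Set.mem_ofPred_eq, ev] at hX ⊢
  rw [Polynomial.IsRoot, hP]
  simp only [Polynomial.eval_add, Polynomial.eval_mul, Polynomial.eval_C, Polynomial.eval_pow,
    Polynomial.eval_X]
  linear_combination hX

theorem sq_fin (c : ℚ) : {w : ℚ | w ^ 2 = c}.Finite := by
  by_cases h : ∃ w0 : ℚ, w0 ^ 2 = c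
  · obtain ⟨w0, hw0⟩ := h
    refine Set.Finite.subset (Set.toFinite {w0, -w0}) ?_
    intro w hw
    have hw' : w ^ 2 = c := hw
    rw [← hw0] at hw'
    rcases sq_eq_sq_iff_eq_or_eq_neg.mp hw' with h | h
    · left; exact h
    · right; exact h
  · refine Set.Finite.subset Set.finite_empty ?_
    intro w hw
    exact absurd ⟨w, hw⟩ h

/-- the affine rational points of `w² = g(X)` -/
def Sol (g : BQ ℚ) : Set (ℚ × ℚ) := {p | p.2 ^ 2 = g.ev p.1 1}

theorem g_ne {g : BQ ℚ} {A B : ℚ} (hD : 4 * A ^ 3 + 27 * B ^ 2 ≠ 0)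
    (hI : g.I = -48 * A) (hJ : g.J = -1728 * B) : g ≠ ⟨0, 0, 0, 0, 0⟩ := by
  rintro rfl
  apply hD
  simp only [BQ.I, BQ.J] at hI hJ
  have hA : A = 0 := by linarith
  have hB : B = 0 := by linarith
  rw [hA, hB]; ring

/-- infinitely many points give a class, and the curve has infinitely many points -/
theorem of_sol {g : BQ ℚ} {A B : ℚ} (hD : 4 * A ^ 3 + 27 * B ^ 2 ≠ 0)
    (hI : g.I = -48 * A) (hJ : g.J = -1728 * B) (hinf : (Sol g).Infinite) :
    (∃ x y : ℚ, y ^ 2 = x ^ 3 + A * x + B ∧ Kt g x) ∧ Infinite (Pts A B) := by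
  have h0 : {p : ℚ × ℚ | p ∈ Sol g ∧ p.2 ≠ 0}.Infinite := by
    intro hf
    apply hinf
    refine Set.Finite.subset (hf.union ((fin_roots g (g_ne hD hI hJ)).prod (Set.finite_singleton 0))) ?_
    rintro ⟨X, w⟩ hp
    by_cases hw : w = 0
    · right
      refine ⟨?_, hw⟩
      have : w ^ 2 = g.ev X 1 := hp
      rw [hw] at this
      show g.ev X 1 = 0
      rw [← this]; norm_num
    · left; exact ⟨hp, hw⟩
  constructor
  · obtain ⟨⟨X, w⟩, hp, hw⟩ := h0.nonempty
    obtain ⟨x, y, h1, h2⟩ := exists_pt hI hJ hw (X := X) (Z := 1) hp.symm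
    exact ⟨x, y, h1, X, 1, w, hw, hp.symm, h2⟩
  · by_contra hn
    rw [not_infinite_iff_finite] at hn
    have hxs : {x : ℚ | ∃ y : ℚ, y ^ 2 = x ^ 3 + A * x + B}.Finite := by
      refine Set.Finite.subset (Set.finite_range
        (fun P : Pts A B => match P with
          | Affine.Point.zero => (0 : ℚ)
          | Affine.Point.some x y _ => x)) ?_
      rintro x ⟨y, hy⟩
      exact ⟨Affine.Point.some x y (nons hD hy), rfl⟩
    have hX : (⋃ x ∈ {x : ℚ | (∃ y : ℚ, y ^ 2 = x ^ 3 + A * x + B) ∧ Kt g x},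
        {X : ℚ | (⟨g.H.a - 48 * x * g.a, g.H.b - 48 * x * g.b, g.H.c - 48 * x * g.c,
          g.H.d - 48 * x * g.d, g.H.e - 48 * x * g.e⟩ : BQ ℚ).ev X 1 = 0}).Finite := by
      refine Set.Finite.biUnion (hxs.subset (fun x hx => hx.1)) ?_
      rintro x ⟨⟨y, hy⟩, hk⟩
      refine fin_roots _ ?_
      intro h
      apply H_ne hD hI hJ hy hk
      simp only [BQ.mk.injEq] at h
      obtain ⟨k1, k2, k3, k4, k5⟩ := h
      ext
      · simp only [sm]; linear_combination k1
      · simp only [sm]; linear_combination k2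
      · simp only [sm]; linear_combination k3
      · simp only [sm]; linear_combination k4
      · simp only [sm]; linear_combination k5
    apply h0
    refine Set.Finite.subset (hX.biUnion (t := fun X => Prod.mk X '' {w : ℚ | w ^ 2 = g.ev X 1})
      (fun X _ => (sq_fin _).image _)) ?_
    rintro ⟨X, w⟩ ⟨hp, hw⟩
    have hp' : w ^ 2 = g.ev X 1 := hp
    obtain ⟨x, y, h1, h2⟩ := exists_pt hI hJ hw (X := X) (Z := 1) hp.symm
    simp only [Set.mem_iUnion]
    refine ⟨X, ⟨x, ⟨⟨y, h1⟩, X, 1, w, hw, hp.symm, h2⟩, ?_⟩, w, hp', rfl⟩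
    have e : (⟨g.H.a - 48 * x * g.a, g.H.b - 48 * x * g.b, g.H.c - 48 * x * g.c,
          g.H.d - 48 * x * g.d, g.H.e - 48 * x * g.e⟩ : BQ ℚ).ev X 1 =
          g.H.ev X 1 - 48 * x * g.ev X 1 := by
      simp only [ev]; ring
    show _ = (0 : ℚ)
    rw [e, h2, ← hp']; ring

/-! ### The group -/

theorem two_tors {A B x y : ℚ} (h : (EC A B).toAffine.Nonsingular x y)
    (h2 : (Affine.Point.some x y h : Pts A B) + Affine.Point.some x y h = 0) : y = 0 := by
  have h3 := eq_neg_of_add_eq_zero_left h2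
  rw [Affine.Point.neg_some] at h3
  simp only [Affine.Point.some.injEq, true_and] at h3
  simp only [Affine.negY] at h3
  linarith

theorem two_tors' {A B x : ℚ} (h : (EC A B).toAffine.Nonsingular x 0) :
    (Affine.Point.some x 0 h : Pts A B) + Affine.Point.some x 0 h = 0 := by
  apply Affine.Point.add_of_Y_eq rfl
  simp [Affine.negY]

theorem T2_fin (A B : ℚ) : {T : Pts A B | T + T = 0}.Finite := by
  have hr : {x : ℚ | (⟨0, 1, 0, A, B⟩ : BQ ℚ).ev x 1 = 0}.Finite := by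
    refine fin_roots _ ?_
    intro h
    simp only [BQ.mk.injEq] at h
    exact one_ne_zero h.2.1
  have key : ∀ x : ℚ, {T : Pts A B | ∃ hn, T = Affine.Point.some x 0 hn}.Finite := by
    intro x
    by_cases h : (EC A B).toAffine.Nonsingular x 0
    · refine Set.Finite.subset (Set.finite_singleton (Affine.Point.some x 0 h)) ?_
      rintro T ⟨hn, rfl⟩
      rfl
    · refine Set.Finite.subset (Set.finite_empty) ?_
      rintro T ⟨hn, rfl⟩
      exact absurd hn h
  refine Set.Finite.subset ((Set.finite_singleton (0 : Pts A B)).union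
    (hr.biUnion (fun x _ => key x))) ?_
  intro T hT
  rcases T with _ | ⟨x, y, h⟩
  · left; rfl
  · right
    have hy := two_tors h hT
    subst hy
    simp only [Set.mem_iUnion]
    refine ⟨x, ?_, h, rfl⟩
    have := eqn.mp h.1
    simp only [Set.mem_ofPred_eq, ev]
    linear_combination -this

theorem fiber_fin {A B : ℚ} (g R : Pts A B) : {Q : Pts A B | g + (Q + Q) = R}.Finite := by
  by_cases h : ∃ Q0 : Pts A B, g + (Q0 + Q0) = R
  · obtain ⟨Q0, h0⟩ := h
    refine Set.Finite.subset ((T2_fin A B).image (fun T => T + Q0)) ?_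
    intro Q hQ
    refine ⟨Q - Q0, ?_, by simp⟩
    change g + (Q + Q) = R at hQ
    change Q - Q0 + (Q - Q0) = 0
    have : Q - Q0 + (Q - Q0) = (g + (Q + Q)) - (g + (Q0 + Q0)) := by abel
    rw [this, hQ, h0, sub_self]
  · refine Set.Finite.subset Set.finite_empty ?_
    intro Q hQ
    exact absurd ⟨Q, hQ⟩ h

theorem coset_inf {A B : ℚ} (hinf : Infinite (Pts A B)) (g : Pts A B) :
    {P : Pts A B | ∃ Q, P = g + (Q + Q)}.Infinite := by
  intro hf
  have h1 : (⋃ R ∈ {P : Pts A B | ∃ Q, P = g + (Q + Q)}, {Q : Pts A B | g + (Q + Q) = R}).Finite :=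
    hf.biUnion (fun R _ => fiber_fin g R)
  apply Set.infinite_univ (α := Pts A B)
  refine Set.Finite.subset h1 ?_
  intro Q _
  simp only [Set.mem_iUnion]
  exact ⟨g + (Q + Q), ⟨Q, rfl⟩, rfl⟩

theorem coset_affine {A B : ℚ} (hinf : Infinite (Pts A B)) (g : Pts A B) :
    ∃ (x y : ℚ) (h : (EC A B).toAffine.Nonsingular x y) (Q : Pts A B),
      (Affine.Point.some x y h : Pts A B) = g + (Q + Q) := by
  obtain ⟨P, ⟨Q, hQ⟩, hP⟩ := ((coset_inf hinf g).sdiff (Set.finite_singleton 0)).nonempty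
  rcases P with _ | ⟨x, y, h⟩
  · exact absurd rfl hP
  · exact ⟨x, y, h, Q, hQ⟩

/-- two points with a common quartic are congruent -/
theorem same_class {g : BQ ℚ} {A B x y x' y' : ℚ} (hD : 4 * A ^ 3 + 27 * B ^ 2 ≠ 0)
    (hI : g.I = -48 * A) (hJ : g.J = -1728 * B)
    (h : (EC A B).toAffine.Nonsingular x y) (h' : (EC A B).toAffine.Nonsingular x' y')
    (hk : Kt g x) (hk' : Kt g x') :
    ∃ Q : Pts A B, (Affine.Point.some x' y' h' : Pts A B) = Affine.Point.some x y h + (Q + Q) := by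
  have h1 := kt_equ hI hJ (eqn.mp h.1) hk
  exact coset_of_kt hD h h' (h1.kt_iff.mp hk')

/-- the quartic belongs to the whole class -/
theorem class_kt {g : BQ ℚ} {A B x y x' y' : ℚ} (hD : 4 * A ^ 3 + 27 * B ^ 2 ≠ 0)
    (hI : g.I = -48 * A) (hJ : g.J = -1728 * B)
    (h : (EC A B).toAffine.Nonsingular x y) (h' : (EC A B).toAffine.Nonsingular x' y')
    (hk : Kt g x) {Q : Pts A B}
    (hQ : (Affine.Point.some x' y' h' : Pts A B) = Affine.Point.some x y h + (Q + Q)) :
    Kt g x' := by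
  have h1 := kt_equ hI hJ (eqn.mp h.1) hk
  exact h1.kt_iff.mpr (kt_of_coset hD h h' hQ)

/-- a quartic with a suitable point has infinitely many points if the curve has -/
theorem sol_inf {g : BQ ℚ} {A B x y : ℚ} (hD : 4 * A ^ 3 + 27 * B ^ 2 ≠ 0)
    (hI : g.I = -48 * A) (hJ : g.J = -1728 * B) (hE : y ^ 2 = x ^ 3 + A * x + B)
    (hk : Kt g x) (hinf : Infinite (Pts A B)) : (Sol g).Infinite := by
  intro hfin
  have h := nons hD hE
  have h1 := (coset_inf hinf (Affine.Point.some x y h)).sdiff (Set.finite_singleton 0)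
  apply h1
  have hxs : ((fun p : ℚ × ℚ => g.H.ev p.1 1 / (48 * p.2 ^ 2)) '' (Sol g) ∪
    {g.H.a / (48 * g.a)}).Finite := (hfin.image _).union (Set.finite_singleton _)
  have key : ∀ x' : ℚ, {P : Pts A B | ∃ y' h', P = Affine.Point.some x' y' h'}.Finite := by
    intro x'
    refine Set.Finite.subset ((sq_fin (x' ^ 3 + A * x' + B)).biUnion
      (t := fun y' => {P : Pts A B | ∃ h', P = Affine.Point.some x' y' h'}) ?_) ?_
    · intro y' _
      by_cases h : (EC A B).toAffine.Nonsingular x' y'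
      · refine Set.Finite.subset (Set.finite_singleton (Affine.Point.some x' y' h)) ?_
        rintro T ⟨hn, rfl⟩
        rfl
      · refine Set.Finite.subset (Set.finite_empty) ?_
        rintro T ⟨hn, rfl⟩
        exact absurd hn h
    · rintro P ⟨y', h', rfl⟩
      simp only [Set.mem_iUnion]
      exact ⟨y', eqn.mp h'.1, h', rfl⟩
  refine Set.Finite.subset (hxs.biUnion (fun x' _ => key x')) ?_
  rintro P ⟨⟨Q, hQ⟩, hP0⟩
  rcases P with _ | ⟨x', y', h'⟩
  · exact absurd rfl hP0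
  · have hk' := class_kt hD hI hJ h h' hk hQ
    obtain ⟨X, Z, w, hw, e1, e2⟩ := hk'
    simp only [Set.mem_iUnion]
    refine ⟨x', ?_, y', h', rfl⟩
    by_cases hZ : Z = 0
    · right
      subst hZ
      have f1 : g.a * X ^ 4 = w ^ 2 := by rw [← e1]; simp only [ev]; ring
      have f2 : g.H.a * X ^ 4 = 48 * x' * w ^ 2 := by rw [← e2]; simp only [ev]; ring
      have hw2 : w ^ 2 ≠ 0 := pow_ne_zero 2 hw
      have hX : X ≠ 0 := by
        rintro rfl
        apply hw2; rw [← f1]; ring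
      have ha : g.a ≠ 0 := by
        intro h0
        apply hw2; rw [← f1, h0]; ring
      show x' = g.H.a / (48 * g.a)
      rw [eq_div_iff (mul_ne_zero (by norm_num) ha)]
      apply mul_right_cancel₀ (pow_ne_zero 4 hX)
      linear_combination 48 * x' * f1 - f2
    · left
      have hp : (X / Z, w / Z ^ 2) ∈ Sol g := by
        show (w / Z ^ 2) ^ 2 = g.ev (X / Z) 1
        have : g.ev (X / Z) 1 = g.ev X Z / Z ^ 4 := by
          simp only [ev]; field_simp
        rw [this, e1]; field_simp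
      refine ⟨_, hp, ?_⟩
      have : g.H.ev (X / Z) 1 = g.H.ev X Z / Z ^ 4 := by
        simp only [ev]; field_simp
      simp only
      rw [this, e2]; field_simp

end Pool.Agent.H79.QR
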