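import Mathlib
import Pool.Graph.R_pool_sql_team_seeded_ab47071d.TH352.RC.RC4

/-!
# Computability tools: integral polynomials, bounded search
-/

set_option autoImplicit false

namespace Pool.Agent.H79.QR

open Pool.Agent.Helper566.FD.J7 Pool.Agent.TH352.RC

/-- integral polynomials as expressions -/
inductive PE : Type
  | c : ℤ → PE
  | v : ℕ → PE
  | add : PE → PE → PE
  | mul : PE → PE → PE

/-- the value of an expression -/
def PE.val : PE → List ℤ → ℤ
  | PE.c n, _ => n
  | PE.v i, l => l.getD i 0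
  | PE.add e f, l => e.val l + f.val l
  | PE.mul e f, l => e.val l * f.val l

instance : Add PE := ⟨PE.add⟩
instance : Mul PE := ⟨PE.mul⟩

theorem val_add (e f : PE) (l : List ℤ) : (e + f).val l = e.val l + f.val l := rfl
theorem val_mul (e f : PE) (l : List ℤ) : (e * f).val l = e.val l * f.val l := rfl

theorem prim_val (e : PE) : Primrec (e.val) := by
  induction e with
  | c n => exact Primrec.const n
  | v i => exact (Primrec.list_getD (0 : ℤ)).comp Primrec.id (Primrec.const i)
  | add e f h1 h2 => exact prim_int_add.comp h1 h2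
  | mul e f h1 h2 => exact prim_int_mul.comp h1 h2

theorem prim_val' {α : Type} [Primcodable α] (e : PE) {f : α → List ℤ} (hf : Primrec f) :
    Primrec (fun a => e.val (f a)) := (prim_val e).comp hf

/-- bounded search -/
def exb (p : ℕ → Bool) (n : ℕ) : Bool := decide (0 < cnt p n)

theorem exb_iff (p : ℕ → Bool) (n : ℕ) : exb p n = true ↔ ∃ k < n, p k = true := by
  unfold exb
  rw [decide_eq_true_eq, cnt_eq, Finset.card_pos]
  constructor
  · rintro ⟨k, hk⟩
    rw [Finset.mem_filter, Finset.mem_range] at hk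
    exact ⟨k, hk.1, hk.2⟩
  · rintro ⟨k, h1, h2⟩
    exact ⟨k, by rw [Finset.mem_filter, Finset.mem_range]; exact ⟨h1, h2⟩⟩

theorem comp_exb {α : Type} [Primcodable α] {N : α → ℕ} {p : α → ℕ → Bool} (hN : Computable N)
    (hp : Computable₂ p) : Computable (fun a => exb (p a) (N a)) := by
  have h := comp_cnt hN hp
  exact Primrec.nat_lt.decide.to_comp.comp (Computable.const 0) h

/-- integers from natural numbers -/
def zz (n : ℕ) : ℤ := (n.unpair.1 : ℤ) - (n.unpair.2 : ℤ)

theorem zz_surj (z : ℤ) : ∃ n, zz n = z := by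
  refine ⟨Nat.pair z.toNat (-z).toNat, ?_⟩
  unfold zz
  rw [Nat.unpair_pair]
  simp only
  omega

theorem prim_zz : Primrec zz := by
  have h1 : Primrec (fun n : ℕ => ((n.unpair.1 : ℕ) : ℤ)) :=
    prim_natCast.comp (Primrec.fst.comp Primrec.unpair)
  have h2 : Primrec (fun n : ℕ => ((n.unpair.2 : ℕ) : ℤ)) :=
    prim_natCast.comp (Primrec.snd.comp Primrec.unpair)
  exact prim_int_sub.comp h1 h2

/-- a power of two times `τ` -/
def lgt (m τ : ℕ) : ℕ := cnt (fun k => decide (2 ^ (k + 1) * τ ≤ m)) m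

theorem lgt_zero (τ : ℕ) : lgt 0 τ = 0 := rfl

theorem lgt_pow (r τ : ℕ) (hτ : 1 ≤ τ) : lgt (2 ^ r * τ) τ = r := by
  unfold lgt
  rw [cnt_eq]
  have : Finset.filter (fun k => decide (2 ^ (k + 1) * τ ≤ 2 ^ r * τ) = true)
      (Finset.range (2 ^ r * τ)) = Finset.range r := by
    ext k
    rw [Finset.mem_filter, Finset.mem_range, Finset.mem_range, decide_eq_true_eq,
      Nat.mul_le_mul_right_iff (by omega), Nat.pow_le_pow_iff_right (by norm_num)]
    have h1 := Nat.lt_two_pow_self (n := r)
    have h2 : 2 ^ r ≤ 2 ^ r * τ := Nat.le_mul_of_pos_right _ (by omega)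
    omega
  rw [this, Finset.card_range]

theorem comp_lgt : Computable₂ lgt := by
  have h : Computable₂ (fun (z : ℕ × ℕ) (k : ℕ) => decide (2 ^ (k + 1) * z.2 ≤ z.1)) := by
    have h1 : Primrec (fun z : (ℕ × ℕ) × ℕ => 2 ^ (z.2 + 1) * z.1.2) :=
      Primrec.nat_mul.comp (prim_pow2.comp (Primrec.nat_add.comp Primrec.snd (Primrec.const 1)))
        (Primrec.snd.comp Primrec.fst)
    exact (Primrec.nat_le.decide.comp h1 (Primrec.fst.comp Primrec.fst)).to_comp
  exact comp_cnt (N := fun z : ℕ × ℕ => z.1) Computable.fst h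

/-- the absolute value -/
def nab (n : ℤ) : ℕ := n.toNat + (-n).toNat

theorem nab_eq (n : ℤ) : nab n = n.natAbs := by unfold nab; omega

theorem prim_nab : Primrec nab := Primrec.nat_add.comp prim_toNat prim_toNat_neg

end Pool.Agent.H79.QR
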