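import Mathlib
import Pool.Agent.H79.QR.Alg

/-!
# Integral quartics for the rational points of `y² = x³ + A x + B`, `A`, `B` integers
-/

set_option autoImplicit false

namespace Pool.Agent.H79.QR

open BQ

theorem map_act {R S : Type} [CommRing R] [CommRing S] (φ : R →+* S) (g : BQ R) (p q r s : R) :
    (g.act p q r s).map φ = (g.map φ).act (φ p) (φ q) (φ r) (φ s) := by
  ext <;> simp [act, map, map_ofNat]

theorem map_ev {R S : Type} [CommRing R] [CommRing S] (φ : R →+* S) (g : BQ R) (x z : R) :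
    (g.map φ).ev (φ x) (φ z) = φ (g.ev x z) := by
  simp [ev, map]

theorem map_I {R S : Type} [CommRing R] [CommRing S] (φ : R →+* S) (g : BQ R) :
    (g.map φ).I = φ g.I := by
  simp [BQ.I, map, map_ofNat]

theorem map_J {R S : Type} [CommRing R] [CommRing S] (φ : R →+* S) (g : BQ R) :
    (g.map φ).J = φ g.J := by
  simp [BQ.J, map, map_ofNat]

theorem map_H {R S : Type} [CommRing R] [CommRing S] (φ : R →+* S) (g : BQ R) :
    (g.map φ).H = g.H.map φ := by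
  ext <;> simp [BQ.H, map, map_ofNat]

/-- the quartic over `ℚ` of an integral quartic -/
def toQ (g : BQ ℤ) : BQ ℚ := g.map (Int.castRingHom ℚ)

theorem toQ_a (g : BQ ℤ) : (toQ g).a = g.a := rfl
theorem toQ_b (g : BQ ℤ) : (toQ g).b = g.b := rfl
theorem toQ_c (g : BQ ℤ) : (toQ g).c = g.c := rfl
theorem toQ_d (g : BQ ℤ) : (toQ g).d = g.d := rfl
theorem toQ_e (g : BQ ℤ) : (toQ g).e = g.e := rfl

theorem toQ_I (g : BQ ℤ) : (toQ g).I = g.I := map_I _ g
theorem toQ_J (g : BQ ℤ) : (toQ g).J = g.J := map_J _ g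
theorem toQ_H (g : BQ ℤ) : (toQ g).H = toQ g.H := map_H _ g
theorem toQ_act (g : BQ ℤ) (p q r s : ℤ) : toQ (g.act p q r s) = (toQ g).act p q r s :=
  map_act _ g p q r s
theorem toQ_ev (g : BQ ℤ) (x z : ℤ) : (toQ g).ev x z = (g.ev x z : ℤ) := map_ev _ g x z

/-- the denominators of a rational point -/
theorem denoms {A B : ℤ} {x y : ℚ} (h : y ^ 2 = x ^ 3 + A * x + B) :
    ∃ r s t : ℤ, 1 ≤ t ∧ IsCoprime r t ∧ x = r / (t : ℚ) ^ 2 ∧ y = s / (t : ℚ) ^ 3 := by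
  obtain ⟨n, hn⟩ : ∃ n : ℤ, n = x.num := ⟨_, rfl⟩
  obtain ⟨d, hd⟩ : ∃ d : ℕ, d = x.den := ⟨_, rfl⟩
  have hd0 : d ≠ 0 := by rw [hd]; exact x.den_nz
  have hdq : (d : ℚ) ≠ 0 := by exact_mod_cast hd0
  have hx : x = n / d := by rw [hn, hd]; exact (Rat.num_div_den x).symm
  have hcop : IsCoprime n (d : ℤ) := by
    rw [hn, hd, Int.isCoprime_iff_gcd_eq_one]
    have := x.reduced
    rw [Nat.coprime_iff_gcd_eq_one] at this
    rw [Int.gcd_def] 
    simpa using this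
  obtain ⟨N, hN⟩ : ∃ N : ℤ, N = n ^ 3 + A * n * d ^ 2 + B * d ^ 3 := ⟨_, rfl⟩
  have hNc : IsCoprime N ((d ^ 3 : ℕ) : ℤ) := by
    push_cast
    apply IsCoprime.pow_right
    have h1 : N = n ^ 3 + d * (A * n * d + B * d ^ 2) := by rw [hN]; ring
    rw [h1]
    exact (IsCoprime.add_mul_left_left (hcop.pow_left (m := 3)) _)
  have hy2 : y ^ 2 = (N : ℚ) / ((d ^ 3 : ℕ) : ℚ) := by
    rw [h, hx, hN]; push_cast; field_simp
  have hden : y.den ^ 2 = d ^ 3 := by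
    have h1 : (y ^ 2).den = y.den ^ 2 := Rat.den_pow y 2
    rw [← h1, hy2]
    have h2 : ((N : ℚ) / ((d ^ 3 : ℕ) : ℚ)).den = d ^ 3 := by
      have h3 : Nat.Coprime N.natAbs (d ^ 3) := by
        have := Int.isCoprime_iff_gcd_eq_one.mp hNc
        rw [Int.gcd_def] at this
        simpa using this
      have h4 : (0 : ℤ) < ((d ^ 3 : ℕ) : ℤ) := by positivity
      have h5 := Rat.den_div_eq_of_coprime h4 (by simpa using h3) (a := N)
      have h6 : (((N : ℚ) / ((d ^ 3 : ℕ) : ℚ)).den : ℤ) = ((d ^ 3 : ℕ) : ℤ) := by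
        rw [← h5]; push_cast; rfl
      exact_mod_cast h6
    exact h2
  obtain ⟨e, he⟩ : ∃ e : ℕ, e = y.den := ⟨_, rfl⟩
  rw [← he] at hden
  have hde : d ∣ e := by
    have : d ^ 2 ∣ e ^ 2 := ⟨d, by rw [hden]; ring⟩
    exact (Nat.pow_dvd_pow_iff two_ne_zero).mp this
  obtain ⟨t, ht⟩ := hde
  have ht2 : d = t ^ 2 := by
    have h1 : d ^ 2 * t ^ 2 = d ^ 2 * d := by
      rw [ht] at hden
      calc d ^ 2 * t ^ 2 = (d * t) ^ 2 := by ring
        _ = d ^ 3 := hden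
        _ = d ^ 2 * d := by ring
    exact (Nat.eq_of_mul_eq_mul_left (by positivity) h1).symm
  have ht0 : t ≠ 0 := by rintro rfl; apply hd0; rw [ht2]; rfl
  refine ⟨n, y.num, t, by omega, ?_, ?_, ?_⟩
  · rw [ht2] at hcop
    push_cast at hcop
    exact (IsCoprime.pow_right_iff (by norm_num)).mp hcop
  · rw [hx, ht2]; push_cast; rfl
  · have h1 : y = y.num / y.den := (Rat.num_div_den y).symm
    have h2 : (y.den : ℚ) = (t : ℚ) ^ 3 := by
      rw [← he, ht, ht2]; push_cast; ring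
    rw [h2] at h1
    exact_mod_cast h1

/-- an integral quartic with the right invariants -/
theorem integral_model {A B : ℤ} {x y : ℚ} (h : y ^ 2 = x ^ 3 + A * x + B) :
    ∃ g : BQ ℤ, g.I = -48 * A ∧ g.J = -1728 * B ∧ Equ (gP (A : ℚ) x y) (toQ g) := by
  obtain ⟨r, s, t, ht, hrt, hx, hy⟩ := denoms h
  have ht0 : (t : ℚ) ≠ 0 := by
    have : t ≠ 0 := by omega
    exact_mod_cast this
  have htz : t ≠ 0 := by omega
  have hcurve : s ^ 2 = r ^ 3 + A * r * t ^ 4 + B * t ^ 6 := by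
    have h1 : (s : ℚ) ^ 2 = r ^ 3 + A * r * t ^ 4 + B * t ^ 6 := by
      rw [hx, hy] at h
      field_simp at h
      linear_combination h
    exact_mod_cast h1
  obtain ⟨u0, v0, huv⟩ := (hrt.pow_right (n := 6))
  obtain ⟨k, hk⟩ : ∃ k, k = u0 * s := ⟨_, rfl⟩
  obtain ⟨u, hu⟩ : ∃ u, u = -v0 * s := ⟨_, rfl⟩
  have hrk : r * k = s + t ^ 6 * u := by
    rw [hk, hu]; linear_combination s * huv
  have h1 : r ^ 2 * (k ^ 2 - r) = t ^ 4 * (A * r + B * t ^ 2 + 2 * s * t ^ 2 * u + t ^ 8 * u ^ 2) := by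
    linear_combination (r * k + s + t ^ 6 * u) * hrk + hcurve
  have h2 : t ^ 4 ∣ k ^ 2 - r := by
    have h3 : IsCoprime (t ^ 4) (r ^ 2) := (hrt.symm.pow_left (m := 4)).pow_right (n := 2)
    exact h3.dvd_of_dvd_mul_left ⟨_, h1⟩
  obtain ⟨v, hv⟩ := h2
  have h4 : r * (r * v - A) = t ^ 2 * (B + 2 * s * u + t ^ 6 * u ^ 2) := by
    have h5 : t ^ 4 * (r * (r * v - A)) = t ^ 4 * (t ^ 2 * (B + 2 * s * u + t ^ 6 * u ^ 2)) := by
      linear_combination h1 - r ^ 2 * hv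
    exact mul_left_cancel₀ (pow_ne_zero 4 htz) h5
  have h6 : t ^ 2 ∣ r * v - A := by
    have h3 : IsCoprime (t ^ 2) r := hrt.symm.pow_left (m := 2)
    exact h3.dvd_of_dvd_mul_left ⟨_, h4⟩
  obtain ⟨w, hw⟩ := h6
  obtain ⟨g, hg⟩ : ∃ g : BQ ℤ, g = ⟨t ^ 2, 4 * k, 6 * (t ^ 2 * v), 4 * k * v - 8 * t ^ 2 * u,
    t ^ 2 * v ^ 2 + 4 * w - 8 * u * k⟩ := ⟨_, rfl⟩
  have hvq : (k : ℚ) ^ 2 - r = t ^ 4 * v := by exact_mod_cast hv
  have hwq : (r : ℚ) * v - A = t ^ 2 * w := by exact_mod_cast hw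
  have hrq : (r : ℚ) * k = s + t ^ 6 * u := by exact_mod_cast hrk
  have hr : (r : ℚ) = k ^ 2 - t ^ 4 * v := by linear_combination -hvq
  have hs : (s : ℚ) = r * k - t ^ 6 * u := by linear_combination -hrq
  have hA : (A : ℚ) = r * v - t ^ 2 * w := by linear_combination -hwq
  have hact : (gP (A : ℚ) x y).act t (k / t) 0 1 = sm ((t : ℚ) ^ 2) (toQ g) := by
    ext
    · simp only [gP, act, sm, toQ_a, hg]; push_cast; ring
    · simp only [gP, act, sm, toQ_b, hg]; push_cast; field_simp; ring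
    · simp only [gP, act, sm, toQ_c, hg, hx]; push_cast; rw [hr]; field_simp; ring
    · simp only [gP, act, sm, toQ_d, hg, hx, hy]; push_cast; rw [hs, hr]; field_simp; ring
    · simp only [gP, act, sm, toQ_e, hg, hx, hy]; push_cast; rw [hs, hA, hr]; field_simp; ring
  have hequ : Equ (gP (A : ℚ) x y) (toQ g) := by
    refine ⟨t, k / t, 0, 1, ?_, ?_⟩
    · simpa using ht0
    · rw [hact]; congr 1; ring
  have ht4 : (t : ℚ) ^ 4 ≠ 0 := pow_ne_zero 4 ht0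
  have ht6 : (t : ℚ) ^ 6 ≠ 0 := pow_ne_zero 6 ht0
  refine ⟨g, ?_, ?_, hequ⟩
  · have e1 := I_act (gP (A : ℚ) x y) t (k / t) 0 1
    rw [hact, I_sm, gP_I, toQ_I] at e1
    have e2 : (t : ℚ) ^ 4 * g.I = t ^ 4 * (-48 * A) := by
      linear_combination e1
    have e3 := mul_left_cancel₀ ht4 e2
    exact_mod_cast e3
  · have e1 := J_act (gP (A : ℚ) x y) t (k / t) 0 1
    rw [hact, J_sm, gP_J h, toQ_J] at e1
    have e2 : (t : ℚ) ^ 6 * g.J = t ^ 6 * (-1728 * B) := by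
      linear_combination e1
    have e3 := mul_left_cancel₀ ht6 e2
    exact_mod_cast e3

end Pool.Agent.H79.QR
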