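import Mathlib
import Pool.Agent.H79.QR.Comp
import Pool.Agent.H79.QR.Int
import Pool.Agent.H79.QR.Cls

/-!
# The class test
-/

set_option autoImplicit false

namespace Pool.Agent.H79.QR

open Pool.Agent.Helper566.FD.J7 Pool.Agent.TH352.RC BQ

/-- coefficients of integral quartics -/
abbrev C5 : Type := ℤ × ℤ × ℤ × ℤ × ℤ

/-- the quartic with the given coefficients -/
def toBQ (c : C5) : BQ ℤ := ⟨c.1, c.2.1, c.2.2.1, c.2.2.2.1, c.2.2.2.2⟩

/-! ### roots of forms -/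

theorem zb_aux {f0 f1 f2 f3 f4 X Z : ℤ} (hc : IsCoprime X Z) (hZ : Z ≠ 0)
    (h : f0 * X ^ 4 + f1 * X ^ 3 * Z + f2 * X ^ 2 * Z ^ 2 + f3 * X * Z ^ 3 + f4 * Z ^ 4 = 0)
    (hne : ¬ (f0 = 0 ∧ f1 = 0 ∧ f2 = 0 ∧ f3 = 0 ∧ f4 = 0)) :
    |Z| ≤ |f0| + |f1| + |f2| + |f3| + |f4| := by
  have a0 := abs_nonneg f0
  have a1 := abs_nonneg f1
  have a2 := abs_nonneg f2
  have a3 := abs_nonneg f3
  have a4 := abs_nonneg f4
  have key : ∀ (f : ℤ) (n : ℕ), Z ∣ f * X ^ n → f ≠ 0 → |Z| ≤ |f| := by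
    intro f n hd hf
    have h1 : IsCoprime Z (X ^ n) := hc.symm.pow_right
    have h2 : Z ∣ f := h1.dvd_of_dvd_mul_right hd
    exact Int.le_of_dvd (abs_pos.mpr hf) ((abs_dvd_abs Z f).mpr h2)
  by_cases h0 : f0 = 0
  · by_cases h1 : f1 = 0
    · by_cases h2 : f2 = 0
      · by_cases h3 : f3 = 0
        · exfalso
          subst h0 h1 h2 h3
          apply hne
          refine ⟨rfl, rfl, rfl, rfl, ?_⟩
          have : f4 * Z ^ 4 = 0 := by linear_combination h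
          rcases mul_eq_zero.mp this with h5 | h5
          · exact h5
          · exact absurd (pow_eq_zero_iff (by norm_num) |>.mp h5) hZ
        · have h5 : Z ^ 3 * (f3 * X ^ 1 + f4 * Z) = 0 := by
            rw [h0, h1, h2] at h; linear_combination h
          have h6 : f3 * X ^ 1 + f4 * Z = 0 := by
            rcases mul_eq_zero.mp h5 with h7 | h7
            · exact absurd (pow_eq_zero_iff (by norm_num) |>.mp h7) hZ
            · exact h7
          have := key f3 1 ⟨-f4, by linear_combination h6⟩ h3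
          linarith
      · have h5 : Z ^ 2 * (f2 * X ^ 2 + f3 * X * Z + f4 * Z ^ 2) = 0 := by
          rw [h0, h1] at h; linear_combination h
        have h6 : f2 * X ^ 2 + f3 * X * Z + f4 * Z ^ 2 = 0 := by
          rcases mul_eq_zero.mp h5 with h7 | h7
          · exact absurd (pow_eq_zero_iff (by norm_num) |>.mp h7) hZ
          · exact h7
        have := key f2 2 ⟨-(f3 * X + f4 * Z), by linear_combination h6⟩ h2
        linarith
    · have h5 : Z * (f1 * X ^ 3 + f2 * X ^ 2 * Z + f3 * X * Z ^ 2 + f4 * Z ^ 3) = 0 := by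
        rw [h0] at h; linear_combination h
      have h6 : f1 * X ^ 3 + f2 * X ^ 2 * Z + f3 * X * Z ^ 2 + f4 * Z ^ 3 = 0 := by
        rcases mul_eq_zero.mp h5 with h7 | h7
        · exact absurd h7 hZ
        · exact h7
      have := key f1 3 ⟨-(f2 * X ^ 2 + f3 * X * Z + f4 * Z ^ 2), by linear_combination h6⟩ h1
      linarith
  · have := key f0 4 ⟨-(f1 * X ^ 3 + f2 * X ^ 2 * Z + f3 * X * Z ^ 2 + f4 * Z ^ 3),
      by linear_combination h⟩ h0
    linarith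

theorem zb {f0 f1 f2 f3 f4 X Z : ℤ} (hc : IsCoprime X Z)
    (h : f0 * X ^ 4 + f1 * X ^ 3 * Z + f2 * X ^ 2 * Z ^ 2 + f3 * X * Z ^ 3 + f4 * Z ^ 4 = 0)
    (hne : ¬ (f0 = 0 ∧ f1 = 0 ∧ f2 = 0 ∧ f3 = 0 ∧ f4 = 0)) :
    |X| ≤ |f0| + |f1| + |f2| + |f3| + |f4| ∧ |Z| ≤ |f0| + |f1| + |f2| + |f3| + |f4| := by
  have a0 := abs_nonneg f0
  have a1 := abs_nonneg f1
  have a2 := abs_nonneg f2
  have a3 := abs_nonneg f3
  have a4 := abs_nonneg f4
  constructor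
  · by_cases hX : X = 0
    · rw [hX, abs_zero]; linarith
    · have := zb_aux (f0 := f4) (f1 := f3) (f2 := f2) (f3 := f1) (f4 := f0) hc.symm hX
        (by linear_combination h) (by tauto)
      linarith
  · by_cases hZ : Z = 0
    · rw [hZ, abs_zero]; linarith
    · exact zb_aux hc hZ h hne

/-! ### the test -/

/-- subtraction of expressions -/
def ps (e f : PE) : PE := e + PE.c (-1) * f

theorem val_ps (e f : PE) (l : List ℤ) : (ps e f).val l = e.val l - f.val l := by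
  unfold ps
  rw [val_add, val_mul]
  show _ + (-1) * _ = _
  ring

/-- the expression of a quartic form in the variables `i`, `j` -/
def pev (c0 c1 c2 c3 c4 x z : PE) : PE :=
  c0 * (x * x * x * x) + c1 * (x * x * x * z) + c2 * (x * x * z * z) + c3 * (x * z * z * z) +
    c4 * (z * z * z * z)

theorem val_pev (c0 c1 c2 c3 c4 x z : PE) (l : List ℤ) : (pev c0 c1 c2 c3 c4 x z).val l =
    (⟨c0.val l, c1.val l, c2.val l, c3.val l, c4.val l⟩ : BQ ℤ).ev (x.val l) (z.val l) := by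
  unfold pev
  simp only [val_add, val_mul, BQ.ev]
  ring

def pF0 : PE := ps (PE.v 6 * PE.v 6 * ps (PE.c 3 * PE.v 1 * PE.v 1) (PE.c 8 * PE.v 0 * PE.v 2))
  (PE.c 48 * PE.v 5 * PE.v 0)
def pF1 : PE := ps (PE.v 6 * PE.v 6 * (PE.c 4 * ps (PE.v 1 * PE.v 2) (PE.c 6 * PE.v 0 * PE.v 3)))
  (PE.c 48 * PE.v 5 * PE.v 1)
def pF2 : PE := ps (PE.v 6 * PE.v 6 * (PE.c 2 * ps (ps (PE.c 2 * PE.v 2 * PE.v 2)
  (PE.c 24 * PE.v 0 * PE.v 4)) (PE.c 3 * PE.v 1 * PE.v 3))) (PE.c 48 * PE.v 5 * PE.v 2)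
def pF3 : PE := ps (PE.v 6 * PE.v 6 * (PE.c 4 * ps (PE.v 2 * PE.v 3) (PE.c 6 * PE.v 1 * PE.v 4)))
  (PE.c 48 * PE.v 5 * PE.v 3)
def pF4 : PE := ps (PE.v 6 * PE.v 6 * ps (PE.c 3 * PE.v 3 * PE.v 3) (PE.c 8 * PE.v 2 * PE.v 4))
  (PE.c 48 * PE.v 5 * PE.v 4)

/-- the form `t² H - 48 r g` -/
def FF (g : BQ ℤ) (r t : ℤ) : BQ ℤ :=
  ⟨t ^ 2 * g.H.a - 48 * r * g.a, t ^ 2 * g.H.b - 48 * r * g.b, t ^ 2 * g.H.c - 48 * r * g.c,
    t ^ 2 * g.H.d - 48 * r * g.d, t ^ 2 * g.H.e - 48 * r * g.e⟩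

theorem FF_ev (g : BQ ℤ) (r t X Z : ℤ) :
    (FF g r t).ev X Z = t ^ 2 * g.H.ev X Z - 48 * r * g.ev X Z := by
  simp only [FF, BQ.ev]; ring

/-- the list of inputs -/
def ins (z : C5 × (ℤ × ℤ)) : List ℤ :=
  [z.1.1, z.1.2.1, z.1.2.2.1, z.1.2.2.2.1, z.1.2.2.2.2, z.2.1, z.2.2]

theorem val_pF (z : C5 × (ℤ × ℤ)) (l : List ℤ) :
    (⟨pF0.val (ins z ++ l), pF1.val (ins z ++ l), pF2.val (ins z ++ l), pF3.val (ins z ++ l),
      pF4.val (ins z ++ l)⟩ : BQ ℤ) = FF (toBQ z.1) z.2.1 z.2.2 := by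
  ext <;> simp only [pF0, pF1, pF2, pF3, pF4, val_ps, val_mul, FF, toBQ, BQ.H, ins, PE.val,
    List.cons_append, List.getD_cons_zero, List.getD_cons_succ] <;> ring

theorem prim_ins : Primrec ins := by
  have h1 : Primrec (fun z : C5 × (ℤ × ℤ) => z.1) := Primrec.fst
  have h2 : Primrec (fun z : C5 × (ℤ × ℤ) => z.2) := Primrec.snd
  have a := Primrec.fst.comp h1
  have b' := Primrec.snd.comp h1
  have b := Primrec.fst.comp b'
  have c' := Primrec.snd.comp b'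
  have c := Primrec.fst.comp c'
  have d' := Primrec.snd.comp c'
  have d := Primrec.fst.comp d'
  have e := Primrec.snd.comp d'
  have r := Primrec.fst.comp h2
  have t := Primrec.snd.comp h2
  have nil : Primrec (fun _ : C5 × (ℤ × ℤ) => ([] : List ℤ)) := Primrec.const []
  exact Primrec.list_cons.comp a (Primrec.list_cons.comp b (Primrec.list_cons.comp c
    (Primrec.list_cons.comp d (Primrec.list_cons.comp e (Primrec.list_cons.comp r
    (Primrec.list_cons.comp t nil))))))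

/-- the sum of the absolute values of the coefficients -/
def sS (z : C5 × (ℤ × ℤ)) : ℕ :=
  nab (pF0.val (ins z)) + nab (pF1.val (ins z)) + nab (pF2.val (ins z)) + nab (pF3.val (ins z)) +
    nab (pF4.val (ins z))

theorem prim_sS : Primrec sS := by
  have h : ∀ e : PE, Primrec (fun z => nab (e.val (ins z))) := fun e =>
    prim_nab.comp (prim_val' e prim_ins)
  exact Primrec.nat_add.comp (Primrec.nat_add.comp (Primrec.nat_add.comp (Primrec.nat_add.comp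
    (h pF0) (h pF1)) (h pF2)) (h pF3)) (h pF4)

/-- positive square test -/
def sqp (n : ℤ) : Bool := exb (fun w => decide ((w + 1) * (w + 1) = n.toNat)) n.toNat

theorem sqp_iff (n : ℤ) : sqp n = true ↔ ∃ w : ℤ, w ≠ 0 ∧ n = w ^ 2 := by
  unfold sqp
  rw [exb_iff]
  constructor
  · rintro ⟨w, _, hw⟩
    rw [decide_eq_true_eq] at hw
    refine ⟨(w : ℤ) + 1, by omega, ?_⟩
    have h0 : 0 < n.toNat := by rw [← hw]; positivity
    have h1 : (n.toNat : ℤ) = n := Int.toNat_of_nonneg (by omega)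
    rw [← h1, ← hw]; push_cast; ring
  · rintro ⟨w, hw, rfl⟩
    have h1 : 1 ≤ w.natAbs := Int.natAbs_pos.mpr hw
    have h2 : (w ^ 2).toNat = w.natAbs * w.natAbs := by
      have : w ^ 2 = ((w.natAbs * w.natAbs : ℕ) : ℤ) := by
        push_cast; rw [← sq, sq_abs]
      rw [this, Int.toNat_natCast]
    refine ⟨w.natAbs - 1, ?_, ?_⟩
    · rw [h2]
      have : w.natAbs ≤ w.natAbs * w.natAbs := Nat.le_mul_self _
      omega
    · rw [decide_eq_true_eq, h2, Nat.sub_add_cancel h1]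

theorem comp_sqp : Computable sqp := by
  have h : Computable₂ (fun (n : ℤ) (w : ℕ) => decide ((w + 1) * (w + 1) = n.toNat)) := by
    have h1 : Primrec (fun z : ℤ × ℕ => z.2 + 1) := Primrec.succ.comp Primrec.snd
    exact (Primrec.eq.decide.comp (Primrec.nat_mul.comp h1 h1)
      (prim_toNat.comp Primrec.fst)).to_comp
  exact comp_exb prim_toNat.to_comp h

def pFe : PE := pev pF0 pF1 pF2 pF3 pF4 (PE.v 7) (PE.v 8)
def pGe : PE := pev (PE.v 0) (PE.v 1) (PE.v 2) (PE.v 3) (PE.v 4) (PE.v 7) (PE.v 8)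

/-- the test for given `X = i - S`, `Z = j - S` -/
def kt0 (z : ((C5 × (ℤ × ℤ)) × ℕ) × ℕ) : Bool :=
  decide (pFe.val (ins z.1.1 ++ [(z.1.2 : ℤ) - sS z.1.1, (z.2 : ℤ) - sS z.1.1]) = 0) &&
    sqp (pGe.val (ins z.1.1 ++ [(z.1.2 : ℤ) - sS z.1.1, (z.2 : ℤ) - sS z.1.1]))

theorem kt0_iff (z : ((C5 × (ℤ × ℤ)) × ℕ) × ℕ) : kt0 z = true ↔
    (FF (toBQ z.1.1.1) z.1.1.2.1 z.1.1.2.2).ev ((z.1.2 : ℤ) - sS z.1.1) ((z.2 : ℤ) - sS z.1.1) = 0 ∧
    ∃ w : ℤ, w ≠ 0 ∧ (toBQ z.1.1.1).ev ((z.1.2 : ℤ) - sS z.1.1) ((z.2 : ℤ) - sS z.1.1) = w ^ 2 := by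
  unfold kt0
  rw [Bool.and_eq_true, decide_eq_true_eq, sqp_iff, pFe, pGe, val_pev, val_pev, val_pF]
  rfl

theorem comp_kt0 : Computable kt0 := by
  have hz : Primrec (fun z : ((C5 × (ℤ × ℤ)) × ℕ) × ℕ => z.1.1) := Primrec.fst.comp Primrec.fst
  have hi : Primrec (fun z : ((C5 × (ℤ × ℤ)) × ℕ) × ℕ => (z.1.2 : ℤ)) :=
    prim_natCast.comp (Primrec.snd.comp Primrec.fst)
  have hj : Primrec (fun z : ((C5 × (ℤ × ℤ)) × ℕ) × ℕ => (z.2 : ℤ)) :=
    prim_natCast.comp Primrec.snd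
  have hS : Primrec (fun z : ((C5 × (ℤ × ℤ)) × ℕ) × ℕ => (sS z.1.1 : ℤ)) :=
    prim_natCast.comp (prim_sS.comp hz)
  have hX := prim_int_sub.comp hi hS
  have hZ := prim_int_sub.comp hj hS
  have nil : Primrec (fun _ : ((C5 × (ℤ × ℤ)) × ℕ) × ℕ => ([] : List ℤ)) := Primrec.const []
  have hl := Primrec.list_append.comp (prim_ins.comp hz)
    (Primrec.list_cons.comp hX (Primrec.list_cons.comp hZ nil))
  have h1 := Primrec.eq.decide.comp (prim_val' pFe hl)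
    (Primrec.const (0 : ℤ))
  have h2 := comp_sqp.comp (prim_val' pGe hl).to_comp
  exact Primrec.and.to_comp.comp h1.to_comp h2

attribute [local irreducible] kt0 sS

/-- the test for given `X = i - S` -/
def kt1 (z : (C5 × (ℤ × ℤ)) × ℕ) : Bool := exb (fun j => kt0 (z, j)) (2 * sS z.1 + 1)

theorem comp_kt1 : Computable kt1 := by
  have h1 : Primrec (fun z : (C5 × (ℤ × ℤ)) × ℕ => 2 * sS z.1 + 1) :=
    Primrec.succ.comp (Primrec.nat_mul.comp (Primrec.const 2) (prim_sS.comp Primrec.fst))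
  have h2 : Computable₂ (fun (z : (C5 × (ℤ × ℤ)) × ℕ) (j : ℕ) => kt0 (z, j)) := comp_kt0
  exact comp_exb h1.to_comp h2

attribute [local irreducible] kt1

/-- the class test -/
def ktb (z : C5 × (ℤ × ℤ)) : Bool := exb (fun i => kt1 (z, i)) (2 * sS z + 1)

theorem comp_ktb : Computable ktb := by
  have h1 : Primrec (fun z : C5 × (ℤ × ℤ) => 2 * sS z + 1) :=
    Primrec.succ.comp (Primrec.nat_mul.comp (Primrec.const 2) prim_sS)
  have h2 : Computable₂ (fun (z : C5 × (ℤ × ℤ)) (i : ℕ) => kt1 (z, i)) := comp_kt1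
  exact comp_exb h1.to_comp h2

theorem kt1_def (z : (C5 × (ℤ × ℤ)) × ℕ) :
    kt1 z = exb (fun j => kt0 (z, j)) (2 * sS z.1 + 1) := by
  unfold kt1; rfl

theorem sS_eq (z : C5 × (ℤ × ℤ)) : (sS z : ℤ) = |(FF (toBQ z.1) z.2.1 z.2.2).a| +
    |(FF (toBQ z.1) z.2.1 z.2.2).b| + |(FF (toBQ z.1) z.2.1 z.2.2).c| +
    |(FF (toBQ z.1) z.2.1 z.2.2).d| + |(FF (toBQ z.1) z.2.1 z.2.2).e| := by
  have h := val_pF z []
  rw [List.append_nil] at h
  rw [← h]
  unfold sS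
  simp only [nab_eq]
  push_cast
  rfl

theorem coprime_red (g F : BQ ℤ) {X Z w : ℤ} (hw : w ≠ 0) (e1 : g.ev X Z = w ^ 2)
    (e2 : F.ev X Z = 0) : ∃ X Z w : ℤ, IsCoprime X Z ∧ w ≠ 0 ∧ g.ev X Z = w ^ 2 ∧ F.ev X Z = 0 := by
  have hgcd : 0 < Int.gcd X Z := by
    rw [Int.gcd_pos_iff]
    by_contra hn
    push Not at hn
    apply hw
    have : w ^ 2 = 0 := by
      rw [← e1, hn.1, hn.2]; simp only [BQ.ev]; ring
    exact pow_eq_zero_iff two_ne_zero |>.mp this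
  obtain ⟨X0, Z0, h1, h2, h3⟩ := Int.exists_gcd_one hgcd
  obtain ⟨d, hd⟩ : ∃ d : ℤ, d = (Int.gcd X Z : ℤ) := ⟨_, rfl⟩
  rw [← hd] at h2 h3
  have hd0 : d ≠ 0 := by rw [hd]; exact_mod_cast hgcd.ne'
  have hhom : ∀ f : BQ ℤ, f.ev X Z = d ^ 4 * f.ev X0 Z0 := by
    intro f; rw [h2, h3]; simp only [BQ.ev]; ring
  have h4 : (d ^ 2) ^ 2 ∣ w ^ 2 := ⟨g.ev X0 Z0, by rw [← e1, hhom g]; ring⟩
  obtain ⟨w0, hw0⟩ := (Int.pow_dvd_pow_iff two_ne_zero).mp h4
  have hd4 : d ^ 4 ≠ 0 := pow_ne_zero 4 hd0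
  refine ⟨X0, Z0, w0, Int.isCoprime_iff_gcd_eq_one.mpr h1, ?_, ?_, ?_⟩
  · rintro rfl
    apply hw; rw [hw0]; ring
  · apply mul_left_cancel₀ hd4
    rw [← hhom g, e1, hw0]; ring
  · apply mul_left_cancel₀ hd4
    rw [← hhom F, e2]; ring

theorem ktb_iff0 (g : C5) (r t : ℤ)
    (hne : ¬ ((FF (toBQ g) r t).a = 0 ∧ (FF (toBQ g) r t).b = 0 ∧ (FF (toBQ g) r t).c = 0 ∧
      (FF (toBQ g) r t).d = 0 ∧ (FF (toBQ g) r t).e = 0)) :
    ktb (g, (r, t)) = true ↔ ∃ X Z w : ℤ, w ≠ 0 ∧ (toBQ g).ev X Z = w ^ 2 ∧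
      (FF (toBQ g) r t).ev X Z = 0 := by
  unfold ktb
  rw [exb_iff]
  constructor
  · rintro ⟨i, _, hi⟩
    rw [kt1_def, exb_iff] at hi
    obtain ⟨j, _, hj⟩ := hi
    rw [kt0_iff] at hj
    obtain ⟨h1, w, hw, h2⟩ := hj
    exact ⟨_, _, w, hw, h2, h1⟩
  · rintro ⟨X, Z, w, hw, e1, e2⟩
    obtain ⟨X, Z, w, hc, hw, e1, e2⟩ := coprime_red _ _ hw e1 e2
    have hb := zb hc (by
      rw [← e2]; simp only [BQ.ev]) hne
    have hS := sS_eq (g, (r, t))
    simp only at hS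
    rw [← hS, abs_le, abs_le] at hb
    obtain ⟨⟨b1, b2⟩, b3, b4⟩ := hb
    refine ⟨(X + sS (g, (r, t))).toNat, by omega, ?_⟩
    rw [kt1_def, exb_iff]
    refine ⟨(Z + sS (g, (r, t))).toNat, ?_, ?_⟩
    · show _ < 2 * sS (g, (r, t)) + 1
      omega
    · rw [kt0_iff]
      have k1 : (((X + sS (g, (r, t))).toNat : ℕ) : ℤ) - sS (g, (r, t)) = X := by omega
      have k2 : (((Z + sS (g, (r, t))).toNat : ℕ) : ℤ) - sS (g, (r, t)) = Z := by omega
      simp only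
      rw [k1, k2]
      exact ⟨e2, w, hw, e1⟩

theorem kt_int (g : BQ ℤ) (r t : ℤ) (ht : t ≠ 0) : Kt (toQ g) ((r : ℚ) / (t : ℚ) ^ 2) ↔
    ∃ X Z w : ℤ, w ≠ 0 ∧ g.ev X Z = w ^ 2 ∧ (FF g r t).ev X Z = 0 := by
  have htq : (t : ℚ) ≠ 0 := by exact_mod_cast ht
  constructor
  · rintro ⟨X, Z, w, hw, e1, e2⟩
    obtain ⟨N, hN⟩ : ∃ N : ℤ, N = X.den * Z.den * w.den := ⟨_, rfl⟩
    have hN0 : N ≠ 0 := by
      rw [hN]
      exact_mod_cast mul_ne_zero (mul_ne_zero X.den_nz Z.den_nz) w.den_nz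
    have hNq : (N : ℚ) = X.den * Z.den * w.den := by rw [hN]; push_cast; rfl
    have hX : ((X.num * (Z.den * w.den) : ℤ) : ℚ) = N * X := by
      push_cast; rw [hNq, ← Rat.mul_den_eq_num X]; ring
    have hZ : ((Z.num * (X.den * w.den) : ℤ) : ℚ) = N * Z := by
      push_cast; rw [hNq, ← Rat.mul_den_eq_num Z]; ring
    have hw' : ((w.num * (X.den * Z.den * N) : ℤ) : ℚ) = N ^ 2 * w := by
      push_cast; rw [hNq, ← Rat.mul_den_eq_num w]; ring
    have hNq0 : (N : ℚ) ≠ 0 := by exact_mod_cast hN0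
    have hev : ∀ f : BQ ℤ, ((f.ev (X.num * (Z.den * w.den)) (Z.num * (X.den * w.den)) : ℤ) : ℚ) =
        N ^ 4 * (toQ f).ev X Z := by
      intro f
      rw [← toQ_ev, hX, hZ]; simp only [BQ.ev]; ring
    refine ⟨X.num * (Z.den * w.den), Z.num * (X.den * w.den), w.num * (X.den * Z.den * N), ?_, ?_, ?_⟩
    · intro h0
      have h1 := congrArg (fun n : ℤ => (n : ℚ)) h0
      rw [hw', Int.cast_zero] at h1
      rcases mul_eq_zero.mp h1 with h2 | h2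
      · exact pow_ne_zero 2 hNq0 h2
      · exact hw h2
    · have h1 := hev g
      rw [e1] at h1
      have h2 : ((w.num * (X.den * Z.den * N) : ℤ) : ℚ) ^ 2 = N ^ 4 * w ^ 2 := by
        rw [hw']; ring
      rw [← h2] at h1
      exact_mod_cast h1
    · rw [FF_ev]
      have h1 := hev g
      have h2 := hev g.H
      rw [← toQ_H, e2] at h2
      rw [e1] at h1
      have h3 : ((t ^ 2 * g.H.ev (X.num * (Z.den * w.den)) (Z.num * (X.den * w.den)) -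
        48 * r * g.ev (X.num * (Z.den * w.den)) (Z.num * (X.den * w.den)) : ℤ) : ℚ) = 0 := by
        push_cast at h1 h2 ⊢
        rw [h1, h2]; field_simp; ring
      exact_mod_cast h3
  · rintro ⟨X, Z, w, hw, e1, e2⟩
    refine ⟨X, Z, w, by exact_mod_cast hw, ?_, ?_⟩
    · rw [toQ_ev, e1]; push_cast; rfl
    · rw [toQ_H, toQ_ev]
      rw [FF_ev] at e2
      have h3 : (t : ℚ) ^ 2 * (g.H.ev X Z : ℤ) = 48 * r * (w : ℚ) ^ 2 := by
        rw [e1] at e2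
        have h4 : t ^ 2 * g.H.ev X Z = 48 * r * w ^ 2 := by linear_combination e2
        exact_mod_cast h4
      field_simp
      linear_combination h3

/-- the class test is correct -/
theorem ktb_iff (g : C5) (r t A B : ℤ) (ht : t ≠ 0) (hD : 4 * (A : ℚ) ^ 3 + 27 * (B : ℚ) ^ 2 ≠ 0)
    (hI : (toBQ g).I = -48 * A) (hJ : (toBQ g).J = -1728 * B)
    (hE : ∃ y : ℚ, y ^ 2 = ((r : ℚ) / (t : ℚ) ^ 2) ^ 3 + A * ((r : ℚ) / (t : ℚ) ^ 2) + B) :
    ktb (g, (r, t)) = true ↔ Kt (toQ (toBQ g)) ((r : ℚ) / (t : ℚ) ^ 2) := by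
  have htq : (t : ℚ) ≠ 0 := by exact_mod_cast ht
  have hIq : (toQ (toBQ g)).I = -48 * (A : ℚ) := by rw [toQ_I, hI]; push_cast; rfl
  have hJq : (toQ (toBQ g)).J = -1728 * (B : ℚ) := by rw [toQ_J, hJ]; push_cast; rfl
  by_cases hF : ((FF (toBQ g) r t).a = 0 ∧ (FF (toBQ g) r t).b = 0 ∧ (FF (toBQ g) r t).c = 0 ∧
      (FF (toBQ g) r t).d = 0 ∧ (FF (toBQ g) r t).e = 0)
  · have hnot : ¬ Kt (toQ (toBQ g)) ((r : ℚ) / (t : ℚ) ^ 2) := by
      intro hk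
      obtain ⟨y, hy⟩ := hE
      apply H_ne hD hIq hJq hy hk
      obtain ⟨f0, f1, f2, f3, f4⟩ := hF
      have f0q := congrArg (fun n : ℤ => (n : ℚ)) f0
      have f1q := congrArg (fun n : ℤ => (n : ℚ)) f1
      have f2q := congrArg (fun n : ℤ => (n : ℚ)) f2
      have f3q := congrArg (fun n : ℤ => (n : ℚ)) f3
      have f4q := congrArg (fun n : ℤ => (n : ℚ)) f4
      simp only [FF, BQ.H] at f0q f1q f2q f3q f4q
      push_cast at f0q f1q f2q f3q f4q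
      ext
      · simp only [sm, BQ.H, toQ_a, toQ_b, toQ_c, toQ_d, toQ_e]; field_simp
        linear_combination f0q
      · simp only [sm, BQ.H, toQ_a, toQ_b, toQ_c, toQ_d, toQ_e]; field_simp
        linear_combination f1q
      · simp only [sm, BQ.H, toQ_a, toQ_b, toQ_c, toQ_d, toQ_e]; field_simp
        linear_combination f2q
      · simp only [sm, BQ.H, toQ_a, toQ_b, toQ_c, toQ_d, toQ_e]; field_simp
        linear_combination f3q
      · simp only [sm, BQ.H, toQ_a, toQ_b, toQ_c, toQ_d, toQ_e]; field_simp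
        linear_combination f4q
    refine iff_of_false ?_ hnot
    intro hk
    apply hnot
    rw [kt_int _ _ _ ht]
    unfold ktb at hk
    rw [exb_iff] at hk
    obtain ⟨i, _, hi⟩ := hk
    rw [kt1_def, exb_iff] at hi
    obtain ⟨j, _, hj⟩ := hi
    rw [kt0_iff] at hj
    obtain ⟨h1, w, hw, h2⟩ := hj
    exact ⟨_, _, w, hw, h2, h1⟩
  · rw [ktb_iff0 g r t hF, kt_int _ _ _ ht]

end Pool.Agent.H79.QR
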