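import Mathlib
import Pool.Agent.H79.QR.Ktb

/-!
# Enumeration of the rational points and of their classes
-/

set_option autoImplicit false

namespace Pool.Agent.H79.QR

open Pool.Agent.Helper566.FD.J7 Pool.Agent.TH352.RC BQ WeierstrassCurve

/-! ### an abstract count of classes -/

theorem count_classes {T : Type} (on : ℕ → Bool) (eq : ℕ → ℕ → Bool) (f : ℕ → T)
    (h : ∀ i j, on i = true → on j = true → (eq i j = true ↔ f i = f j)) (n : ℕ) :
    cnt (fun j => on j && !exb (fun i => on i && eq i j) j) n =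
      (f '' {k | k < n ∧ on k = true}).ncard := by
  classical
  induction n with
  | zero =>
    have : {k | k < 0 ∧ on k = true} = ∅ := by ext k; simp
    rw [this, Set.image_empty, Set.ncard_empty]; rfl
  | succ n ih =>
    have hfin : (f '' {k | k < n ∧ on k = true}).Finite :=
      ((Set.finite_lt_nat n).subset (fun k hk => hk.1)).image f
    have hstep : cnt (fun j => on j && !exb (fun i => on i && eq i j) j) (n + 1) =
        cnt (fun j => on j && !exb (fun i => on i && eq i j) j) n +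
          cond (on n && !exb (fun i => on i && eq i n) n) 1 0 := rfl
    rw [hstep, ih]
    by_cases hn : on n = true
    · have hset : {k | k < n + 1 ∧ on k = true} = insert n {k | k < n ∧ on k = true} := by
        ext k
        simp only [Set.mem_ofPred_eq, Set.mem_insert_iff]
        constructor
        · rintro ⟨h1, h2⟩
          rcases Nat.lt_succ_iff_lt_or_eq.mp h1 with h3 | h3
          · right; exact ⟨h3, h2⟩
          · left; exact h3
        · rintro (rfl | ⟨h1, h2⟩)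
          · exact ⟨Nat.lt_succ_self _, hn⟩
          · exact ⟨by omega, h2⟩
      rw [hset, Set.image_insert_eq]
      by_cases he : exb (fun i => on i && eq i n) n = true
      · rw [hn, he]
        simp only [Bool.not_true, Bool.and_false, cond_false, add_zero]
        rw [Set.insert_eq_of_mem]
        rw [exb_iff] at he
        obtain ⟨i, hi, h2⟩ := he
        rw [Bool.and_eq_true] at h2
        exact ⟨i, ⟨hi, h2.1⟩, (h i n h2.1 hn).mp h2.2⟩
      · have he' : exb (fun i => on i && eq i n) n = false := by simpa using he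
        rw [hn, he']
        simp only [Bool.not_false, Bool.and_true, cond_true]
        rw [Set.ncard_insert_of_notMem _ hfin]
        rintro ⟨i, ⟨hi, h1⟩, h2⟩
        apply he
        rw [exb_iff]
        exact ⟨i, hi, by rw [Bool.and_eq_true]; exact ⟨h1, (h i n h1 hn).mpr h2⟩⟩
    · have hset : {k | k < n + 1 ∧ on k = true} = {k | k < n ∧ on k = true} := by
        ext k
        simp only [Set.mem_ofPred_eq]
        constructor
        · rintro ⟨h1, h2⟩
          rcases Nat.lt_succ_iff_lt_or_eq.mp h1 with h3 | h3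
          · exact ⟨h3, h2⟩
          · subst h3; exact absurd h2 hn
        · rintro ⟨h1, h2⟩
          exact ⟨by omega, h2⟩
      have hn' : on n = false := by simpa using hn
      rw [hset, hn']
      simp

/-! ### the points -/

/-- the numerator of the abscissa -/
def rr (k : ℕ) : ℤ := zz k.unpair.1
/-- the numerator of the ordinate -/
def ss (k : ℕ) : ℤ := zz k.unpair.2.unpair.1
/-- the denominator -/
def tt (k : ℕ) : ℤ := (k.unpair.2.unpair.2 : ℤ) + 1

theorem prim_rr : Primrec rr := prim_zz.comp (Primrec.fst.comp Primrec.unpair)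
theorem prim_ss : Primrec ss := prim_zz.comp (Primrec.fst.comp (Primrec.unpair.comp
  (Primrec.snd.comp Primrec.unpair)))
theorem prim_tt : Primrec tt := by
  have h : Primrec (fun k : ℕ => k.unpair.2.unpair.2) :=
    Primrec.snd.comp (Primrec.unpair.comp (Primrec.snd.comp Primrec.unpair))
  exact prim_int_add.comp (prim_natCast.comp h) (Primrec.const 1)

theorem tt_pos (k : ℕ) : 1 ≤ tt k := by unfold tt; omega
theorem tt_ne (k : ℕ) : tt k ≠ 0 := by have := tt_pos k; omega
theorem ttq (k : ℕ) : (tt k : ℚ) ≠ 0 := by exact_mod_cast tt_ne k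

theorem code_surj (r s t : ℤ) (ht : 1 ≤ t) : ∃ k, rr k = r ∧ ss k = s ∧ tt k = t := by
  obtain ⟨i, hi⟩ := zz_surj r
  obtain ⟨j, hj⟩ := zz_surj s
  refine ⟨Nat.pair i (Nat.pair j (t - 1).toNat), ?_, ?_, ?_⟩
  · simp [rr, hi]
  · simp [ss, hj]
  · simp only [tt, Nat.unpair_pair]; omega

def pOn : PE := ps (PE.v 3 * PE.v 3) (PE.v 2 * PE.v 2 * PE.v 2 +
  PE.v 0 * PE.v 2 * (PE.v 4 * PE.v 4 * PE.v 4 * PE.v 4) +
  PE.v 1 * (PE.v 4 * PE.v 4 * PE.v 4 * PE.v 4 * PE.v 4 * PE.v 4))

/-- the code `k` belongs to a point -/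
def on (q : ℤ × ℤ) (k : ℕ) : Bool := decide (pOn.val [q.1, q.2, rr k, ss k, tt k] = 0)

theorem on_iff0 (q : ℤ × ℤ) (k : ℕ) : on q k = true ↔
    ss k ^ 2 = rr k ^ 3 + q.1 * rr k * tt k ^ 4 + q.2 * tt k ^ 6 := by
  unfold on
  rw [decide_eq_true_eq, pOn, val_ps, sub_eq_zero]
  simp only [val_add, val_mul, PE.val, List.getD_cons_zero, List.getD_cons_succ]
  constructor
  · intro h; linear_combination h
  · intro h; linear_combination h

theorem prim_on : Primrec (fun z : (ℤ × ℤ) × ℕ => on z.1 z.2) := by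
  have a : Primrec (fun z : (ℤ × ℤ) × ℕ => z.1.1) := Primrec.fst.comp Primrec.fst
  have b : Primrec (fun z : (ℤ × ℤ) × ℕ => z.1.2) := Primrec.snd.comp Primrec.fst
  have r : Primrec (fun z : (ℤ × ℤ) × ℕ => rr z.2) := prim_rr.comp Primrec.snd
  have s : Primrec (fun z : (ℤ × ℤ) × ℕ => ss z.2) := prim_ss.comp Primrec.snd
  have t : Primrec (fun z : (ℤ × ℤ) × ℕ => tt z.2) := prim_tt.comp Primrec.snd
  have nil : Primrec (fun _ : (ℤ × ℤ) × ℕ => ([] : List ℤ)) := Primrec.const []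
  have hl := Primrec.list_cons.comp a (Primrec.list_cons.comp b (Primrec.list_cons.comp r
    (Primrec.list_cons.comp s (Primrec.list_cons.comp t nil))))
  exact Primrec.eq.decide.comp (prim_val' pOn hl) (Primrec.const (0 : ℤ))

/-- the abscissa of the point with the code `k` -/
def xc (k : ℕ) : ℚ := (rr k : ℚ) / (tt k : ℚ) ^ 2
/-- the ordinate of the point with the code `k` -/
def yc (k : ℕ) : ℚ := (ss k : ℚ) / (tt k : ℚ) ^ 3

theorem on_iff (q : ℤ × ℤ) (k : ℕ) : on q k = true ↔ yc k ^ 2 = xc k ^ 3 + q.1 * xc k + q.2 := by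
  rw [on_iff0]
  have ht := ttq k
  unfold xc yc
  constructor
  · intro h
    have h1 : (ss k : ℚ) ^ 2 = rr k ^ 3 + q.1 * rr k * tt k ^ 4 + q.2 * tt k ^ 6 := by
      exact_mod_cast h
    field_simp
    linear_combination h1
  · intro h
    have h1 : (ss k : ℚ) ^ 2 = rr k ^ 3 + q.1 * rr k * tt k ^ 4 + q.2 * tt k ^ 6 := by
      field_simp at h
      linear_combination h
    exact_mod_cast h1

theorem code_of {A B : ℤ} {x y : ℚ} (h : y ^ 2 = x ^ 3 + A * x + B) :
    ∃ k, on (A, B) k = true ∧ xc k = x ∧ yc k = y := by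
  obtain ⟨r, s, t, ht, _, hx, hy⟩ := denoms h
  obtain ⟨k, h1, h2, h3⟩ := code_surj r s t ht
  refine ⟨k, ?_, ?_, ?_⟩
  · rw [on_iff]
    unfold xc yc
    rw [h1, h2, h3, ← hx, ← hy]
    exact h
  · unfold xc; rw [h1, h3, ← hx]
  · unfold yc; rw [h2, h3, ← hy]

/-! ### equality of classes -/

/-- the quartic of the point `i` (scaled) together with the abscissa of the point `j` -/
def qd (z : ((ℤ × ℤ) × ℕ) × ℕ) : C5 × (ℤ × ℤ) :=
  ((1, 0, -6 * rr z.1.2, 8 * ss z.1.2,
    -(4 * z.1.1.1 * (tt z.1.2 * tt z.1.2 * tt z.1.2 * tt z.1.2) + 3 * rr z.1.2 * rr z.1.2)),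
    (rr z.2 * (tt z.1.2 * tt z.1.2), tt z.2))

theorem prim_qd : Primrec qd := by
  have r : Primrec (fun z : ((ℤ × ℤ) × ℕ) × ℕ => rr z.1.2) :=
    prim_rr.comp (Primrec.snd.comp Primrec.fst)
  have s : Primrec (fun z : ((ℤ × ℤ) × ℕ) × ℕ => ss z.1.2) :=
    prim_ss.comp (Primrec.snd.comp Primrec.fst)
  have t : Primrec (fun z : ((ℤ × ℤ) × ℕ) × ℕ => tt z.1.2) :=
    prim_tt.comp (Primrec.snd.comp Primrec.fst)
  have r' : Primrec (fun z : ((ℤ × ℤ) × ℕ) × ℕ => rr z.2) := prim_rr.comp Primrec.snd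
  have t' : Primrec (fun z : ((ℤ × ℤ) × ℕ) × ℕ => tt z.2) := prim_tt.comp Primrec.snd
  have a : Primrec (fun z : ((ℤ × ℤ) × ℕ) × ℕ => z.1.1.1) :=
    Primrec.fst.comp (Primrec.fst.comp Primrec.fst)
  have c : ∀ n : ℤ, Primrec (fun _ : ((ℤ × ℤ) × ℕ) × ℕ => n) := fun n => Primrec.const n
  have t2 := prim_int_mul.comp t t
  have t4 := prim_int_mul.comp (prim_int_mul.comp t2 t) t
  have e := prim_int_neg.comp (prim_int_add.comp (prim_int_mul.comp (prim_int_mul.comp (c 4) a) t4)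
    (prim_int_mul.comp (prim_int_mul.comp (c 3) r) r))
  exact Primrec.pair (Primrec.pair (c 1) (Primrec.pair (c 0) (Primrec.pair
    (prim_int_mul.comp (c (-6)) r) (Primrec.pair (prim_int_mul.comp (c 8) s) e))))
    (Primrec.pair (prim_int_mul.comp r' t2) t')

attribute [local irreducible] ktb qd

/-- the test for the congruence of the points `i` and `j` -/
def eqc (z : ((ℤ × ℤ) × ℕ) × ℕ) : Bool := ktb (qd z)

theorem comp_eqc : Computable eqc := comp_ktb.comp prim_qd.to_comp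

/-- scaling -/
theorem gP_scale (A x y t : ℚ) (ht : t ≠ 0) :
    (gP (A * t ^ 4) (x * t ^ 2) (y * t ^ 3)).act t 0 0 1 = sm (t ^ 4) (gP A x y) := by
  ext <;> simp only [gP, act, sm] <;> ring

theorem kt_scale {A x y t x' : ℚ} (ht : t ≠ 0) :
    Kt (gP (A * t ^ 4) (x * t ^ 2) (y * t ^ 3)) (x' * t ^ 2) ↔ Kt (gP A x y) x' := by
  have hs := gP_scale A x y t ht
  have hH := H_act (gP (A * t ^ 4) (x * t ^ 2) (y * t ^ 3)) t 0 0 1
  rw [hs, H_sm] at hH
  constructor
  · rintro ⟨X, Z, w, hw, e1, e2⟩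
    refine ⟨X / t, Z, w / t ^ 2, div_ne_zero hw (pow_ne_zero 2 ht), ?_, ?_⟩
    · have h1 := congrArg (fun f => BQ.ev f (X / t) Z) hs
      simp only [ev_sm, ev_act] at h1
      have h2 : t * (X / t) + 0 * Z = X := by field_simp; ring
      have h3 : 0 * (X / t) + 1 * Z = Z := by ring
      rw [h2, h3, e1] at h1
      field_simp
      linear_combination -h1
    · have h1 := congrArg (fun f => BQ.ev f (X / t) Z) hH
      simp only [ev_sm, ev_act] at h1
      have h2 : t * (X / t) + 0 * Z = X := by field_simp; ring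
      have h3 : 0 * (X / t) + 1 * Z = Z := by ring
      rw [h2, h3, e2] at h1
      have ht4 : t ^ 4 ≠ 0 := pow_ne_zero 4 ht
      field_simp
      apply mul_left_cancel₀ ht4
      linear_combination h1
  · rintro ⟨X, Z, w, hw, e1, e2⟩
    refine ⟨t * X, Z, t ^ 2 * w, mul_ne_zero (pow_ne_zero 2 ht) hw, ?_, ?_⟩
    · have h1 := congrArg (fun f => BQ.ev f X Z) hs
      simp only [ev_sm, ev_act] at h1
      have h2 : t * X + 0 * Z = t * X := by ring
      have h3 : 0 * X + 1 * Z = Z := by ring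
      rw [h2, h3, e1] at h1
      rw [h1]; ring
    · have h1 := congrArg (fun f => BQ.ev f X Z) hH
      simp only [ev_sm, ev_act] at h1
      have h2 : t * X + 0 * Z = t * X := by ring
      have h3 : 0 * X + 1 * Z = Z := by ring
      rw [h2, h3, e2] at h1
      have ht2 : t ^ 2 ≠ 0 := pow_ne_zero 2 ht
      apply mul_left_cancel₀ ht2
      linear_combination -h1

theorem eqc_iff {A B : ℤ} (hD : 4 * (A : ℚ) ^ 3 + 27 * (B : ℚ) ^ 2 ≠ 0) {i j : ℕ}
    (hi : on (A, B) i = true) (hj : on (A, B) j = true) :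
    eqc (((A, B), i), j) = true ↔ Kt (gP (A : ℚ) (xc i) (yc i)) (xc j) := by
  have ht := ttq i
  have ht' := ttq j
  obtain ⟨g, hg⟩ : ∃ g : C5, g = (qd (((A, B), i), j)).1 := ⟨_, rfl⟩
  have hqd : qd (((A, B), i), j) = (g, (rr j * (tt i * tt i), tt j)) := by
    rw [hg]; unfold qd; rfl
  have hgv : toBQ g = ⟨1, 0, -6 * rr i, 8 * ss i,
      -(4 * A * (tt i * tt i * tt i * tt i) + 3 * rr i * rr i)⟩ := by
    rw [hg]; unfold qd toBQ; rfl
  have hi0 := (on_iff0 _ _).mp hi
  simp only at hi0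
  have hI : (toBQ g).I = -48 * (A * tt i ^ 4) := by
    rw [hgv]; simp only [BQ.I]; ring
  have hJ : (toBQ g).J = -1728 * (B * tt i ^ 6) := by
    rw [hgv]; simp only [BQ.J]; linear_combination (-1728 : ℤ) * hi0
  have hD' : 4 * ((A * tt i ^ 4 : ℤ) : ℚ) ^ 3 + 27 * ((B * tt i ^ 6 : ℤ) : ℚ) ^ 2 ≠ 0 := by
    push_cast
    have : 4 * ((A : ℚ) * tt i ^ 4) ^ 3 + 27 * ((B : ℚ) * tt i ^ 6) ^ 2 =
      tt i ^ 12 * (4 * (A : ℚ) ^ 3 + 27 * (B : ℚ) ^ 2) := by ring
    rw [this]
    exact mul_ne_zero (pow_ne_zero 12 ht) hD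
  have hxj : ((rr j * (tt i * tt i) : ℤ) : ℚ) / (tt j : ℚ) ^ 2 = xc j * (tt i : ℚ) ^ 2 := by
    unfold xc; push_cast; field_simp
  have hyj := (on_iff _ _).mp hj
  simp only at hyj
  have h1 := ktb_iff g (rr j * (tt i * tt i)) (tt j) (A * tt i ^ 4) (B * tt i ^ 6) (tt_ne j) hD' hI hJ
    ⟨yc j * (tt i : ℚ) ^ 3, by rw [hxj]; push_cast; linear_combination (tt i : ℚ) ^ 6 * hyj⟩
  have hgq : toQ (toBQ g) = gP ((A : ℚ) * tt i ^ 4) (xc i * (tt i : ℚ) ^ 2) (yc i * (tt i : ℚ) ^ 3) := by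
    rw [hgv]
    have e1 : xc i * (tt i : ℚ) ^ 2 = rr i := by unfold xc; field_simp
    have e2 : yc i * (tt i : ℚ) ^ 3 = ss i := by unfold yc; field_simp
    rw [e1, e2]
    ext
    · simp [toQ, BQ.map, gP]
    · simp [toQ, BQ.map, gP]
    · simp [toQ, BQ.map, gP]
    · simp [toQ, BQ.map, gP]
    · simp [toQ, BQ.map, gP]; ring
  unfold eqc
  rw [hqd, h1, hxj, hgq, kt_scale ht]

end Pool.Agent.H79.QR
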