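import Mathlib
import Pool.Agent.H79.QR.Enum

/-!
# The number of classes and the rank
-/

set_option autoImplicit false

namespace Pool.Agent.H79.QR

open Pool.Agent.Helper566.FD.J7 Pool.Agent.TH352.RC BQ WeierstrassCurve

/-- the group modulo doubles -/
abbrev QG (A B : ℤ) : Type :=
  Pts (A : ℚ) (B : ℚ) ⧸ (zsmulAddGroupHom (α := Pts (A : ℚ) (B : ℚ)) 2).range

theorem mk_eq_iff {A B : ℤ} (P P' : Pts (A : ℚ) (B : ℚ)) :
    ((QuotientAddGroup.mk P : QG A B) = QuotientAddGroup.mk P') ↔ ∃ Q, P' = P + (Q + Q) := by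
  rw [QuotientAddGroup.eq]
  constructor
  · rintro ⟨Q, hQ⟩
    refine ⟨Q, ?_⟩
    have h2 : (zsmulAddGroupHom (α := Pts (A : ℚ) (B : ℚ)) 2) Q = Q + Q := two_zsmul Q
    rw [h2] at hQ
    rw [hQ]; abel
  · rintro ⟨Q, hQ⟩
    refine ⟨Q, ?_⟩
    have h2 : (zsmulAddGroupHom (α := Pts (A : ℚ) (B : ℚ)) 2) Q = Q + Q := two_zsmul Q
    rw [h2, hQ]; abel

open Classical in
/-- the point with the code `k` -/
noncomputable def pt (A B : ℤ) (k : ℕ) : Pts (A : ℚ) (B : ℚ) :=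
  if h : 4 * (A : ℚ) ^ 3 + 27 * (B : ℚ) ^ 2 ≠ 0 ∧ on (A, B) k = true then
    Affine.Point.some (xc k) (yc k) (nons h.1 ((on_iff _ _).mp h.2)) else 0

theorem pt_eq {A B : ℤ} (hD : 4 * (A : ℚ) ^ 3 + 27 * (B : ℚ) ^ 2 ≠ 0) {k : ℕ}
    (hk : on (A, B) k = true) :
    pt A B k = Affine.Point.some (xc k) (yc k) (nons hD ((on_iff _ _).mp hk)) := by
  unfold pt
  rw [dif_pos ⟨hD, hk⟩]

/-- its class -/
noncomputable def cl (A B : ℤ) (k : ℕ) : QG A B := QuotientAddGroup.mk (pt A B k)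

theorem eqc_cl {A B : ℤ} (hD : 4 * (A : ℚ) ^ 3 + 27 * (B : ℚ) ^ 2 ≠ 0) {i j : ℕ}
    (hi : on (A, B) i = true) (hj : on (A, B) j = true) :
    eqc (((A, B), i), j) = true ↔ cl A B i = cl A B j := by
  rw [eqc_iff hD hi hj]
  unfold cl
  rw [mk_eq_iff, pt_eq hD hi, pt_eq hD hj]
  constructor
  · intro h
    exact coset_of_kt hD _ _ h
  · rintro ⟨Q, hQ⟩
    exact kt_of_coset hD _ _ hQ

/-- the number of classes of the points with codes below `n` -/
def fc (q : ℤ × ℤ) (n : ℕ) : ℕ :=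
  cnt (fun j => on q j && !exb (fun i => on q i && eqc ((q, i), j)) j) n

theorem fc_eq {A B : ℤ} (hD : 4 * (A : ℚ) ^ 3 + 27 * (B : ℚ) ^ 2 ≠ 0) (n : ℕ) :
    fc (A, B) n = (cl A B '' {k | k < n ∧ on (A, B) k = true}).ncard :=
  count_classes (on (A, B)) (fun i j => eqc (((A, B), i), j)) (cl A B)
    (fun _ _ hi hj => eqc_cl hD hi hj) n

attribute [local irreducible] on eqc

theorem comp_fc : Computable₂ fc := by
  have h1 : Computable₂ (fun (z : ((ℤ × ℤ) × ℕ) × ℕ) (i : ℕ) =>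
      on z.1.1 i && eqc ((z.1.1, i), z.2)) := by
    have a : Primrec (fun z : (((ℤ × ℤ) × ℕ) × ℕ) × ℕ => z.1.1.1) :=
      Primrec.fst.comp (Primrec.fst.comp Primrec.fst)
    have i : Primrec (fun z : (((ℤ × ℤ) × ℕ) × ℕ) × ℕ => z.2) := Primrec.snd
    have j : Primrec (fun z : (((ℤ × ℤ) × ℕ) × ℕ) × ℕ => z.1.2) := Primrec.snd.comp Primrec.fst
    have o := prim_on.comp (Primrec.pair a i)
    have e := comp_eqc.comp (Primrec.pair (Primrec.pair a i) j).to_comp
    exact Primrec.and.to_comp.comp o.to_comp e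
  have h2 : Computable (fun z : ((ℤ × ℤ) × ℕ) × ℕ =>
      exb (fun i => on z.1.1 i && eqc ((z.1.1, i), z.2)) z.2) := comp_exb Computable.snd h1
  have h3 : Computable₂ (fun (z : (ℤ × ℤ) × ℕ) (j : ℕ) =>
      on z.1 j && !exb (fun i => on z.1 i && eqc ((z.1, i), j)) j) := by
    have a : Primrec (fun z : ((ℤ × ℤ) × ℕ) × ℕ => z.1.1) := Primrec.fst.comp Primrec.fst
    have o := prim_on.comp (Primrec.pair a (Primrec.snd (α := (ℤ × ℤ) × ℕ) (β := ℕ)))
    exact Primrec.and.to_comp.comp o.to_comp (Primrec.not.to_comp.comp h2)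
  exact comp_cnt Computable.snd h3

/-! ### the 2-torsion -/

def pR : PE := PE.v 2 * PE.v 2 * PE.v 2 + PE.v 0 * PE.v 2 + PE.v 1

/-- the bound for the roots -/
def rb (q : ℤ × ℤ) : ℕ := nab q.1 + nab q.2

/-- the root test for `k - rb` -/
def rt (q : ℤ × ℤ) (k : ℕ) : Bool := decide (pR.val [q.1, q.2, (k : ℤ) - rb q] = 0)

theorem rt_iff (q : ℤ × ℤ) (k : ℕ) : rt q k = true ↔
    ((k : ℤ) - rb q) ^ 3 + q.1 * ((k : ℤ) - rb q) + q.2 = 0 := by
  unfold rt
  rw [decide_eq_true_eq, pR, val_add, val_add]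
  simp only [val_mul, PE.val, List.getD_cons_zero, List.getD_cons_succ]
  constructor
  · intro h; linear_combination h
  · intro h; linear_combination h

/-- the number of the 2-torsion points -/
def tau (q : ℤ × ℤ) : ℕ := cnt (rt q) (2 * rb q + 1) + 1

theorem prim_rb : Primrec rb :=
  Primrec.nat_add.comp (prim_nab.comp Primrec.fst) (prim_nab.comp Primrec.snd)

theorem comp_tau : Computable tau := by
  have a : Primrec (fun z : (ℤ × ℤ) × ℕ => z.1.1) := Primrec.fst.comp Primrec.fst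
  have b : Primrec (fun z : (ℤ × ℤ) × ℕ => z.1.2) := Primrec.snd.comp Primrec.fst
  have k : Primrec (fun z : (ℤ × ℤ) × ℕ => (z.2 : ℤ)) := prim_natCast.comp Primrec.snd
  have r : Primrec (fun z : (ℤ × ℤ) × ℕ => (rb z.1 : ℤ)) :=
    prim_natCast.comp (prim_rb.comp Primrec.fst)
  have n := prim_int_sub.comp k r
  have nil : Primrec (fun _ : (ℤ × ℤ) × ℕ => ([] : List ℤ)) := Primrec.const []
  have hl := Primrec.list_cons.comp a (Primrec.list_cons.comp b (Primrec.list_cons.comp n nil))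
  have h1 : Computable₂ rt :=
    (Primrec.eq.decide.comp (prim_val' pR hl) (Primrec.const (0 : ℤ))).to_comp
  have h2 : Primrec (fun q : ℤ × ℤ => 2 * rb q + 1) :=
    Primrec.succ.comp (Primrec.nat_mul.comp (Primrec.const 2) prim_rb)
  exact Computable.succ.comp (comp_cnt h2.to_comp h1)

theorem root_bd {A B n : ℤ} (h : n ^ 3 + A * n + B = 0) : |n| ≤ |A| + |B| := by
  by_contra hn
  push Not at hn
  have a0 := abs_nonneg A
  have b0 := abs_nonneg B
  have h1 : 1 ≤ |n| := by linarith [Int.add_one_le_iff.mpr hn]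
  have h2 : |n| ^ 3 ≤ |A| * |n| + |B| := by
    have : n ^ 3 = -(A * n + B) := by linear_combination h
    rw [← abs_pow, this, abs_neg, ← abs_mul]
    exact abs_add_le _ _
  have h3 : |A| * |n| + |B| ≤ (|A| + |B|) * |n| := by nlinarith
  have h4 : (|A| + |B|) * |n| < |n| * |n| := mul_lt_mul_of_pos_right hn (by linarith)
  have h5 : |n| * |n| ≤ |n| ^ 3 := by nlinarith [sq_nonneg |n|]
  linarith

theorem root_int {A B : ℤ} {x : ℚ} (h : x ^ 3 + A * x + B = 0) : ∃ n : ℤ, x = n ∧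
    n ^ 3 + A * n + B = 0 := by
  obtain ⟨r, s, t, ht, hc, hx, hy⟩ := denoms (y := 0) (x := x) (A := A) (B := B)
    (by rw [h]; norm_num)
  have htq : (t : ℚ) ≠ 0 := by
    have : t ≠ 0 := by omega
    exact_mod_cast this
  have h1 : r ^ 3 + A * r * t ^ 4 + B * t ^ 6 = 0 := by
    have : (r : ℚ) ^ 3 + A * r * t ^ 4 + B * t ^ 6 = 0 := by
      rw [hx] at h
      field_simp at h
      linear_combination h
    exact_mod_cast this
  have h2 : t ∣ r ^ 3 := ⟨-(A * r * t ^ 3 + B * t ^ 5), by linear_combination h1⟩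
  have h3 : IsUnit t := by
    have h4 : IsCoprime t (r ^ 3) := hc.symm.pow_right
    exact h4.isUnit_of_dvd' dvd_rfl h2
  have h4 : t = 1 := by
    rcases Int.isUnit_iff.mp h3 with h5 | h5
    · exact h5
    · omega
  refine ⟨r, ?_, ?_⟩
  · rw [hx, h4]; norm_num
  · rw [h4] at h1; linear_combination h1

open Classical in
/-- the torsion point of the root `k - rb` -/
noncomputable def tp (A B : ℤ) (k : ℕ) : Pts (A : ℚ) (B : ℚ) :=
  if h : 4 * (A : ℚ) ^ 3 + 27 * (B : ℚ) ^ 2 ≠ 0 ∧ rt (A, B) k = true then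
    Affine.Point.some (((k : ℤ) - rb (A, B) : ℤ) : ℚ) 0 (nons h.1 (by
      have h1 := (rt_iff _ _).mp h.2
      have h2 : (((k : ℤ) - rb (A, B) : ℤ) : ℚ) ^ 3 + A * (((k : ℤ) - rb (A, B) : ℤ) : ℚ) + B = 0 := by
        exact_mod_cast h1
      rw [h2]; norm_num)) else 0

theorem ker_card {A B : ℤ} (hD : 4 * (A : ℚ) ^ 3 + 27 * (B : ℚ) ^ 2 ≠ 0) :
    Nat.card (zsmulAddGroupHom (α := Pts (A : ℚ) (B : ℚ)) 2).ker = tau (A, B) := by
  classical
  obtain ⟨F, hF⟩ : ∃ F : Finset ℕ, F = (Finset.range (2 * rb (A, B) + 1)).filter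
    (fun k => rt (A, B) k = true) := ⟨_, rfl⟩
  have hset : (((zsmulAddGroupHom (α := Pts (A : ℚ) (B : ℚ)) 2).ker :
      AddSubgroup (Pts (A : ℚ) (B : ℚ))) : Set (Pts (A : ℚ) (B : ℚ))) =
      insert 0 (tp A B '' (F : Set ℕ)) := by
    ext T
    rw [SetLike.mem_coe, AddMonoidHom.mem_ker]
    have h2 : (zsmulAddGroupHom (α := Pts (A : ℚ) (B : ℚ)) 2) T = T + T := two_zsmul T
    rw [h2]
    simp only [Set.mem_insert_iff, Set.mem_image, Finset.mem_coe]
    constructor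
    · intro hT
      rcases T with _ | ⟨x, y, h⟩
      · left; rfl
      · right
        have hy := two_tors h hT
        subst hy
        have hE := eqn.mp h.1
        obtain ⟨n, hn, hn2⟩ := root_int (x := x) (A := A) (B := B) (by linear_combination -hE)
        have hb := root_bd hn2
        have hb' : |n| ≤ (rb (A, B) : ℤ) := by
          unfold rb; rw [nab_eq, nab_eq]; push_cast; exact hb
        rw [abs_le] at hb'
        obtain ⟨hb1, hb2⟩ := hb'
        have hk : (((n + rb (A, B)).toNat : ℕ) : ℤ) - rb (A, B) = n := by omega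
        have hrt : rt (A, B) (n + rb (A, B)).toNat = true := by
          rw [rt_iff, hk]; exact hn2
        refine ⟨(n + rb (A, B)).toNat, ?_, ?_⟩
        · rw [hF, Finset.mem_filter, Finset.mem_range]
          exact ⟨by omega, hrt⟩
        · unfold tp
          rw [dif_pos ⟨hD, hrt⟩]
          simp only [hk, hn]
    · rintro (rfl | ⟨k, hk, rfl⟩)
      · exact add_zero _
      · rw [hF, Finset.mem_filter] at hk
        unfold tp
        rw [dif_pos ⟨hD, hk.2⟩]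
        exact two_tors' _
  have h5 : Nat.card (zsmulAddGroupHom (α := Pts (A : ℚ) (B : ℚ)) 2).ker =
      (((zsmulAddGroupHom (α := Pts (A : ℚ) (B : ℚ)) 2).ker :
      AddSubgroup (Pts (A : ℚ) (B : ℚ))) : Set (Pts (A : ℚ) (B : ℚ))).ncard := rfl
  rw [h5, hset, Set.ncard_insert_of_notMem, Set.ncard_image_of_injOn, Set.ncard_coe_finset]
  · unfold tau; rw [cnt_eq, hF]
  · intro i hi j hj hij
    rw [Finset.mem_coe, hF, Finset.mem_filter] at hi hj
    unfold tp at hij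
    rw [dif_pos ⟨hD, hi.2⟩, dif_pos ⟨hD, hj.2⟩] at hij
    simp only [Affine.Point.some.injEq] at hij
    have h1 : ((i : ℤ) - rb (A, B)) = ((j : ℤ) - rb (A, B)) := by exact_mod_cast hij.1
    omega
  · rintro ⟨k, hk, h0⟩
    rw [Finset.mem_coe, hF, Finset.mem_filter] at hk
    unfold tp at h0
    rw [dif_pos ⟨hD, hk.2⟩] at h0
    exact Affine.Point.some_ne_zero _ h0

theorem fg {A B : ℤ} (hD : 4 * (A : ℚ) ^ 3 + 27 * (B : ℚ) ^ 2 ≠ 0) :
    Module.Finite ℤ (Pts (A : ℚ) (B : ℚ)) :=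
  Module.Finite.iff_addGroup_fg.mpr (Pool.Agent.E8helper89.PC.fg_short ℚ (A : ℚ) (B : ℚ) hD)

/-- the number of the classes modulo doubles -/
theorem card_QG {A B : ℤ} (hD : 4 * (A : ℚ) ^ 3 + 27 * (B : ℚ) ^ 2 ≠ 0) :
    Nat.card (QG A B) = 2 ^ (Module.finrank ℤ (Pts (A : ℚ) (B : ℚ))) * tau (A, B) := by
  have := fg hD
  rw [Pool.Agent.TeamU.card_quot_two, ker_card hD]

theorem QG_fin {A B : ℤ} (hD : 4 * (A : ℚ) ^ 3 + 27 * (B : ℚ) ^ 2 ≠ 0) : Finite (QG A B) := by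
  apply Nat.finite_of_card_ne_zero
  rw [card_QG hD]
  unfold tau
  positivity

theorem inf_iff_rank {A B : ℤ} (hD : 4 * (A : ℚ) ^ 3 + 27 * (B : ℚ) ^ 2 ≠ 0) :
    Infinite (Pts (A : ℚ) (B : ℚ)) ↔ Module.finrank ℤ (Pts (A : ℚ) (B : ℚ)) ≠ 0 := by
  have := fg hD
  constructor
  · intro h h0
    rw [Module.finrank_eq_zero_iff_isTorsion] at h0
    have := Module.finite_of_fg_torsion (Pts (A : ℚ) (B : ℚ)) h0
    exact not_finite (Pts (A : ℚ) (B : ℚ))
  · intro h
    by_contra hn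
    rw [not_infinite_iff_finite] at hn
    exact h (Pool.Agent.TeamU.finrank_zero_of_finite _)

end Pool.Agent.H79.QR
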