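import Mathlib
import Pool.Agent.H79.QR.Int

/-!
# Reduction of binary quartics
-/

set_option autoImplicit false

namespace Pool.Agent.H79.QR

open BQ

/-- all coefficients are at most `K` in absolute value -/
def Bdd (g : BQ ℝ) (K : ℝ) : Prop := |g.a| ≤ K ∧ |g.b| ≤ K ∧ |g.c| ≤ K ∧ |g.d| ≤ K ∧ |g.e| ≤ K

theorem normal_zero (g : BQ ℝ) (hd : 4 * g.I ^ 3 ≠ g.J ^ 2) {X Z : ℝ} (h0 : X ≠ 0 ∨ Z ≠ 0)
    (hz : g.ev X Z = 0) :
    ∃ p q r s : ℝ, p * s - q * r = 1 ∧ Bdd (g.act p q r s) (1 + |g.I| + |g.J|) := by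
  obtain ⟨q0, s0, hdet0⟩ : ∃ q s : ℝ, X * s - q * Z = 1 := by
    by_cases hX : X = 0
    · have hZ : Z ≠ 0 := by
        rcases h0 with h | h
        · exact absurd hX h
        · exact h
      exact ⟨-1 / Z, 0, by field_simp; ring⟩
    · exact ⟨0, 1 / X, by field_simp; ring⟩
  obtain ⟨g1, hg1⟩ : ∃ g1, g1 = g.act X q0 Z s0 := ⟨_, rfl⟩
  have ha1 : g1.a = 0 := by rw [← hz, hg1]; simp only [act, ev]
  have hI1 : g1.I = g.I := by rw [hg1, I_act, hdet0]; ring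
  have hJ1 : g1.J = g.J := by rw [hg1, J_act, hdet0]; ring
  have hb1 : g1.b ≠ 0 := by
    intro hb
    apply hd
    rw [← hI1, ← hJ1]
    simp only [BQ.I, BQ.J, ha1, hb]; ring
  obtain ⟨u, hu⟩ : ∃ u, u = -g1.c / (3 * g1.b) := ⟨_, rfl⟩
  obtain ⟨τ, hτ⟩ : ∃ τ, τ = 1 / √|g1.b| := ⟨_, rfl⟩
  have hsq : 0 < √|g1.b| := Real.sqrt_pos.mpr (abs_pos.mpr hb1)
  have hτ0 : 0 < τ := by rw [hτ]; positivity
  have hτ2 : |g1.b| * τ ^ 2 = 1 := by
    rw [hτ, div_pow, one_pow, Real.sq_sqrt (abs_nonneg _)]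
    field_simp
  obtain ⟨f, hf⟩ : ∃ f, f = g1.act τ (u * τ⁻¹) 0 τ⁻¹ := ⟨_, rfl⟩
  have hdetf : τ * τ⁻¹ - u * τ⁻¹ * 0 = 1 := by
    rw [mul_inv_cancel₀ hτ0.ne']; ring
  have hIf : f.I = g.I := by rw [hf, I_act, hdetf, hI1]; ring
  have hJf : f.J = g.J := by rw [hf, J_act, hdetf, hJ1]; ring
  have haf : f.a = 0 := by rw [hf]; simp only [act, ha1]; ring
  have hbf : f.b = g1.b * τ ^ 2 := by
    rw [hf]; simp only [act, ha1]; field_simp; ring
  have hbf1 : |f.b| = 1 := by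
    rw [hbf, abs_mul, abs_of_pos (pow_pos hτ0 2), hτ2]
  have hcf : f.c = 0 := by
    rw [hf]; simp only [act, ha1]; rw [hu]; field_simp; ring
  have hdf : |f.d| ≤ |g.I| := by
    have h1 : g.I = -3 * f.b * f.d := by rw [← hIf]; simp only [BQ.I, haf, hcf]; ring
    rw [h1, abs_mul, abs_mul, hbf1]
    norm_num
    linarith [abs_nonneg f.d]
  have hef : |f.e| ≤ |g.J| := by
    have h1 : g.J = -27 * f.b ^ 2 * f.e := by rw [← hJf]; simp only [BQ.J, haf, hcf]; ring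
    rw [h1, abs_mul, abs_mul, abs_pow, hbf1]
    norm_num
    linarith [abs_nonneg f.e]
  have hfg : f = g.act (X * τ) (X * (u * τ⁻¹) + q0 * τ⁻¹) (Z * τ) (Z * (u * τ⁻¹) + s0 * τ⁻¹) := by
    rw [hf, hg1, act_act]; congr 1 <;> ring
  refine ⟨X * τ, X * (u * τ⁻¹) + q0 * τ⁻¹, Z * τ, Z * (u * τ⁻¹) + s0 * τ⁻¹, ?_, ?_⟩
  · have : X * τ * (Z * (u * τ⁻¹) + s0 * τ⁻¹) - (X * (u * τ⁻¹) + q0 * τ⁻¹) * (Z * τ) =
      (X * s0 - q0 * Z) * (τ * τ⁻¹) := by ring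
    rw [this, hdet0, mul_inv_cancel₀ hτ0.ne', one_mul]
  · rw [← hfg]
    have i1 := abs_nonneg g.I
    have i2 := abs_nonneg g.J
    refine ⟨?_, ?_, ?_, ?_, ?_⟩
    · rw [haf, abs_zero]; linarith
    · rw [hbf1]; linarith
    · rw [hcf, abs_zero]; linarith
    · linarith
    · linarith

theorem normal_definite (g : BQ ℝ) (hz : ∀ X Z : ℝ, g.ev X Z = 0 → X = 0 ∧ Z = 0) :
    ∃ p q r s : ℝ, p * s - q * r = 1 ∧ Bdd (g.act p q r s) (1 + |g.I| + |g.J|) := by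
  have ha : g.a ≠ 0 := by
    intro h
    have := hz 1 0 (by simp only [ev, h]; ring)
    exact one_ne_zero this.1
  -- a complex root
  obtain ⟨P, hP⟩ : ∃ P : Polynomial ℂ, P = Polynomial.C (g.a : ℂ) * Polynomial.X ^ 4 +
    Polynomial.C (g.b : ℂ) * Polynomial.X ^ 3 + Polynomial.C (g.c : ℂ) * Polynomial.X ^ 2 +
    Polynomial.C (g.d : ℂ) * Polynomial.X + Polynomial.C (g.e : ℂ) := ⟨_, rfl⟩
  have hac : (g.a : ℂ) ≠ 0 := by exact_mod_cast ha
  have hdeg : P.degree = 4 := by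
    rw [hP]; compute_degree!
  obtain ⟨θ, hθ⟩ := IsAlgClosed.exists_root P (by rw [hdeg]; norm_num)
  have hev : (g.a : ℂ) * θ ^ 4 + g.b * θ ^ 3 + g.c * θ ^ 2 + g.d * θ + g.e = 0 := by
    have := hθ
    rw [Polynomial.IsRoot, hP] at this
    simpa using this
  obtain ⟨u, v, hv, hre, him⟩ : ∃ u v : ℝ, 0 < v ∧
      g.a * (u ^ 4 - 6 * u ^ 2 * v ^ 2 + v ^ 4) + g.b * (u ^ 3 - 3 * u * v ^ 2) +
        g.c * (u ^ 2 - v ^ 2) + g.d * u + g.e = 0 ∧
      g.a * (4 * u ^ 3 - 4 * u * v ^ 2) + g.b * (3 * u ^ 2 - v ^ 2) + 2 * g.c * u + g.d = 0 := by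
    obtain ⟨u, hu⟩ : ∃ u, u = θ.re := ⟨_, rfl⟩
    obtain ⟨v, hv⟩ : ∃ v, v = θ.im := ⟨_, rfl⟩
    have hθ' : θ = u + v * Complex.I := by rw [hu, hv]; exact (Complex.re_add_im θ).symm
    have key : (g.a : ℂ) * θ ^ 4 + g.b * θ ^ 3 + g.c * θ ^ 2 + g.d * θ + g.e =
        ((g.a * (u ^ 4 - 6 * u ^ 2 * v ^ 2 + v ^ 4) + g.b * (u ^ 3 - 3 * u * v ^ 2) +
        g.c * (u ^ 2 - v ^ 2) + g.d * u + g.e : ℝ) : ℂ) +
        ((v * (g.a * (4 * u ^ 3 - 4 * u * v ^ 2) + g.b * (3 * u ^ 2 - v ^ 2) + 2 * g.c * u +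
          g.d) : ℝ) : ℂ) * Complex.I := by
      have hI2 : Complex.I ^ 2 = -1 := Complex.I_sq
      rw [hθ']
      push_cast
      linear_combination ((g.a : ℂ) * (6 * u ^ 2 * v ^ 2 + 4 * u * v ^ 3 * Complex.I + v ^ 4 * (Complex.I ^ 2 - 1)) + g.b * (3 * u * v ^ 2 + v ^ 3 * Complex.I) + g.c * v ^ 2) * hI2
    rw [hev] at key
    have k1 := congrArg Complex.re key
    have k2 := congrArg Complex.im key
    simp only [Complex.zero_re, Complex.zero_im, Complex.add_re, Complex.add_im,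
      Complex.ofReal_re, Complex.ofReal_im, Complex.mul_re, Complex.mul_im, Complex.I_re,
      Complex.I_im, mul_zero, mul_one, zero_mul, sub_zero, add_zero, zero_add] at k1 k2
    have hv0 : v ≠ 0 := by
      intro h
      have := hz u 1 (by simp only [ev]; rw [h] at k1; linear_combination -k1)
      exact one_ne_zero this.2
    have k3 : g.a * (4 * u ^ 3 - 4 * u * v ^ 2) + g.b * (3 * u ^ 2 - v ^ 2) + 2 * g.c * u +
      g.d = 0 := by
      rcases mul_eq_zero.mp k2.symm with h | h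
      · exact absurd h hv0
      · exact h
    rcases lt_or_gt_of_ne hv0 with h | h
    · exact ⟨u, -v, by linarith, by linear_combination -k1, by linear_combination k3⟩
    · exact ⟨u, v, h, by linear_combination -k1, k3⟩
  obtain ⟨σ, hσ⟩ : ∃ σ, σ = √v := ⟨_, rfl⟩
  have hσ0 : 0 < σ := by rw [hσ]; exact Real.sqrt_pos.mpr hv
  have hσ2 : v = σ ^ 2 := by rw [hσ, Real.sq_sqrt hv.le]
  obtain ⟨f, hf⟩ : ∃ f, f = g.act σ (u / σ) 0 (1 / σ) := ⟨_, rfl⟩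
  have hdet : σ * (1 / σ) - u / σ * 0 = 1 := by field_simp; ring
  have hIf : f.I = g.I := by rw [hf, I_act, hdet]; ring
  rw [hσ2] at hre him
  have hbd : f.d = f.b := by
    rw [hf]; simp only [act]; field_simp
    linear_combination σ * him
  have hc : f.c = f.a + f.e := by
    rw [hf]; simp only [act]; field_simp
    linear_combination (-1 : ℝ) * hre
  have hfz : ∀ X Z : ℝ, f.ev X Z = 0 → X = 0 ∧ Z = 0 := by
    intro X Z h
    rw [hf, ev_act] at h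
    obtain ⟨h1, h2⟩ := hz _ _ h
    have h3 : Z = 0 := by
      have : 1 / σ * Z = 0 := by linear_combination h2
      rcases mul_eq_zero.mp this with h4 | h4
      · exact absurd h4 (by positivity)
      · exact h4
    rw [h3, mul_zero, add_zero] at h1
    rcases mul_eq_zero.mp h1 with h4 | h4
    · exact absurd h4 hσ0.ne'
    · exact ⟨h4, h3⟩
  have hfa : f.a ≠ 0 := by
    intro h
    have := hfz 1 0 (by simp only [ev, h]; ring)
    exact one_ne_zero this.1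
  have hdisc : f.b ^ 2 < 4 * f.a * f.e := by
    by_contra hn
    push Not at hn
    have h1 : 0 ≤ f.b ^ 2 - 4 * f.a * f.e := by linarith
    have h2 := Real.sq_sqrt h1
    obtain ⟨w, hw⟩ : ∃ w, w = √(f.b ^ 2 - 4 * f.a * f.e) := ⟨_, rfl⟩
    rw [← hw] at h2
    have := hfz (-f.b + w) (2 * f.a) (by
      simp only [ev]
      rw [hbd, hc]
      have e1 : f.a * (-f.b + w) ^ 2 + f.b * (-f.b + w) * (2 * f.a) + f.e * (2 * f.a) ^ 2 = 0 := by
        linear_combination f.a * h2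
      linear_combination ((-f.b + w) ^ 2 + (2 * f.a) ^ 2) * e1)
    exact hfa (by linarith [this.2])
  have hAE : 0 < f.a * f.e := by nlinarith [sq_nonneg f.b]
  have hI : f.I = 12 * (f.a * f.e) - 3 * f.b ^ 2 + (f.a + f.e) ^ 2 := by
    simp only [BQ.I]; rw [hbd, hc]; ring
  have hI2 : (f.a + f.e) ^ 2 ≤ f.I := by rw [hI]; nlinarith
  have hK : 0 ≤ |g.I| := abs_nonneg _
  have hK2 : 0 ≤ |g.J| := abs_nonneg _
  have hIle : f.I ≤ |g.I| := by rw [hIf]; exact le_abs_self _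
  have hKsq : |g.I| ≤ (1 + |g.I| + |g.J|) ^ 2 := by nlinarith
  have hK0 : 0 ≤ 1 + |g.I| + |g.J| := by linarith
  refine ⟨σ, u / σ, 0, 1 / σ, hdet, ?_⟩
  rw [← hf]
  have h4 : 4 * (f.a * f.e) ≤ (f.a + f.e) ^ 2 := by nlinarith [sq_nonneg (f.a - f.e)]
  have hb' : |f.b| ≤ 1 + |g.I| + |g.J| := abs_le_of_sq_le_sq (by linarith) hK0
  refine ⟨abs_le_of_sq_le_sq (by nlinarith) hK0, hb', ?_, ?_,
    abs_le_of_sq_le_sq (by nlinarith) hK0⟩
  · rw [hc]; exact abs_le_of_sq_le_sq (by nlinarith) hK0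
  · rw [hbd]; exact hb'

theorem normal_form (g : BQ ℝ) (hd : 4 * g.I ^ 3 ≠ g.J ^ 2) :
    ∃ p q r s : ℝ, p * s - q * r = 1 ∧ Bdd (g.act p q r s) (1 + |g.I| + |g.J|) := by
  by_cases h : ∀ X Z : ℝ, g.ev X Z = 0 → X = 0 ∧ Z = 0
  · exact normal_definite g h
  · push Not at h
    obtain ⟨X, Z, h1, h2⟩ := h
    refine normal_zero g hd ?_ h1
    by_cases hX : X = 0
    · right; exact h2 hX
    · left; exact hX

end Pool.Agent.H79.QR
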