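import Mathlib
import Pool.Agent.H79.QR.Red

/-!
# Reduction of integral binary quartics
-/

set_option autoImplicit false

namespace Pool.Agent.H79.QR

open BQ UpperHalfPlane MatrixGroups

theorem reduced_basis (p q r s : ℝ) (h : p * s - q * r = 1) :
    ∃ α β γ δ : ℤ, α * δ - β * γ = 1 ∧
      (p * α + q * γ) ^ 2 + (r * α + s * γ) ^ 2 ≤ (p * β + q * δ) ^ 2 + (r * β + s * δ) ^ 2 ∧
      ((p * α + q * γ) ^ 2 + (r * α + s * γ) ^ 2) *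
        ((p * β + q * δ) ^ 2 + (r * β + s * δ) ^ 2) ≤ 4 / 3 := by
  obtain ⟨c1, hc1⟩ : ∃ c1 : ℂ, c1 = ⟨p, r⟩ := ⟨_, rfl⟩
  obtain ⟨c2, hc2⟩ : ∃ c2 : ℂ, c2 = ⟨q, s⟩ := ⟨_, rfl⟩
  have hn1 : 0 < p ^ 2 + r ^ 2 := by
    by_contra hn
    have h1 : p ^ 2 + r ^ 2 ≤ 0 := not_lt.mp hn
    have hp : p = 0 := by nlinarith [sq_nonneg p, sq_nonneg r]
    have hr : r = 0 := by nlinarith [sq_nonneg p, sq_nonneg r]
    rw [hp, hr] at h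
    norm_num at h
  have hc10 : c1 ≠ 0 := by
    intro h0
    have e1 := congrArg Complex.re h0
    have e2 := congrArg Complex.im h0
    rw [hc1] at e1 e2
    simp only [Complex.zero_re, Complex.zero_im] at e1 e2
    rw [e1, e2] at hn1
    norm_num at hn1
  have him : 0 < (c2 / c1).im := by
    rw [Complex.div_im, hc1, hc2]
    simp only [Complex.normSq_mk]
    have : s * p / (p * p + r * r) - q * r / (p * p + r * r) = 1 / (p ^ 2 + r ^ 2) := by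
      rw [← sub_div]; congr 1
      · linear_combination h
      · ring
    rw [this]; positivity
  obtain ⟨g, hg⟩ := ModularGroup.exists_smul_mem_fd (⟨c2 / c1, him⟩ : ℍ)
  obtain ⟨hg1, hg2⟩ := hg
  have hdet := g.det_coe
  rw [Matrix.det_fin_two] at hdet
  obtain ⟨δ, hδ⟩ : ∃ δ : ℤ, δ = g 0 0 := ⟨_, rfl⟩
  obtain ⟨β, hβ⟩ : ∃ β : ℤ, β = g 0 1 := ⟨_, rfl⟩
  obtain ⟨γ, hγ⟩ : ∃ γ : ℤ, γ = g 1 0 := ⟨_, rfl⟩
  obtain ⟨α, hα⟩ : ∃ α : ℤ, α = g 1 1 := ⟨_, rfl⟩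
  have hdet' : α * δ - β * γ = 1 := by
    rw [hδ, hβ, hγ, hα]; linear_combination hdet
  obtain ⟨b1, hb1⟩ : ∃ b1 : ℂ, b1 = ⟨p * α + q * γ, r * α + s * γ⟩ := ⟨_, rfl⟩
  obtain ⟨b2, hb2⟩ : ∃ b2 : ℂ, b2 = ⟨p * β + q * δ, r * β + s * δ⟩ := ⟨_, rfl⟩
  have e1 : b1 = α * c1 + γ * c2 := by
    rw [hb1, hc1, hc2]; apply Complex.ext <;> simp <;> ring
  have e2 : b2 = β * c1 + δ * c2 := by
    rw [hb2, hc1, hc2]; apply Complex.ext <;> simp <;> ring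
  have hdetb : (p * α + q * γ) * (r * β + s * δ) - (p * β + q * δ) * (r * α + s * γ) = 1 := by
    have : (p * α + q * γ) * (r * β + s * δ) - (p * β + q * δ) * (r * α + s * γ) =
      (p * s - q * r) * ((α * δ - β * γ : ℤ) : ℝ) := by push_cast; ring
    rw [this, h, hdet']; norm_num
  obtain ⟨x1, hx1⟩ : ∃ x1 : ℝ, x1 = p * α + q * γ := ⟨_, rfl⟩
  obtain ⟨z1, hz1⟩ : ∃ z1 : ℝ, z1 = r * α + s * γ := ⟨_, rfl⟩
  obtain ⟨x2, hx2⟩ : ∃ x2 : ℝ, x2 = p * β + q * δ := ⟨_, rfl⟩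
  obtain ⟨z2, hz2⟩ : ∃ z2 : ℝ, z2 = r * β + s * δ := ⟨_, rfl⟩
  rw [← hx1, ← hz1] at hb1
  rw [← hx2, ← hz2] at hb2
  rw [← hx1, ← hz1, ← hx2, ← hz2] at hdetb
  refine ⟨α, β, γ, δ, hdet', ?_⟩
  rw [← hx1, ← hz1, ← hx2, ← hz2]
  have hm1 : 0 < x1 ^ 2 + z1 ^ 2 := by
    by_contra hn
    have h1 : x1 ^ 2 + z1 ^ 2 ≤ 0 := not_lt.mp hn
    have hp : x1 = 0 := by nlinarith [sq_nonneg x1, sq_nonneg z1]
    have hr : z1 = 0 := by nlinarith [sq_nonneg x1, sq_nonneg z1]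
    rw [hp, hr] at hdetb
    norm_num at hdetb
  have hw : ((g • (⟨c2 / c1, him⟩ : ℍ) : ℍ) : ℂ) = b2 / b1 := by
    rw [UpperHalfPlane.specialLinearGroup_apply]
    simp only [UpperHalfPlane.coe_mk, algebraMap_int_eq, Int.coe_castRingHom, Complex.ofReal_intCast]
    rw [← hδ, ← hβ, ← hγ, ← hα, e1, e2]
    have h1 : (δ : ℂ) * (c2 / c1) + β = (β * c1 + δ * c2) / c1 := by field_simp; ring
    have h2 : (γ : ℂ) * (c2 / c1) + α = (α * c1 + γ * c2) / c1 := by field_simp; ring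
    rw [h1, h2, div_div_div_cancel_right₀ hc10]
  have hq1 : 1 ≤ (x2 ^ 2 + z2 ^ 2) / (x1 ^ 2 + z1 ^ 2) := by
    have : Complex.normSq (b2 / b1) = (x2 ^ 2 + z2 ^ 2) / (x1 ^ 2 + z1 ^ 2) := by
      rw [Complex.normSq_div, hb1, hb2]
      simp only [Complex.normSq_mk]
      congr 1 <;> ring
    rw [← this, ← hw]
    exact hg1
  have hq2 : |(x1 * x2 + z1 * z2) / (x1 ^ 2 + z1 ^ 2)| ≤ 1 / 2 := by
    have : (b2 / b1).re = (x1 * x2 + z1 * z2) / (x1 ^ 2 + z1 ^ 2) := by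
      rw [Complex.div_re, hb1, hb2]
      simp only [Complex.normSq_mk]
      rw [← add_div]; congr 1 <;> ring
    rw [← this, ← hw]
    exact hg2
  rw [one_le_div hm1] at hq1
  rw [abs_div, abs_of_pos hm1, div_le_iff₀ hm1] at hq2
  refine ⟨hq1, ?_⟩
  have h3 : (x1 ^ 2 + z1 ^ 2) * (x2 ^ 2 + z2 ^ 2) = 1 + (x1 * x2 + z1 * z2) ^ 2 := by
    have : (x1 ^ 2 + z1 ^ 2) * (x2 ^ 2 + z2 ^ 2) = (x1 * z2 - x2 * z1) ^ 2 +
      (x1 * x2 + z1 * z2) ^ 2 := by ring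
    rw [this, hdetb]; ring
  have h4 : (x1 * x2 + z1 * z2) ^ 2 ≤ (1 / 2 * (x1 ^ 2 + z1 ^ 2)) ^ 2 := by
    rw [← sq_abs (x1 * x2 + z1 * z2)]
    exact pow_le_pow_left₀ (abs_nonneg _) hq2 2
  nlinarith

end Pool.Agent.H79.QR
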