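import Mathlib
import Pool.Agent.H79.QR.Red2

/-!
# Reduction of integral binary quartics: the bound for the coefficients
-/

set_option autoImplicit false

namespace Pool.Agent.H79.QR

open BQ

theorem abs5 (a b c d e : ℝ) : |a + b + c + d + e| ≤ |a| + |b| + |c| + |d| + |e| := by
  have h1 := abs_add_le (a + b + c + d) e
  have h2 := abs_add_le (a + b + c) d
  have h3 := abs_add_le (a + b) c
  have h4 := abs_add_le a b
  linarith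

theorem mul_bd {c K m M : ℝ} (hc : |c| ≤ K) (hm : |m| ≤ M) : |c * m| ≤ K * M := by
  rw [abs_mul]
  exact mul_le_mul hc hm (abs_nonneg _) ((abs_nonneg _).trans hc)

theorem act_bd {h : BQ ℝ} {K : ℝ} (hK : Bdd h K) (p q r s : ℝ) :
    |(h.act p q r s).a| ≤ K * (|p| + |r|) ^ 4 ∧
    |(h.act p q r s).b| ≤ 4 * K * (|p| + |r|) ^ 3 * (|q| + |s|) ∧
    |(h.act p q r s).c| ≤ 6 * K * (|p| + |r|) ^ 2 * (|q| + |s|) ^ 2 ∧
    |(h.act p q r s).d| ≤ 4 * K * (|p| + |r|) * (|q| + |s|) ^ 3 ∧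
    |(h.act p q r s).e| ≤ K * (|q| + |s|) ^ 4 := by
  obtain ⟨ka, kb, kc, kd, ke⟩ := hK
  have hK0 : 0 ≤ K := (abs_nonneg _).trans ka
  obtain ⟨P, hP⟩ : ∃ P, P = |p| := ⟨_, rfl⟩
  obtain ⟨Q, hQ⟩ : ∃ Q, Q = |q| := ⟨_, rfl⟩
  obtain ⟨R, hR⟩ : ∃ R, R = |r| := ⟨_, rfl⟩
  obtain ⟨S, hS⟩ : ∃ S, S = |s| := ⟨_, rfl⟩
  have hP0 : 0 ≤ P := hP ▸ abs_nonneg _
  have hQ0 : 0 ≤ Q := hQ ▸ abs_nonneg _
  have hR0 : 0 ≤ R := hR ▸ abs_nonneg _
  have hS0 : 0 ≤ S := hS ▸ abs_nonneg _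
  refine ⟨?_, ?_, ?_, ?_, ?_⟩
  · have e : (h.act p q r s).a = h.a * p ^ 4 + h.b * (p ^ 3 * r) + h.c * (p ^ 2 * r ^ 2) +
        h.d * (p * r ^ 3) + h.e * r ^ 4 := by simp only [act]; ring
    rw [e, ← hP, ← hR]
    have t1 := mul_bd ka (show |p ^ 4| ≤ P ^ 4 by rw [abs_pow, hP])
    have t2 := mul_bd kb (show |p ^ 3 * r| ≤ P ^ 3 * R by rw [abs_mul, abs_pow, hP, hR])
    have t3 := mul_bd kc (show |p ^ 2 * r ^ 2| ≤ P ^ 2 * R ^ 2 by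
      rw [abs_mul, abs_pow, abs_pow, hP, hR])
    have t4 := mul_bd kd (show |p * r ^ 3| ≤ P * R ^ 3 by rw [abs_mul, abs_pow, hP, hR])
    have t5 := mul_bd ke (show |r ^ 4| ≤ R ^ 4 by rw [abs_pow, hR])
    refine (abs5 _ _ _ _ _).trans ?_
    have : 0 ≤ K * (3 * (P ^ 3 * R) + 5 * (P ^ 2 * R ^ 2) + 3 * (P * R ^ 3)) := by positivity
    nlinarith
  · have e : (h.act p q r s).b = h.a * (4 * (p ^ 3 * q)) +
        h.b * (3 * (p ^ 2 * q * r) + p ^ 3 * s) +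
        h.c * (2 * (p * q * r ^ 2) + 2 * (p ^ 2 * r * s)) +
        h.d * (q * r ^ 3 + 3 * (p * r ^ 2 * s)) + h.e * (4 * (r ^ 3 * s)) := by
      simp only [act]; ring
    rw [e, ← hP, ← hR, ← hQ, ← hS]
    have t1 := mul_bd ka (show |4 * (p ^ 3 * q)| ≤ 4 * (P ^ 3 * Q) by
      rw [abs_mul, abs_mul, abs_pow, hP, hQ]; norm_num)
    have t2 := mul_bd kb (show |3 * (p ^ 2 * q * r) + p ^ 3 * s| ≤
      3 * (P ^ 2 * Q * R) + P ^ 3 * S by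
        refine (abs_add_le _ _).trans (le_of_eq ?_)
        rw [hP, hQ, hR, hS]; simp only [abs_mul, abs_pow]; norm_num)
    have t3 := mul_bd kc (show |2 * (p * q * r ^ 2) + 2 * (p ^ 2 * r * s)| ≤
      2 * (P * Q * R ^ 2) + 2 * (P ^ 2 * R * S) by
        refine (abs_add_le _ _).trans (le_of_eq ?_)
        rw [hP, hQ, hR, hS]; simp only [abs_mul, abs_pow]; norm_num)
    have t4 := mul_bd kd (show |q * r ^ 3 + 3 * (p * r ^ 2 * s)| ≤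
      Q * R ^ 3 + 3 * (P * R ^ 2 * S) by
        refine (abs_add_le _ _).trans (le_of_eq ?_)
        rw [hP, hQ, hR, hS]; simp only [abs_mul, abs_pow]; norm_num)
    have t5 := mul_bd ke (show |4 * (r ^ 3 * s)| ≤ 4 * (R ^ 3 * S) by
      rw [abs_mul, abs_mul, abs_pow, hR, hS]; norm_num)
    refine (abs5 _ _ _ _ _).trans ?_
    have : 0 ≤ K * (9 * (P ^ 2 * Q * R) + 3 * (P ^ 3 * S) + 10 * (P * Q * R ^ 2) +
      10 * (P ^ 2 * R * S) + 3 * (Q * R ^ 3) + 9 * (P * R ^ 2 * S)) := by positivity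
    nlinarith
  · have e : (h.act p q r s).c = h.a * (6 * (p ^ 2 * q ^ 2)) +
        h.b * (3 * (p * q ^ 2 * r) + 3 * (p ^ 2 * q * s)) +
        h.c * (q ^ 2 * r ^ 2 + 4 * (p * q * r * s) + p ^ 2 * s ^ 2) +
        h.d * (3 * (q * r ^ 2 * s) + 3 * (p * r * s ^ 2)) + h.e * (6 * (r ^ 2 * s ^ 2)) := by
      simp only [act]; ring
    rw [e, ← hP, ← hR, ← hQ, ← hS]
    have t1 := mul_bd ka (show |6 * (p ^ 2 * q ^ 2)| ≤ 6 * (P ^ 2 * Q ^ 2) by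
      rw [hP, hQ]; simp only [abs_mul, abs_pow]; norm_num)
    have t2 := mul_bd kb (show |3 * (p * q ^ 2 * r) + 3 * (p ^ 2 * q * s)| ≤
      3 * (P * Q ^ 2 * R) + 3 * (P ^ 2 * Q * S) by
        refine (abs_add_le _ _).trans (le_of_eq ?_)
        rw [hP, hQ, hR, hS]; simp only [abs_mul, abs_pow]; norm_num)
    have t3 := mul_bd kc (show |q ^ 2 * r ^ 2 + 4 * (p * q * r * s) + p ^ 2 * s ^ 2| ≤
      Q ^ 2 * R ^ 2 + 4 * (P * Q * R * S) + P ^ 2 * S ^ 2 by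
        refine (abs_add_three _ _ _).trans (le_of_eq ?_)
        rw [hP, hQ, hR, hS]; simp only [abs_mul, abs_pow]; norm_num)
    have t4 := mul_bd kd (show |3 * (q * r ^ 2 * s) + 3 * (p * r * s ^ 2)| ≤
      3 * (Q * R ^ 2 * S) + 3 * (P * R * S ^ 2) by
        refine (abs_add_le _ _).trans (le_of_eq ?_)
        rw [hP, hQ, hR, hS]; simp only [abs_mul, abs_pow]; norm_num)
    have t5 := mul_bd ke (show |6 * (r ^ 2 * s ^ 2)| ≤ 6 * (R ^ 2 * S ^ 2) by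
      rw [hR, hS]; simp only [abs_mul, abs_pow]; norm_num)
    refine (abs5 _ _ _ _ _).trans ?_
    have : 0 ≤ K * (9 * (P * Q ^ 2 * R) + 9 * (P ^ 2 * Q * S) + 5 * (Q ^ 2 * R ^ 2) +
      20 * (P * Q * R * S) + 5 * (P ^ 2 * S ^ 2) + 9 * (Q * R ^ 2 * S) +
      9 * (P * R * S ^ 2)) := by positivity
    nlinarith
  · have e : (h.act p q r s).d = h.a * (4 * (p * q ^ 3)) +
        h.b * (q ^ 3 * r + 3 * (p * q ^ 2 * s)) +
        h.c * (2 * (q ^ 2 * r * s) + 2 * (p * q * s ^ 2)) +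
        h.d * (3 * (q * r * s ^ 2) + p * s ^ 3) + h.e * (4 * (r * s ^ 3)) := by
      simp only [act]; ring
    rw [e, ← hP, ← hR, ← hQ, ← hS]
    have t1 := mul_bd ka (show |4 * (p * q ^ 3)| ≤ 4 * (P * Q ^ 3) by
      rw [hP, hQ]; simp only [abs_mul, abs_pow]; norm_num)
    have t2 := mul_bd kb (show |q ^ 3 * r + 3 * (p * q ^ 2 * s)| ≤
      Q ^ 3 * R + 3 * (P * Q ^ 2 * S) by
        refine (abs_add_le _ _).trans (le_of_eq ?_)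
        rw [hP, hQ, hR, hS]; simp only [abs_mul, abs_pow]; norm_num)
    have t3 := mul_bd kc (show |2 * (q ^ 2 * r * s) + 2 * (p * q * s ^ 2)| ≤
      2 * (Q ^ 2 * R * S) + 2 * (P * Q * S ^ 2) by
        refine (abs_add_le _ _).trans (le_of_eq ?_)
        rw [hP, hQ, hR, hS]; simp only [abs_mul, abs_pow]; norm_num)
    have t4 := mul_bd kd (show |3 * (q * r * s ^ 2) + p * s ^ 3| ≤
      3 * (Q * R * S ^ 2) + P * S ^ 3 by
        refine (abs_add_le _ _).trans (le_of_eq ?_)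
        rw [hP, hQ, hR, hS]; simp only [abs_mul, abs_pow]; norm_num)
    have t5 := mul_bd ke (show |4 * (r * s ^ 3)| ≤ 4 * (R * S ^ 3) by
      rw [hR, hS]; simp only [abs_mul, abs_pow]; norm_num)
    refine (abs5 _ _ _ _ _).trans ?_
    have : 0 ≤ K * (3 * (Q ^ 3 * R) + 9 * (P * Q ^ 2 * S) + 10 * (Q ^ 2 * R * S) +
      10 * (P * Q * S ^ 2) + 9 * (Q * R * S ^ 2) + 3 * (P * S ^ 3)) := by positivity
    nlinarith
  · have e : (h.act p q r s).e = h.a * q ^ 4 + h.b * (q ^ 3 * s) + h.c * (q ^ 2 * s ^ 2) +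
        h.d * (q * s ^ 3) + h.e * s ^ 4 := by simp only [act]; ring
    rw [e, ← hQ, ← hS]
    have t1 := mul_bd ka (show |q ^ 4| ≤ Q ^ 4 by rw [abs_pow, hQ])
    have t2 := mul_bd kb (show |q ^ 3 * s| ≤ Q ^ 3 * S by rw [abs_mul, abs_pow, hQ, hS])
    have t3 := mul_bd kc (show |q ^ 2 * s ^ 2| ≤ Q ^ 2 * S ^ 2 by
      rw [abs_mul, abs_pow, abs_pow, hQ, hS])
    have t4 := mul_bd kd (show |q * s ^ 3| ≤ Q * S ^ 3 by rw [abs_mul, abs_pow, hQ, hS])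
    have t5 := mul_bd ke (show |s ^ 4| ≤ S ^ 4 by rw [abs_pow, hS])
    refine (abs5 _ _ _ _ _).trans ?_
    have : 0 ≤ K * (3 * (Q ^ 3 * S) + 5 * (Q ^ 2 * S ^ 2) + 3 * (Q * S ^ 3)) := by positivity
    nlinarith

/-- the real quartic of an integral quartic -/
def toR (g : BQ ℤ) : BQ ℝ := g.map (Int.castRingHom ℝ)

theorem toR_act (g : BQ ℤ) (p q r s : ℤ) : toR (g.act p q r s) = (toR g).act p q r s :=
  map_act _ g p q r s

theorem toR_I (g : BQ ℤ) : (toR g).I = g.I := map_I _ g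
theorem toR_J (g : BQ ℤ) : (toR g).J = g.J := map_J _ g

theorem int_zero_of_sq {n : ℤ} (h : (n : ℝ) ^ 2 < 1) : n = 0 := by
  have h1 : n ^ 2 < 1 := by exact_mod_cast h
  by_contra hn
  have h2 := Int.one_le_abs hn
  have h3 := sq_abs n
  nlinarith

/-- the bound for the coefficients of a reduced quartic -/
def bnd (I J : ℤ) : ℤ := 2500 * (1 + |I| + |J|) ^ 3

theorem reduce (g : BQ ℤ) (hd : 4 * g.I ^ 3 ≠ g.J ^ 2) :
    ∃ p q r s : ℤ, p * s - q * r = 1 ∧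
      |(g.act p q r s).a| ≤ bnd g.I g.J ∧ |(g.act p q r s).b| ≤ bnd g.I g.J ∧
      |(g.act p q r s).c| ≤ bnd g.I g.J ∧ |(g.act p q r s).d| ≤ bnd g.I g.J ∧
      |(g.act p q r s).e| ≤ bnd g.I g.J := by
  have hdR : 4 * (toR g).I ^ 3 ≠ (toR g).J ^ 2 := by
    rw [toR_I, toR_J]; exact_mod_cast hd
  obtain ⟨p, q, r, s, hdet, hB⟩ := normal_form (toR g) hdR
  rw [toR_I, toR_J] at hB
  obtain ⟨K, hK⟩ : ∃ K : ℝ, K = 1 + |(g.I : ℝ)| + |(g.J : ℝ)| := ⟨_, rfl⟩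
  rw [← hK] at hB
  have hK1 : 1 ≤ K := by rw [hK]; linarith [abs_nonneg (g.I : ℝ), abs_nonneg (g.J : ℝ)]
  obtain ⟨h, hh⟩ : ∃ h, h = (toR g).act p q r s := ⟨_, rfl⟩
  rw [← hh] at hB
  have hinv : toR g = h.act s (-q) (-r) p := by
    rw [hh, act_act]
    have e1 : p * s + q * -r = 1 := by linear_combination hdet
    have e2 : p * -q + q * p = 0 := by ring
    have e3 : r * s + s * -r = 0 := by ring
    have e4 : r * -q + s * p = 1 := by linear_combination hdet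
    rw [e1, e2, e3, e4, act_one]
  obtain ⟨α, β, γ, δ, hd1, hn, hnn⟩ := reduced_basis s (-q) (-r) p (by linear_combination hdet)
  obtain ⟨x1, hx1⟩ : ∃ x1 : ℝ, x1 = s * α + -q * γ := ⟨_, rfl⟩
  obtain ⟨z1, hz1⟩ : ∃ z1 : ℝ, z1 = -r * α + p * γ := ⟨_, rfl⟩
  obtain ⟨x2, hx2⟩ : ∃ x2 : ℝ, x2 = s * β + -q * δ := ⟨_, rfl⟩
  obtain ⟨z2, hz2⟩ : ∃ z2 : ℝ, z2 = -r * β + p * δ := ⟨_, rfl⟩
  rw [← hx1, ← hz1, ← hx2, ← hz2] at hn hnn
  obtain ⟨f, hf⟩ : ∃ f, f = g.act α β γ δ := ⟨_, rfl⟩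
  have hfR : toR f = h.act x1 x2 z1 z2 := by
    rw [hf, toR_act, hinv, act_act, hx1, hx2, hz1, hz2]
  obtain ⟨ba, bb, bc, bd, be⟩ := act_bd hB x1 x2 z1 z2
  rw [← hfR] at ba bb bc bd be
  have fa : (toR f).a = (f.a : ℝ) := rfl
  have fb : (toR f).b = (f.b : ℝ) := rfl
  have fc : (toR f).c = (f.c : ℝ) := rfl
  have fd : (toR f).d = (f.d : ℝ) := rfl
  have fe : (toR f).e = (f.e : ℝ) := rfl
  rw [fa] at ba
  rw [fb] at bb
  rw [fc] at bc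
  rw [fd] at bd
  rw [fe] at be
  obtain ⟨P, hP⟩ : ∃ P, P = |x1| + |z1| := ⟨_, rfl⟩
  obtain ⟨Q, hQ⟩ : ∃ Q, Q = |x2| + |z2| := ⟨_, rfl⟩
  rw [← hP] at ba bb bc bd
  rw [← hQ] at bb bc bd be
  have hP0 : 0 ≤ P := by rw [hP]; positivity
  have hQ0 : 0 ≤ Q := by rw [hQ]; positivity
  have hP2 : P ^ 2 ≤ 2 * (x1 ^ 2 + z1 ^ 2) := by
    rw [hP, ← sq_abs x1, ← sq_abs z1]; nlinarith [sq_nonneg (|x1| - |z1|)]
  have hQ2 : Q ^ 2 ≤ 2 * (x2 ^ 2 + z2 ^ 2) := by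
    rw [hQ, ← sq_abs x2, ← sq_abs z2]; nlinarith [sq_nonneg (|x2| - |z2|)]
  obtain ⟨n1, hn1⟩ : ∃ n1, n1 = x1 ^ 2 + z1 ^ 2 := ⟨_, rfl⟩
  obtain ⟨n2, hn2⟩ : ∃ n2, n2 = x2 ^ 2 + z2 ^ 2 := ⟨_, rfl⟩
  rw [← hn1] at hn hnn hP2
  rw [← hn2] at hn hnn hQ2
  have hn10 : 0 ≤ n1 := by rw [hn1]; positivity
  have hn20 : 0 ≤ n2 := by rw [hn2]; positivity
  obtain ⟨m, hm⟩ : ∃ m, m = P ^ 2 := ⟨_, rfl⟩
  obtain ⟨M, hM⟩ : ∃ M, M = Q ^ 2 := ⟨_, rfl⟩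
  have hm0 : 0 ≤ m := by rw [hm]; positivity
  have hM0 : 0 ≤ M := by rw [hM]; positivity
  rw [← hm] at hP2
  rw [← hM] at hQ2
  have hmM : m * M ≤ 16 / 3 := by
    calc m * M ≤ (2 * n1) * (2 * n2) := mul_le_mul hP2 hQ2 hM0 (by linarith)
      _ ≤ 16 / 3 := by linarith
  have hmm : m ^ 2 ≤ 16 / 3 := by
    have h1 : n1 * n1 ≤ n1 * n2 := mul_le_mul_of_nonneg_left hn hn10
    calc m ^ 2 ≤ (2 * n1) ^ 2 := pow_le_pow_left₀ hm0 hP2 2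
      _ ≤ 16 / 3 := by nlinarith
  have hmM0 : 0 ≤ m * M := mul_nonneg hm0 hM0
  have ba' : |(f.a : ℝ)| ≤ K * m ^ 2 := by rw [hm]; refine ba.trans (le_of_eq ?_); ring
  have be' : |(f.e : ℝ)| ≤ K * M ^ 2 := by rw [hM]; refine be.trans (le_of_eq ?_); ring
  have bc' : |(f.c : ℝ)| ≤ 6 * K * (m * M) := by
    rw [hm, hM]; refine bc.trans (le_of_eq ?_); ring
  have bb' : (f.b : ℝ) ^ 2 ≤ 16 * K ^ 2 * m ^ 2 * (m * M) := by
    rw [← sq_abs (f.b : ℝ), hm, hM]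
    refine (pow_le_pow_left₀ (abs_nonneg _) bb 2).trans (le_of_eq ?_); ring
  have bd' : (f.d : ℝ) ^ 2 ≤ 16 * K ^ 2 * M ^ 2 * (m * M) := by
    rw [← sq_abs (f.d : ℝ), hm, hM]
    refine (pow_le_pow_left₀ (abs_nonneg _) bd 2).trans (le_of_eq ?_); ring
  have hK2 : 1 ≤ K ^ 2 := one_le_pow₀ hK1
  have hm2 : 0 ≤ m ^ 2 := by positivity
  have hM2 : 0 ≤ M ^ 2 := by positivity
  have hlow : 1 ≤ 86 * (K ^ 2 * m ^ 2) := by
    by_contra hcon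
    have hcon' : 86 * (K ^ 2 * m ^ 2) < 1 := not_le.mp hcon
    have hKm : K * m ^ 2 ≤ K ^ 2 * m ^ 2 := by
      apply mul_le_mul_of_nonneg_right _ hm2; nlinarith
    have hKm0 : 0 ≤ K ^ 2 * m ^ 2 := by positivity
    have e1 : f.a = 0 := by
      apply int_zero_of_sq
      have : (|(f.a : ℝ)|) < 1 := by linarith
      rw [← sq_abs]; nlinarith [abs_nonneg (f.a : ℝ)]
    have e2 : f.b = 0 := by
      apply int_zero_of_sq
      have h1 : 16 * K ^ 2 * m ^ 2 * (m * M) ≤ 16 * (K ^ 2 * m ^ 2) * (16 / 3) := by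
        have : 16 * K ^ 2 * m ^ 2 * (m * M) = 16 * (K ^ 2 * m ^ 2) * (m * M) := by ring
        rw [this]
        exact mul_le_mul_of_nonneg_left hmM (by positivity)
      linarith
    apply hd
    have h1 : f.I = g.I := by rw [hf, I_act, hd1]; ring
    have h2 : f.J = g.J := by rw [hf, J_act, hd1]; ring
    rw [← h1, ← h2]
    simp only [BQ.I, BQ.J, e1, e2]; ring
  have hMup : M ^ 2 ≤ 2447 * K ^ 2 := by
    have h1 : (m * M) ^ 2 ≤ (16 / 3) ^ 2 := pow_le_pow_left₀ hmM0 hmM 2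
    have h2 : M ^ 2 * 1 ≤ M ^ 2 * (86 * (K ^ 2 * m ^ 2)) := mul_le_mul_of_nonneg_left hlow hM2
    have h3 : M ^ 2 * (86 * (K ^ 2 * m ^ 2)) = 86 * K ^ 2 * (m * M) ^ 2 := by ring
    have h4 : 86 * K ^ 2 * (m * M) ^ 2 ≤ 86 * K ^ 2 * (16 / 3) ^ 2 :=
      mul_le_mul_of_nonneg_left h1 (by positivity)
    nlinarith
  have hK3 : K ≤ K ^ 3 := by nlinarith [sq_nonneg K]
  have hK23 : K ^ 2 ≤ K ^ 3 := by nlinarith [sq_nonneg K]
  have hbR : ((bnd g.I g.J : ℤ) : ℝ) = 2500 * K ^ 3 := by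
    rw [bnd, hK]; push_cast; rfl
  have cast_le : ∀ n : ℤ, |(n : ℝ)| ≤ 2500 * K ^ 3 → |n| ≤ bnd g.I g.J := by
    intro n hn
    rw [← hbR] at hn
    exact_mod_cast hn
  refine ⟨α, β, γ, δ, hd1, ?_⟩
  rw [← hf]
  refine ⟨cast_le _ ?_, cast_le _ ?_, cast_le _ ?_, cast_le _ ?_, cast_le _ ?_⟩
  · have : K * m ^ 2 ≤ K * (16 / 3) := mul_le_mul_of_nonneg_left hmm (by linarith)
    linarith
  · apply abs_le_of_sq_le_sq _ (by positivity)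
    have h1 : 16 * K ^ 2 * m ^ 2 * (m * M) ≤ 16 * K ^ 2 * (16 / 3) * (16 / 3) := by
      have h2 : 16 * K ^ 2 * m ^ 2 ≤ 16 * K ^ 2 * (16 / 3) :=
        mul_le_mul_of_nonneg_left hmm (by positivity)
      exact mul_le_mul h2 hmM hmM0 (by positivity)
    have h3 : (2500 * K ^ 3) ^ 2 = 6250000 * (K ^ 2) ^ 3 := by ring
    have h4 : K ^ 2 ≤ (K ^ 2) ^ 3 := by nlinarith [sq_nonneg (K ^ 2)]
    rw [h3]; linarith
  · have : 6 * K * (m * M) ≤ 6 * K * (16 / 3) := mul_le_mul_of_nonneg_left hmM (by positivity)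
    linarith
  · apply abs_le_of_sq_le_sq _ (by positivity)
    have h1 : 16 * K ^ 2 * M ^ 2 * (m * M) ≤ 16 * K ^ 2 * (2447 * K ^ 2) * (16 / 3) := by
      have h2 : 16 * K ^ 2 * M ^ 2 ≤ 16 * K ^ 2 * (2447 * K ^ 2) :=
        mul_le_mul_of_nonneg_left hMup (by positivity)
      exact mul_le_mul h2 hmM hmM0 (by positivity)
    have h3 : (2500 * K ^ 3) ^ 2 = 6250000 * (K ^ 2) ^ 3 := by ring
    have h4 : (K ^ 2) ^ 2 ≤ (K ^ 2) ^ 3 := by nlinarith [sq_nonneg (K ^ 2)]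
    rw [h3]; nlinarith
  · have : K * M ^ 2 ≤ K * (2447 * K ^ 2) := mul_le_mul_of_nonneg_left hMup (by linarith)
    nlinarith

end Pool.Agent.H79.QR
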