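import Mathlib
import Pool.Agent.H79.QR.Rank
import Pool.Agent.H79.QR.Red3

/-!
# An algorithm for the quartics gives an algorithm for the rank
-/

set_option autoImplicit false

namespace Pool.Agent.H79.QR

open Pool.Agent.Helper566.FD.J7 Pool.Agent.TH352.RC BQ WeierstrassCurve

/-- the bound for the coefficients of the reduced quartics -/
def bd (q : ℤ × ℤ) : ℕ := 2500 * ((1 + nab (-48 * q.1) + nab (-1728 * q.2)) *
  (1 + nab (-48 * q.1) + nab (-1728 * q.2)) * (1 + nab (-48 * q.1) + nab (-1728 * q.2)))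

theorem bd_eq (A B : ℤ) : ((bd (A, B) : ℕ) : ℤ) = bnd (-48 * A) (-1728 * B) := by
  unfold bd bnd
  simp only [nab_eq]
  push_cast
  ring

theorem prim_bd : Primrec bd := by
  have a : Primrec (fun q : ℤ × ℤ => nab (-48 * q.1)) :=
    prim_nab.comp (prim_int_mul.comp (Primrec.const (-48)) Primrec.fst)
  have b : Primrec (fun q : ℤ × ℤ => nab (-1728 * q.2)) :=
    prim_nab.comp (prim_int_mul.comp (Primrec.const (-1728)) Primrec.snd)
  have c := Primrec.nat_add.comp (Primrec.nat_add.comp (Primrec.const 1) a) b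
  exact Primrec.nat_mul.comp (Primrec.const 2500)
    (Primrec.nat_mul.comp (Primrec.nat_mul.comp c c) c)

attribute [local irreducible] bd

/-! ### search in a box -/

section box

variable {β : Type} [Primcodable β]

/-- search for one more coefficient -/
def ex1 (p : ((ℤ × ℤ) × ℕ) × (β × ℤ) → Bool) (z : ((ℤ × ℤ) × ℕ) × β) : Bool :=
  exb (fun i => p (z.1, (z.2, (i : ℤ) - bd z.1.1))) (2 * bd z.1.1 + 1)

theorem comp_ex1 {p : ((ℤ × ℤ) × ℕ) × (β × ℤ) → Bool} (hp : Computable p) :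
    Computable (ex1 p) := by
  have hq : Primrec (fun z : (((ℤ × ℤ) × ℕ) × β) × ℕ => z.1.1.1) :=
    Primrec.fst.comp (Primrec.fst.comp Primrec.fst)
  have hi : Primrec (fun z : (((ℤ × ℤ) × ℕ) × β) × ℕ => (z.2 : ℤ)) :=
    prim_natCast.comp Primrec.snd
  have hb : Primrec (fun z : (((ℤ × ℤ) × ℕ) × β) × ℕ => (bd z.1.1.1 : ℤ)) :=
    prim_natCast.comp (prim_bd.comp hq)
  have hn := prim_int_sub.comp hi hb
  have h1 : Primrec (fun z : (((ℤ × ℤ) × ℕ) × β) × ℕ => z.1.1) := Primrec.fst.comp Primrec.fst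
  have h2 : Primrec (fun z : (((ℤ × ℤ) × ℕ) × β) × ℕ => z.1.2) := Primrec.snd.comp Primrec.fst
  have h3 := Primrec.pair h1 (Primrec.pair h2 hn)
  have h4 : Computable₂ (fun (z : ((ℤ × ℤ) × ℕ) × β) (i : ℕ) =>
      p (z.1, (z.2, (i : ℤ) - bd z.1.1))) := hp.comp h3.to_comp
  have h5 : Primrec (fun z : ((ℤ × ℤ) × ℕ) × β => 2 * bd z.1.1 + 1) :=
    Primrec.succ.comp (Primrec.nat_mul.comp (Primrec.const 2)
      (prim_bd.comp (Primrec.fst.comp Primrec.fst)))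
  exact comp_exb h5.to_comp h4

theorem ex1_iff (p : ((ℤ × ℤ) × ℕ) × (β × ℤ) → Bool) (y : (ℤ × ℤ) × ℕ) (b : β) :
    ex1 p (y, b) = true ↔ ∃ n : ℤ, |n| ≤ bd y.1 ∧ p (y, (b, n)) = true := by
  unfold ex1
  rw [exb_iff]
  simp only
  constructor
  · rintro ⟨i, hi, h⟩
    exact ⟨(i : ℤ) - bd y.1, by rw [abs_le]; constructor <;> omega, h⟩
  · rintro ⟨n, hn, h⟩
    rw [abs_le] at hn
    obtain ⟨h1, h2⟩ := hn
    refine ⟨(n + bd y.1).toNat, by omega, ?_⟩
    have : (((n + bd y.1).toNat : ℕ) : ℤ) - bd y.1 = n := by omega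
    rw [this]
    exact h

end box

/-- the test for one quartic: has the class of the quartic a point with a code below the bound? -/
def hasc (z : ((ℤ × ℤ) × ℕ) × C5) : Bool :=
  exb (fun k => on z.1.1 k && ktb (z.2, (rr k, tt k))) z.1.2

theorem comp_hasc : Computable hasc := by
  have a : Primrec (fun z : (((ℤ × ℤ) × ℕ) × C5) × ℕ => z.1.1.1) :=
    Primrec.fst.comp (Primrec.fst.comp Primrec.fst)
  have g : Primrec (fun z : (((ℤ × ℤ) × ℕ) × C5) × ℕ => z.1.2) := Primrec.snd.comp Primrec.fst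
  have o := prim_on.comp (Primrec.pair a (Primrec.snd (α := ((ℤ × ℤ) × ℕ) × C5) (β := ℕ)))
  have r : Primrec (fun z : (((ℤ × ℤ) × ℕ) × C5) × ℕ => rr z.2) := prim_rr.comp Primrec.snd
  have t : Primrec (fun z : (((ℤ × ℤ) × ℕ) × C5) × ℕ => tt z.2) := prim_tt.comp Primrec.snd
  have h1 := comp_ktb.comp (Primrec.pair g (Primrec.pair r t)).to_comp
  have h2 : Computable₂ (fun (z : ((ℤ × ℤ) × ℕ) × C5) (k : ℕ) =>
      on z.1.1 k && ktb (z.2, (rr k, tt k))) := Primrec.and.to_comp.comp o.to_comp h1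
  have h3 : Primrec (fun z : ((ℤ × ℤ) × ℕ) × C5 => z.1.2) := Primrec.snd.comp Primrec.fst
  exact comp_exb h3.to_comp h2

theorem hasc_iff {A B : ℤ} (hD : 4 * (A : ℚ) ^ 3 + 27 * (B : ℚ) ^ 2 ≠ 0) {g : C5}
    (hI : (toBQ g).I = -48 * A) (hJ : (toBQ g).J = -1728 * B) (n : ℕ) :
    hasc (((A, B), n), g) = true ↔ ∃ k < n, on (A, B) k = true ∧ Kt (toQ (toBQ g)) (xc k) := by
  unfold hasc
  rw [exb_iff]
  constructor
  · rintro ⟨k, hk, h⟩
    rw [Bool.and_eq_true] at h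
    refine ⟨k, hk, h.1, ?_⟩
    have h2 := (on_iff _ _).mp h.1
    exact (ktb_iff g (rr k) (tt k) A B (tt_ne k) hD hI hJ ⟨yc k, h2⟩).mp h.2
  · rintro ⟨k, hk, h1, h2⟩
    refine ⟨k, hk, ?_⟩
    rw [Bool.and_eq_true]
    refine ⟨h1, ?_⟩
    have h3 := (on_iff _ _).mp h1
    exact (ktb_iff g (rr k) (tt k) A B (tt_ne k) hD hI hJ ⟨yc k, h3⟩).mpr h2

def pI : PE := ps (PE.c 12 * PE.v 0 * PE.v 4 + PE.v 2 * PE.v 2) (PE.c 3 * PE.v 1 * PE.v 3)
def pJ : PE := ps (PE.c 72 * PE.v 0 * PE.v 2 * PE.v 4 + PE.c 9 * PE.v 1 * PE.v 2 * PE.v 3)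
  (PE.c 27 * PE.v 0 * PE.v 3 * PE.v 3 + PE.c 27 * PE.v 4 * PE.v 1 * PE.v 1 +
    PE.c 2 * PE.v 2 * PE.v 2 * PE.v 2)

/-- the coefficients as a list -/
def lst (g : C5) : List ℤ := [g.1, g.2.1, g.2.2.1, g.2.2.2.1, g.2.2.2.2]

theorem prim_lst : Primrec lst := by
  have a : Primrec (fun z : C5 => z.1) := Primrec.fst
  have b' : Primrec (fun z : C5 => z.2) := Primrec.snd
  have b := Primrec.fst.comp b'
  have c' := Primrec.snd.comp b'
  have c := Primrec.fst.comp c'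
  have d' := Primrec.snd.comp c'
  have d := Primrec.fst.comp d'
  have e := Primrec.snd.comp d'
  have nil : Primrec (fun _ : C5 => ([] : List ℤ)) := Primrec.const []
  exact Primrec.list_cons.comp a (Primrec.list_cons.comp b (Primrec.list_cons.comp c
    (Primrec.list_cons.comp d (Primrec.list_cons.comp e nil))))

theorem val_pI (g : C5) : pI.val (lst g) = (toBQ g).I := by
  unfold pI lst
  rw [val_ps, val_add]
  simp only [val_mul, PE.val, List.getD_cons_zero, List.getD_cons_succ, toBQ, BQ.I]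
  ring

theorem val_pJ (g : C5) : pJ.val (lst g) = (toBQ g).J := by
  unfold pJ lst
  rw [val_ps, val_add, val_add, val_add]
  simp only [val_mul, PE.val, List.getD_cons_zero, List.getD_cons_succ, toBQ, BQ.J]
  ring

/-- the quartic has infinitely many points, the right invariants and no point below the bound -/
def badg (O : C5 → Bool) (z : ((ℤ × ℤ) × ℕ) × C5) : Bool :=
  (O z.2 && (decide (pI.val (lst z.2) = -48 * z.1.1.1) &&
    decide (pJ.val (lst z.2) = -1728 * z.1.1.2))) && !hasc z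

theorem comp_badg {O : C5 → Bool} (hO : Computable O) : Computable (badg O) := by
  have g : Primrec (fun z : ((ℤ × ℤ) × ℕ) × C5 => z.2) := Primrec.snd
  have a : Primrec (fun z : ((ℤ × ℤ) × ℕ) × C5 => -48 * z.1.1.1) :=
    prim_int_mul.comp (Primrec.const (-48)) (Primrec.fst.comp (Primrec.fst.comp Primrec.fst))
  have b : Primrec (fun z : ((ℤ × ℤ) × ℕ) × C5 => -1728 * z.1.1.2) :=
    prim_int_mul.comp (Primrec.const (-1728)) (Primrec.snd.comp (Primrec.fst.comp Primrec.fst))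
  have h1 := hO.comp g.to_comp
  have h2 := Primrec.eq.decide.comp (prim_val' pI (prim_lst.comp g)) a
  have h3 := Primrec.eq.decide.comp (prim_val' pJ (prim_lst.comp g)) b
  have h4 := Primrec.not.to_comp.comp comp_hasc
  exact Primrec.and.to_comp.comp (Primrec.and.to_comp.comp h1
    (Primrec.and.comp h2 h3).to_comp) h4

theorem badg_iff (O : C5 → Bool) (q : ℤ × ℤ) (n : ℕ) (g : C5) : badg O ((q, n), g) = true ↔
    O g = true ∧ (toBQ g).I = -48 * q.1 ∧ (toBQ g).J = -1728 * q.2 ∧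
      hasc ((q, n), g) = false := by
  unfold badg
  rw [Bool.and_eq_true, Bool.and_eq_true, Bool.and_eq_true, decide_eq_true_eq, decide_eq_true_eq,
    val_pI, val_pJ, Bool.not_eq_true']
  tauto

/-- reordering -/
def conv (w : ((((Unit × ℤ) × ℤ) × ℤ) × ℤ) × ℤ) : C5 :=
  (w.1.1.1.1.2, w.1.1.1.2, w.1.1.2, w.1.2, w.2)

theorem prim_conv : Primrec conv := by
  have w : Primrec (fun w : ((((Unit × ℤ) × ℤ) × ℤ) × ℤ) × ℤ => w.1) := Primrec.fst
  have w2 := Primrec.fst.comp w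
  have w3 := Primrec.fst.comp w2
  have w4 := Primrec.fst.comp w3
  exact Primrec.pair (Primrec.snd.comp w4) (Primrec.pair (Primrec.snd.comp w3)
    (Primrec.pair (Primrec.snd.comp w2) (Primrec.pair (Primrec.snd.comp w) Primrec.snd)))

/-- some quartic in the box is bad -/
def bad (O : C5 → Bool) (y : (ℤ × ℤ) × ℕ) : Bool :=
  ex1 (ex1 (ex1 (ex1 (ex1 (fun z => badg O (z.1, conv z.2)))))) (y, ())

theorem comp_bad {O : C5 → Bool} (hO : Computable O) : Computable (bad O) := by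
  have h1 : Computable (fun z : ((ℤ × ℤ) × ℕ) × (((((Unit × ℤ) × ℤ) × ℤ) × ℤ) × ℤ) =>
      badg O (z.1, conv z.2)) :=
    (comp_badg hO).comp (Primrec.pair Primrec.fst (prim_conv.comp Primrec.snd)).to_comp
  exact (comp_ex1 (comp_ex1 (comp_ex1 (comp_ex1 (comp_ex1 h1))))).comp
    (Primrec.pair Primrec.id (Primrec.const ())).to_comp

theorem bad_iff (O : C5 → Bool) (q : ℤ × ℤ) (n : ℕ) : bad O (q, n) = true ↔
    ∃ g : C5, (|g.1| ≤ bd q ∧ |g.2.1| ≤ bd q ∧ |g.2.2.1| ≤ bd q ∧ |g.2.2.2.1| ≤ bd q ∧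
      |g.2.2.2.2| ≤ bd q) ∧ badg O ((q, n), g) = true := by
  unfold bad
  rw [ex1_iff]
  simp only [ex1_iff, conv]
  constructor
  · rintro ⟨a, ha, b, hb, c, hc, d, hd, e, he, h⟩
    exact ⟨(a, b, c, d, e), ⟨ha, hb, hc, hd, he⟩, h⟩
  · rintro ⟨⟨a, b, c, d, e⟩, ⟨ha, hb, hc, hd, he⟩, h⟩
    exact ⟨a, ha, b, hb, c, hc, d, hd, e, he, h⟩

/-! ### the oracle -/

/-- `O` decides which nonsingular quartics have infinitely many rational points -/
def Dec (O : C5 → Bool) : Prop := ∀ g : C5, O g = true ↔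
  (4 * (toBQ g).I ^ 3 ≠ (toBQ g).J ^ 2 ∧ (Sol (toQ (toBQ g))).Infinite)

theorem box_fin (q : ℤ × ℤ) : {g : C5 | |g.1| ≤ bd q ∧ |g.2.1| ≤ bd q ∧ |g.2.2.1| ≤ bd q ∧
    |g.2.2.2.1| ≤ bd q ∧ |g.2.2.2.2| ≤ bd q}.Finite := by
  have h := Set.finite_Icc (-(bd q : ℤ)) (bd q)
  refine Set.Finite.subset (h.prod (h.prod (h.prod (h.prod h)))) ?_
  rintro ⟨a, b, c, d, e⟩ ⟨h1, h2, h3, h4, h5⟩
  exact ⟨abs_le.mp h1, abs_le.mp h2, abs_le.mp h3, abs_le.mp h4, abs_le.mp h5⟩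

theorem disc_rel (A B : ℤ) : 4 * (-48 * A) ^ 3 - (-1728 * B) ^ 2 =
    -110592 * (4 * A ^ 3 + 27 * B ^ 2) := by ring

theorem ex_B {O : C5 → Bool} (hO : Dec O) (q : ℤ × ℤ) : ∃ n, bad O (q, n) = false := by
  classical
  obtain ⟨A, B⟩ := q
  by_cases hD : 4 * (A : ℚ) ^ 3 + 27 * (B : ℚ) ^ 2 ≠ 0
  · obtain ⟨S, hS⟩ : ∃ S : Set C5, S = {g : C5 | (|g.1| ≤ bd (A, B) ∧ |g.2.1| ≤ bd (A, B) ∧
        |g.2.2.1| ≤ bd (A, B) ∧ |g.2.2.2.1| ≤ bd (A, B) ∧ |g.2.2.2.2| ≤ bd (A, B)) ∧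
        O g = true ∧ (toBQ g).I = -48 * A ∧ (toBQ g).J = -1728 * B} := ⟨_, rfl⟩
    have hfin : S.Finite := (box_fin (A, B)).subset (by rw [hS]; exact fun g hg => hg.1)
    have hex : ∀ g : C5, g ∈ S → ∃ k, on (A, B) k = true ∧ Kt (toQ (toBQ g)) (xc k) := by
      intro g hg
      rw [hS] at hg
      obtain ⟨_, h1, h2, h3⟩ := hg
      have hIq : (toQ (toBQ g)).I = -48 * (A : ℚ) := by rw [toQ_I, h2]; push_cast; rfl
      have hJq : (toQ (toBQ g)).J = -1728 * (B : ℚ) := by rw [toQ_J, h3]; push_cast; rfl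
      obtain ⟨⟨x, y, hE, hk⟩, _⟩ := of_sol hD hIq hJq ((hO g).mp h1).2
      obtain ⟨k, k1, k2, _⟩ := code_of hE
      exact ⟨k, k1, by rw [k2]; exact hk⟩
    choose! kf hkf using hex
    refine ⟨hfin.toFinset.sup kf + 1, ?_⟩
    by_contra hb
    rw [Bool.not_eq_false, bad_iff] at hb
    obtain ⟨g, hg, hb⟩ := hb
    rw [badg_iff] at hb
    obtain ⟨h1, h2, h3, h4⟩ := hb
    have hgS : g ∈ S := by rw [hS]; exact ⟨hg, h1, h2, h3⟩
    obtain ⟨k1, k2⟩ := hkf g hgS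
    have h5 : hasc (((A, B), hfin.toFinset.sup kf + 1), g) = true := by
      rw [hasc_iff hD h2 h3]
      refine ⟨kf g, ?_, k1, k2⟩
      have : kf g ≤ hfin.toFinset.sup kf := Finset.le_sup (hfin.mem_toFinset.mpr hgS)
      omega
    rw [h5] at h4
    exact absurd h4 (by simp)
  · refine ⟨0, ?_⟩
    by_contra hb
    rw [Bool.not_eq_false, bad_iff] at hb
    obtain ⟨g, hg, hb⟩ := hb
    rw [badg_iff] at hb
    obtain ⟨h1, h2, h3, h4⟩ := hb
    apply ((hO g).mp h1).1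
    rw [h2, h3]
    have h5 : 4 * A ^ 3 + 27 * B ^ 2 = 0 := by
      rw [not_not] at hD; exact_mod_cast hD
    have h6 := disc_rel A B
    simp only
    rw [h5] at h6
    linarith

/-- every class has a bounded quartic -/
theorem class_quartic {A B : ℤ} (hD : 4 * (A : ℚ) ^ 3 + 27 * (B : ℚ) ^ 2 ≠ 0) {x y : ℚ}
    (hE : y ^ 2 = x ^ 3 + A * x + B) :
    ∃ g : C5, (|g.1| ≤ bd (A, B) ∧ |g.2.1| ≤ bd (A, B) ∧ |g.2.2.1| ≤ bd (A, B) ∧
      |g.2.2.2.1| ≤ bd (A, B) ∧ |g.2.2.2.2| ≤ bd (A, B)) ∧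
      (toBQ g).I = -48 * A ∧ (toBQ g).J = -1728 * B ∧ Kt (toQ (toBQ g)) x := by
  obtain ⟨g0, hI0, hJ0, hequ⟩ := integral_model hE
  have hDz : 4 * A ^ 3 + 27 * B ^ 2 ≠ 0 := by exact_mod_cast hD
  have hd0 : 4 * g0.I ^ 3 ≠ g0.J ^ 2 := by
    rw [hI0, hJ0]
    intro h
    have h6 := disc_rel A B
    apply hDz
    linarith
  obtain ⟨p, q, r, s, hdet, b1, b2, b3, b4, b5⟩ := reduce g0 hd0
  rw [hI0, hJ0, ← bd_eq] at b1 b2 b3 b4 b5
  obtain ⟨g1, hg1⟩ : ∃ g1, g1 = g0.act p q r s := ⟨_, rfl⟩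
  rw [← hg1] at b1 b2 b3 b4 b5
  refine ⟨(g1.a, g1.b, g1.c, g1.d, g1.e), ⟨b1, b2, b3, b4, b5⟩, ?_, ?_, ?_⟩
  · show g1.I = _
    rw [hg1, I_act, hdet, hI0]; ring
  · show g1.J = _
    rw [hg1, J_act, hdet, hJ0]; ring
  · show Kt (toQ g1) x
    have h1 : Kt (toQ g0) x := hequ.kt_iff.mp (gP_kt _ _ _)
    have h2 : Equ (toQ g0) (toQ g1) := by
      have hdq : (p : ℚ) * s - q * r = 1 := by exact_mod_cast hdet
      refine ⟨p, q, r, s, by rw [hdq]; exact one_ne_zero, ?_⟩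
      rw [hdq, ← toQ_act, ← hg1, one_pow, sm_one]
    exact h2.kt_iff.mp h1

theorem image_univ {O : C5 → Bool} (hO : Dec O) {A B : ℤ}
    (hD : 4 * (A : ℚ) ^ 3 + 27 * (B : ℚ) ^ 2 ≠ 0) (hinf : Infinite (Pts (A : ℚ) (B : ℚ)))
    {n : ℕ} (hn : bad O ((A, B), n) = false) :
    cl A B '' {k | k < n ∧ on (A, B) k = true} = Set.univ := by
  apply Set.eq_univ_of_forall
  intro c
  obtain ⟨P0, rfl⟩ := QuotientAddGroup.mk_surjective c
  obtain ⟨x, y, h, Q, hQ⟩ := coset_affine hinf P0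
  have hE := eqn.mp h.1
  obtain ⟨g, hb, hI, hJ, hk⟩ := class_quartic hD hE
  have hIq : (toQ (toBQ g)).I = -48 * (A : ℚ) := by rw [toQ_I, hI]; push_cast; rfl
  have hJq : (toQ (toBQ g)).J = -1728 * (B : ℚ) := by rw [toQ_J, hJ]; push_cast; rfl
  have hsol := sol_inf hD hIq hJq hE hk hinf
  have hDz : 4 * A ^ 3 + 27 * B ^ 2 ≠ 0 := by exact_mod_cast hD
  have hOg : O g = true := by
    rw [hO]
    refine ⟨?_, hsol⟩
    rw [hI, hJ]
    intro h
    have h6 := disc_rel A B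
    apply hDz
    linarith
  have hhas : hasc (((A, B), n), g) = true := by
    by_contra hcon
    rw [Bool.not_eq_true] at hcon
    have : bad O ((A, B), n) = true := by
      rw [bad_iff]
      exact ⟨g, hb, by rw [badg_iff]; exact ⟨hOg, hI, hJ, hcon⟩⟩
    rw [hn] at this
    exact absurd this (by simp)
  rw [hasc_iff hD hI hJ] at hhas
  obtain ⟨k, hkn, hon, hkt⟩ := hhas
  refine ⟨k, ⟨hkn, hon⟩, ?_⟩
  obtain ⟨Q', hQ'⟩ := same_class hD hIq hJq h (nons hD ((on_iff _ _).mp hon)) hk hkt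
  unfold cl
  symm
  rw [mk_eq_iff, pt_eq hD hon]
  refine ⟨Q + Q', ?_⟩
  rw [hQ', hQ]; abel

/-- the rank function -/
noncomputable def rk (q : ℤ × ℤ) : ℕ :=
  if 4 * q.1 ^ 3 + 27 * q.2 ^ 2 ≠ 0 then
    Module.finrank ℤ ((⟨0, 0, 0, (q.1 : ℚ), (q.2 : ℚ)⟩ : WeierstrassCurve ℚ).toAffine.Point) else 0

theorem rk_eq {A B : ℤ} (hD : 4 * (A : ℚ) ^ 3 + 27 * (B : ℚ) ^ 2 ≠ 0) :
    rk (A, B) = Module.finrank ℤ (Pts (A : ℚ) (B : ℚ)) := by
  unfold rk
  rw [if_pos (by exact_mod_cast hD)]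

theorem fc_find {O : C5 → Bool} (hO : Dec O) {A B : ℤ}
    (hD : 4 * (A : ℚ) ^ 3 + 27 * (B : ℚ) ^ 2 ≠ 0) :
    lgt (fc (A, B) (Nat.find (ex_B hO (A, B)))) (tau (A, B)) = rk (A, B) := by
  rw [rk_eq hD]
  by_cases hinf : Infinite (Pts (A : ℚ) (B : ℚ))
  · rw [fc_eq hD, image_univ hO hD hinf (Nat.find_spec (ex_B hO (A, B)))]
    have h1 : (Set.univ : Set (QG A B)).ncard = Nat.card (QG A B) := Set.ncard_univ _
    rw [h1, card_QG hD]
    exact lgt_pow _ _ (by unfold tau; omega)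
  · have h0 : Module.finrank ℤ (Pts (A : ℚ) (B : ℚ)) = 0 := by
      by_contra h
      exact hinf ((inf_iff_rank hD).mpr h)
    have hbad : bad O ((A, B), 0) = false := by
      by_contra hb
      rw [Bool.not_eq_false, bad_iff] at hb
      obtain ⟨g, hg, hb⟩ := hb
      rw [badg_iff] at hb
      obtain ⟨h1, h2, h3, h4⟩ := hb
      have hIq : (toQ (toBQ g)).I = -48 * (A : ℚ) := by rw [toQ_I, h2]; push_cast; rfl
      have hJq : (toQ (toBQ g)).J = -1728 * (B : ℚ) := by rw [toQ_J, h3]; push_cast; rfl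
      exact hinf (of_sol hD hIq hJq ((hO g).mp h1).2).2
    have hfind : Nat.find (ex_B hO (A, B)) = 0 := by
      rw [Nat.find_eq_zero]; exact hbad
    rw [hfind, h0]
    rfl

attribute [local irreducible] bad fc tau lgt

def pD : PE := PE.c 4 * PE.v 0 * PE.v 0 * PE.v 0 + PE.c 27 * PE.v 1 * PE.v 1

/-- nonvanishing of the discriminant -/
def nd (q : ℤ × ℤ) : Bool := !decide (pD.val [q.1, q.2] = 0)

theorem nd_iff (q : ℤ × ℤ) : nd q = true ↔ 4 * q.1 ^ 3 + 27 * q.2 ^ 2 ≠ 0 := by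
  unfold nd
  rw [Bool.not_eq_true', decide_eq_false_iff_not, pD, val_add]
  simp only [val_mul, PE.val, List.getD_cons_zero, List.getD_cons_succ]
  rw [not_iff_not]
  constructor
  · intro h; linear_combination h
  · intro h; linear_combination h

theorem comp_nd : Computable nd := by
  have nil : Primrec (fun _ : ℤ × ℤ => ([] : List ℤ)) := Primrec.const []
  have hl := Primrec.list_cons.comp (Primrec.fst (α := ℤ) (β := ℤ))
    (Primrec.list_cons.comp (Primrec.snd (α := ℤ) (β := ℤ)) nil)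
  exact (Primrec.not.comp (Primrec.eq.decide.comp (prim_val' pD hl)
    (Primrec.const (0 : ℤ)))).to_comp

theorem fwd {O : C5 → Bool} (hc : Computable O) (hO : Dec O) : Computable rk := by
  have hB : Computable (fun q : ℤ × ℤ => Nat.find (ex_B hO q)) := by
    have h0 : Computable₂ (fun (q : ℤ × ℤ) (n : ℕ) => !bad O (q, n)) :=
      Primrec.not.to_comp.comp (comp_bad hc)
    have h1 : Partrec (fun q : ℤ × ℤ => Nat.rfind (fun n => Part.some (!bad O (q, n)))) :=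
      Partrec.rfind (Computable₂.partrec₂ h0)
    refine Partrec.of_eq_tot h1 (fun q => ?_)
    refine Nat.mem_rfind.mpr ⟨?_, ?_⟩
    · have := Nat.find_spec (ex_B hO q)
      exact Part.mem_some_iff.mpr (by rw [this]; rfl)
    · intro m hm
      have := Nat.find_min (ex_B hO q) hm
      rw [Bool.not_eq_false] at this
      exact Part.mem_some_iff.mpr (by rw [this]; rfl)
  have h1 : Computable (fun q : ℤ × ℤ => fc q (Nat.find (ex_B hO q))) :=
    comp_fc.comp Computable.id hB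
  have h2 : Computable (fun q : ℤ × ℤ => lgt (fc q (Nat.find (ex_B hO q))) (tau q)) :=
    comp_lgt.comp h1 comp_tau
  refine (Computable.cond comp_nd h2 (Computable.const 0)).of_eq (fun q => ?_)
  obtain ⟨A, B⟩ := q
  by_cases hD : 4 * A ^ 3 + 27 * B ^ 2 ≠ 0
  · have hn : nd (A, B) = true := (nd_iff _).mpr hD
    rw [hn, cond_true]
    exact fc_find hO (by exact_mod_cast hD)
  · have hn : nd (A, B) = false := by
      rw [← Bool.not_eq_true, nd_iff]; exact hD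
    rw [hn, cond_false]
    unfold rk
    rw [if_neg hD]

end Pool.Agent.H79.QR
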