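import Mathlib
import Pool.Agent.H79.QR.Fwd

/-!
# An algorithm for the rank gives an algorithm for the quartics
-/

set_option autoImplicit false

namespace Pool.Agent.H79.QR

open Pool.Agent.Helper566.FD.J7 Pool.Agent.TH352.RC BQ WeierstrassCurve

/-- the stopping test -/
noncomputable def stp (q : ℤ × ℤ) (n : ℕ) : Bool :=
  decide (rk q = 0) || decide (fc q n = 2 ^ (rk q) * tau q)

theorem comp_stp (h : Computable rk) : Computable₂ stp := by
  unfold stp
  have h1 : Computable (fun z : (ℤ × ℤ) × ℕ => rk z.1) := h.comp Computable.fst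
  have ht : Computable (fun z : (ℤ × ℤ) × ℕ => tau z.1) := comp_tau.comp Computable.fst
  have h2 : Computable (fun z : (ℤ × ℤ) × ℕ => 2 ^ (rk z.1) * tau z.1) :=
    Primrec.nat_mul.to_comp.comp (prim_pow2.to_comp.comp h1) ht
  have h3 : Computable (fun z : (ℤ × ℤ) × ℕ => fc z.1 z.2) := comp_fc
  exact Primrec.or.to_comp.comp (Primrec.eq.decide.to_comp.comp h1 (Computable.const 0))
    (Primrec.eq.decide.to_comp.comp h3 h2)

theorem rk_ne {A B : ℤ} (h0 : rk (A, B) ≠ 0) : 4 * (A : ℚ) ^ 3 + 27 * (B : ℚ) ^ 2 ≠ 0 := by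
  by_contra hn
  apply h0
  unfold rk
  have h5 : 4 * A ^ 3 + 27 * B ^ 2 = 0 := by exact_mod_cast hn
  rw [if_neg (by simp only; rw [h5]; simp)]

/-- every class has a point with a code -/
theorem cl_surj {A B : ℤ} (hD : 4 * (A : ℚ) ^ 3 + 27 * (B : ℚ) ^ 2 ≠ 0)
    (hinf : Infinite (Pts (A : ℚ) (B : ℚ))) (c : QG A B) :
    ∃ k, on (A, B) k = true ∧ cl A B k = c := by
  obtain ⟨P0, rfl⟩ := QuotientAddGroup.mk_surjective c
  obtain ⟨x, y, h, Q, hQ⟩ := coset_affine hinf P0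
  have hE := eqn.mp h.1
  obtain ⟨k, k1, k2, k3⟩ := code_of hE
  refine ⟨k, k1, ?_⟩
  unfold cl
  symm
  rw [mk_eq_iff, pt_eq hD k1]
  refine ⟨Q, ?_⟩
  rw [← hQ]
  simp only [k2, k3]

theorem stp_ex (q : ℤ × ℤ) : ∃ n, stp q n = true := by
  classical
  obtain ⟨A, B⟩ := q
  unfold stp
  simp only [Bool.or_eq_true, decide_eq_true_eq]
  by_cases h0 : rk (A, B) = 0
  · exact ⟨0, Or.inl h0⟩
  · have hD := rk_ne h0
    have hr := rk_eq hD
    have hinf : Infinite (Pts (A : ℚ) (B : ℚ)) := (inf_iff_rank hD).mpr (by rw [← hr]; exact h0)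
    choose kf hkf using cl_surj hD hinf
    have := QG_fin hD
    have := Fintype.ofFinite (QG A B)
    refine ⟨Finset.univ.sup kf + 1, Or.inr ?_⟩
    have hu : cl A B '' {k | k < Finset.univ.sup kf + 1 ∧ on (A, B) k = true} = Set.univ := by
      apply Set.eq_univ_of_forall
      intro c
      refine ⟨kf c, ⟨?_, (hkf c).1⟩, (hkf c).2⟩
      have : kf c ≤ Finset.univ.sup kf := Finset.le_sup (Finset.mem_univ c)
      omega
    rw [fc_eq hD, hu, Set.ncard_univ, card_QG hD, hr]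

theorem stp_univ {A B : ℤ} (h0 : rk (A, B) ≠ 0) {n : ℕ} (hn : stp (A, B) n = true) :
    cl A B '' {k | k < n ∧ on (A, B) k = true} = Set.univ := by
  have hD := rk_ne h0
  have hr := rk_eq hD
  have := QG_fin hD
  unfold stp at hn
  simp only [Bool.or_eq_true, decide_eq_true_eq] at hn
  have hn' := hn.resolve_left h0
  refine Set.eq_of_subset_of_ncard_le (Set.subset_univ _) ?_ (Set.finite_univ)
  rw [← fc_eq hD, hn', Set.ncard_univ, card_QG hD, hr]

/-! ### the quartic times 36 -/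

/-- the quartic times 36 -/
def g36 (g : C5) : C5 := (36 * g.1, 36 * g.2.1, 36 * g.2.2.1, 36 * g.2.2.2.1, 36 * g.2.2.2.2)

theorem prim_g36 : Primrec g36 := by
  have a : Primrec (fun z : C5 => z.1) := Primrec.fst
  have b' : Primrec (fun z : C5 => z.2) := Primrec.snd
  have b := Primrec.fst.comp b'
  have c' := Primrec.snd.comp b'
  have c := Primrec.fst.comp c'
  have d' := Primrec.snd.comp c'
  have d := Primrec.fst.comp d'
  have e := Primrec.snd.comp d'
  have m : ∀ {f : C5 → ℤ}, Primrec f → Primrec (fun z => 36 * f z) :=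
    fun hf => prim_int_mul.comp (Primrec.const 36) hf
  exact Primrec.pair (m a) (Primrec.pair (m b) (Primrec.pair (m c) (Primrec.pair (m d) (m e))))

theorem toBQ_g36 (g : C5) : toBQ (g36 g) = sm 36 (toBQ g) := rfl

theorem toQ_g36 (g : C5) : toQ (toBQ (g36 g)) = sm 36 (toQ (toBQ g)) := by
  ext <;> simp [g36, toBQ, sm, toQ, BQ.map]

theorem sol36 (g : C5) : (Sol (toQ (toBQ (g36 g)))).Infinite ↔ (Sol (toQ (toBQ g))).Infinite := by
  have h : Sol (toQ (toBQ (g36 g))) = (fun p : ℚ × ℚ => (p.1, 6 * p.2)) '' Sol (toQ (toBQ g)) := by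
    rw [toQ_g36]
    ext ⟨X, w⟩
    simp only [Set.mem_image, Prod.mk.injEq, Prod.exists, Sol, Set.mem_ofPred_eq, ev_sm]
    constructor
    · intro h
      exact ⟨X, w / 6, by rw [div_pow, h]; ring, rfl, by ring⟩
    · rintro ⟨X', w', h, rfl, rfl⟩
      rw [mul_pow, h]; ring
  rw [h]
  apply Set.infinite_image_iff
  intro p _ p' _ hp
  simp only [Prod.mk.injEq] at hp
  exact Prod.ext hp.1 (by linarith [hp.2])

/-- the coefficients of the Jacobian -/
def qf (g : C5) : ℤ × ℤ := (-27 * pI.val (lst g), -27 * pJ.val (lst g))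

theorem prim_qf : Primrec qf := by
  have h2 := prim_val' pI prim_lst
  have h3 := prim_val' pJ prim_lst
  exact Primrec.pair (prim_int_mul.comp (Primrec.const (-27)) h2)
    (prim_int_mul.comp (Primrec.const (-27)) h3)

theorem qf_eq (g : C5) : qf g = (-27 * (toBQ g).I, -27 * (toBQ g).J) := by
  unfold qf; rw [val_pI, val_pJ]

theorem g36_I (g : C5) : (toBQ (g36 g)).I = -48 * (qf g).1 := by
  rw [toBQ_g36, I_sm, qf_eq]; ring

theorem g36_J (g : C5) : (toBQ (g36 g)).J = -1728 * (qf g).2 := by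
  rw [toBQ_g36, J_sm, qf_eq]; ring

theorem qf_disc (g : C5) : 4 * (qf g).1 ^ 3 + 27 * (qf g).2 ^ 2 ≠ 0 ↔
    4 * (toBQ g).I ^ 3 ≠ (toBQ g).J ^ 2 := by
  rw [qf_eq, not_iff_not]
  have h : 4 * (-27 * (toBQ g).I) ^ 3 + 27 * (-27 * (toBQ g).J) ^ 2 =
    19683 * ((toBQ g).J ^ 2 - 4 * (toBQ g).I ^ 3) := by ring
  simp only
  rw [h]
  constructor
  · intro h'
    rcases mul_eq_zero.mp h' with h1 | h1
    · norm_num at h1
    · linarith
  · intro h'
    rw [h']; ring

attribute [local irreducible] bd fc tau lgt nd hasc qf g36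

theorem main_iff (g : C5) (hnd : 4 * (qf g).1 ^ 3 + 27 * (qf g).2 ^ 2 ≠ 0) {n : ℕ}
    (hn : stp (qf g) n = true) :
    (rk (qf g) ≠ 0 ∧ hasc ((qf g, n), g36 g) = true) ↔ (Sol (toQ (toBQ (g36 g)))).Infinite := by
  have hI := g36_I g
  have hJ := g36_J g
  obtain ⟨q, hq⟩ : ∃ q, q = qf g := ⟨_, rfl⟩
  obtain ⟨f, hf⟩ : ∃ f, f = g36 g := ⟨_, rfl⟩
  rw [← hq] at hnd hn hI hJ ⊢
  rw [← hf] at hI hJ ⊢
  obtain ⟨A, B⟩ := q
  simp only at hI hJ hnd
  have hD : 4 * (A : ℚ) ^ 3 + 27 * (B : ℚ) ^ 2 ≠ 0 := by exact_mod_cast hnd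
  have hIq : (toQ (toBQ f)).I = -48 * (A : ℚ) := by rw [toQ_I, hI]; push_cast; rfl
  have hJq : (toQ (toBQ f)).J = -1728 * (B : ℚ) := by rw [toQ_J, hJ]; push_cast; rfl
  have hr := rk_eq hD
  constructor
  · rintro ⟨h0, hh⟩
    have hinf : Infinite (Pts (A : ℚ) (B : ℚ)) := (inf_iff_rank hD).mpr (by rw [← hr]; exact h0)
    rw [hasc_iff hD hI hJ] at hh
    obtain ⟨k, hk, hon, hkt⟩ := hh
    exact sol_inf hD hIq hJq ((on_iff _ _).mp hon) hkt hinf
  · intro hsol
    obtain ⟨⟨x, y, hE, hk⟩, hinf⟩ := of_sol hD hIq hJq hsol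
    have h0 : rk (A, B) ≠ 0 := by rw [hr]; exact (inf_iff_rank hD).mp hinf
    refine ⟨h0, ?_⟩
    rw [hasc_iff hD hI hJ]
    have hu := stp_univ h0 hn
    have hc : (QuotientAddGroup.mk (Affine.Point.some x y (nons hD hE) : Pts (A : ℚ) (B : ℚ)) :
        QG A B) ∈ cl A B '' {k | k < n ∧ on (A, B) k = true} := by rw [hu]; exact Set.mem_univ _
    obtain ⟨k, ⟨hkn, hon⟩, hcl⟩ := hc
    refine ⟨k, hkn, hon, ?_⟩
    unfold cl at hcl
    have hcl' := hcl.symm
    rw [mk_eq_iff, pt_eq hD hon] at hcl'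
    obtain ⟨Q, hQ⟩ := hcl'
    exact class_kt hD hIq hJq (nons hD hE) (nons hD ((on_iff _ _).mp hon)) hk hQ

theorem rev (h : Computable rk) : ∃ O : C5 → Bool, Computable O ∧ Dec O := by
  have hB : Computable (fun q : ℤ × ℤ => Nat.find (stp_ex q)) := by
    have h0 : Computable₂ (fun (q : ℤ × ℤ) (n : ℕ) => stp q n) := comp_stp h
    have h1 : Partrec (fun q : ℤ × ℤ => Nat.rfind (fun n => Part.some (stp q n))) :=
      Partrec.rfind (Computable₂.partrec₂ h0)
    refine Partrec.of_eq_tot h1 (fun q => ?_)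
    refine Nat.mem_rfind.mpr ⟨?_, ?_⟩
    · have := Nat.find_spec (stp_ex q)
      exact Part.mem_some_iff.mpr this.symm
    · intro m hm
      have := Nat.find_min (stp_ex q) hm
      rw [Bool.not_eq_true] at this
      exact Part.mem_some_iff.mpr this.symm
  refine ⟨fun g => nd (qf g) && (!decide (rk (qf g) = 0) &&
    hasc ((qf g, Nat.find (stp_ex (qf g))), g36 g)), ?_, ?_⟩
  · have h1 : Computable (fun g : C5 => nd (qf g)) := comp_nd.comp prim_qf.to_comp
    have h2 : Computable (fun g : C5 => !decide (rk (qf g) = 0)) :=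
      Primrec.not.to_comp.comp (Primrec.eq.decide.to_comp.comp (h.comp prim_qf.to_comp)
        (Computable.const 0))
    have h3 : Computable (fun g : C5 => Nat.find (stp_ex (qf g))) := hB.comp prim_qf.to_comp
    have h4 : Computable (fun g : C5 => hasc ((qf g, Nat.find (stp_ex (qf g))), g36 g)) :=
      comp_hasc.comp (Computable.pair (Computable.pair prim_qf.to_comp h3) prim_g36.to_comp)
    exact Primrec.and.to_comp.comp h1 (Primrec.and.to_comp.comp h2 h4)
  · intro g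
    simp only [Bool.and_eq_true, Bool.not_eq_true', decide_eq_false_iff_not]
    rw [nd_iff, qf_disc]
    constructor
    · rintro ⟨h1, h2, h3⟩
      refine ⟨h1, ?_⟩
      rw [← sol36]
      exact (main_iff g ((qf_disc g).mpr h1) (Nat.find_spec (stp_ex (qf g)))).mp ⟨h2, h3⟩
    · rintro ⟨h1, h2⟩
      rw [← sol36] at h2
      have h3 := (main_iff g ((qf_disc g).mpr h1) (Nat.find_spec (stp_ex (qf g)))).mpr h2
      exact ⟨h1, h3.1, h3.2⟩

end Pool.Agent.H79.QR
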