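import Mathlib
import Pool.Agent.H79.QR.Rev

/-!
# Oracle computability: basic combinators
-/

set_option autoImplicit false

namespace Pool.Agent.H79.QR

open Encodable

section tur

variable {α β γ σ : Type} [Primcodable α] [Primcodable β] [Primcodable γ] [Primcodable σ]
variable {O : Set (ℕ →. ℕ)}

/-- the partial function on codes of a total function -/
def orc (f : α → σ) : ℕ →. ℕ := fun n => Part.bind (decode (α := α) n) fun a => Part.some (encode (f a))

theorem comp_in_iff (f : α → σ) : ComputableIn O f ↔ Nat.RecursiveIn O (orc f) := by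
  unfold ComputableIn RecursiveIn orc
  simp only [Part.map_some]

theorem orc_self (f : α → σ) : ComputableIn {orc f} f := by
  rw [comp_in_iff]
  exact Nat.RecursiveIn.oracle _ (Set.mem_singleton _)

theorem red_of {f : α → σ} {g : β → γ} (h : ComputableIn {orc f} g) :
    TuringReducible (orc g) (orc f) := by
  unfold TuringReducible
  rw [RecursiveIn.iff_nat]
  exact (comp_in_iff g).mp h

theorem ccomp {f : β → σ} {g : α → β} (hf : ComputableIn O f) (hg : ComputableIn O g) :
    ComputableIn O (fun a => f (g a)) := by
  rw [comp_in_iff] at hf hg ⊢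
  refine (Nat.RecursiveIn.comp hf hg).of_eq fun n => ?_
  unfold orc
  rcases e : decode (α := α) n with - | a <;> simp

theorem cpair {f : α → β} {g : α → γ} (hf : ComputableIn O f) (hg : ComputableIn O g) :
    ComputableIn O (fun a => (f a, g a)) := by
  rw [comp_in_iff] at hf hg ⊢
  refine (Nat.RecursiveIn.pair hf hg).of_eq fun n => ?_
  unfold orc
  rcases e : decode (α := α) n with - | a <;> simp [Seq.seq]

theorem cfind {p : α × ℕ → Bool} (hp : ComputableIn O p) (h : ∀ a, ∃ n, p (a, n) = true) :
    ComputableIn O (fun a => Nat.find (h a)) := by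
  have h1 : ComputableIn O (fun b : Bool => if b then 0 else 1) :=
    (Primrec.dom_finite (fun b : Bool => if b then 0 else 1)).computableIn
  have h2 : ComputableIn O (fun z : α × ℕ => if p z then 0 else 1) := ccomp h1 hp
  rw [comp_in_iff] at h2 ⊢
  refine (Nat.RecursiveIn.rfind h2).of_eq fun n => ?_
  unfold orc
  rcases e : decode (α := α) n with - | a
  · simp [e]
    exact Nat.rfind_zero_none _ rfl
  · simp only [Part.coe_some, Part.bind_some]
    rw [Part.eq_some_iff]
    refine Nat.mem_rfind.mpr ⟨?_, ?_⟩
    · have := Nat.find_spec (h a)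
      simp [e, this]
    · intro m hm
      have := Nat.find_min (h a) hm
      rw [Bool.not_eq_true] at this
      simp [e, this]

theorem ctab {F : ℕ → Bool} (hF : ComputableIn O F) :
    ComputableIn O (fun n => (List.range n).map F) := by
  have h1 : ComputableIn O (fun z : ℕ × (ℕ × List Bool) => z.2.2 ++ [F z.2.1]) := by
    have a : ComputableIn O (fun z : ℕ × (ℕ × List Bool) => F z.2.1) :=
      ccomp hF (Primrec.fst.comp Primrec.snd).computableIn
    have b : ComputableIn O (fun z : ℕ × (ℕ × List Bool) => z.2.2) :=
      (Primrec.snd.comp Primrec.snd).computableIn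
    have c : ComputableIn O (fun z : List Bool × Bool => z.1 ++ [z.2]) :=
      Primrec.list_concat.computableIn
    exact ccomp c (cpair b a)
  have h0 : ComputableIn O (fun _ : ℕ => ([] : List Bool)) := ComputableIn.const _
  rw [comp_in_iff] at h1 h0 ⊢
  have h2 := Nat.RecursiveIn.prec h0 h1
  have h3 : Nat.RecursiveIn O (fun n => (Nat.pair 0 n : ℕ)) :=
    Nat.Primrec.recursiveIn (Nat.Primrec.pair (Nat.Primrec.const 0) Nat.Primrec.id)
  refine (Nat.RecursiveIn.comp h2 h3).of_eq fun n => ?_
  unfold orc
  have key : ∀ n : ℕ, (Nat.rec (Part.bind (Part.ofOption (decode (α := ℕ) 0)) fun _ =>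
      Part.some (encode ([] : List Bool))) (fun y IH => do
          let i ← IH
          Part.bind (Part.ofOption (decode (α := ℕ × (ℕ × List Bool))
            (Nat.pair 0 (Nat.pair y i)))) fun a =>
            Part.some (encode (a.2.2 ++ [F a.2.1]))) n : Part ℕ) =
      Part.some (encode ((List.range n).map F)) := by
    intro n
    induction n with
    | zero => simp
    | succ n ih =>
      simp only [ih]
      simp [List.range_succ]
  simpa using key n

end tur

end Pool.Agent.H79.QR
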