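import Mathlib
import Pool.Agent.H79.QR.Tur

/-!
# Turing equivalence of the rank function and the decision problem for the quartics
-/

set_option autoImplicit false

namespace Pool.Agent.H79.QR

open Pool.Agent.Helper566.FD.J7 Pool.Agent.TH352.RC BQ WeierstrassCurve Encodable

/-- the test with a table of oracle values -/
def bgt (z : (((ℤ × ℤ) × ℕ) × C5) × List Bool) : Bool :=
  decide (z.2.length ≤ encode z.1.2) || ((z.2.getD (encode z.1.2) false &&
    (decide (pI.val (lst z.1.2) = -48 * z.1.1.1.1) &&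
      decide (pJ.val (lst z.1.2) = -1728 * z.1.1.1.2))) && !hasc z.1)

theorem comp_bgt : Computable bgt := by
  have L : Primrec (fun z : (((ℤ × ℤ) × ℕ) × C5) × List Bool => z.2) := Primrec.snd
  have w : Primrec (fun z : (((ℤ × ℤ) × ℕ) × C5) × List Bool => z.1) := Primrec.fst
  have g : Primrec (fun z : (((ℤ × ℤ) × ℕ) × C5) × List Bool => z.1.2) := Primrec.snd.comp w
  have ge : Primrec (fun z : (((ℤ × ℤ) × ℕ) × C5) × List Bool => encode z.1.2) :=
    Primrec.encode.comp g
  have a : Primrec (fun z : (((ℤ × ℤ) × ℕ) × C5) × List Bool => -48 * z.1.1.1.1) :=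
    prim_int_mul.comp (Primrec.const (-48)) (Primrec.fst.comp (Primrec.fst.comp (Primrec.fst.comp w)))
  have b : Primrec (fun z : (((ℤ × ℤ) × ℕ) × C5) × List Bool => -1728 * z.1.1.1.2) :=
    prim_int_mul.comp (Primrec.const (-1728))
      (Primrec.snd.comp (Primrec.fst.comp (Primrec.fst.comp w)))
  have h0 := Primrec.nat_le.decide.comp (Primrec.list_length.comp L) ge
  have h1 := (Primrec.list_getD false).comp L ge
  have h2 := Primrec.eq.decide.comp (prim_val' pI (prim_lst.comp g)) a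
  have h3 := Primrec.eq.decide.comp (prim_val' pJ (prim_lst.comp g)) b
  have h4 := Primrec.not.to_comp.comp (comp_hasc.comp w.to_comp)
  exact Primrec.or.to_comp.comp h0.to_comp (Primrec.and.to_comp.comp
    (Primrec.and.comp h1 (Primrec.and.comp h2 h3)).to_comp h4)

/-- reordering -/
def conv2 (w : ((((List Bool × ℤ) × ℤ) × ℤ) × ℤ) × ℤ) : C5 × List Bool :=
  ((w.1.1.1.1.2, w.1.1.1.2, w.1.1.2, w.1.2, w.2), w.1.1.1.1.1)

theorem prim_conv2 : Primrec conv2 := by
  have w : Primrec (fun w : ((((List Bool × ℤ) × ℤ) × ℤ) × ℤ) × ℤ => w.1) := Primrec.fst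
  have w2 := Primrec.fst.comp w
  have w3 := Primrec.fst.comp w2
  have w4 := Primrec.fst.comp w3
  exact Primrec.pair (Primrec.pair (Primrec.snd.comp w4) (Primrec.pair (Primrec.snd.comp w3)
    (Primrec.pair (Primrec.snd.comp w2) (Primrec.pair (Primrec.snd.comp w) Primrec.snd))))
    (Primrec.fst.comp w4)

/-- some quartic in the box is bad or beyond the table -/
def badT (y : ((ℤ × ℤ) × ℕ) × List Bool) : Bool :=
  ex1 (ex1 (ex1 (ex1 (ex1 (fun z => bgt ((z.1, (conv2 z.2).1), (conv2 z.2).2)))))) y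

theorem comp_badT : Computable badT := by
  have h1 : Computable (fun z : ((ℤ × ℤ) × ℕ) × (((((List Bool × ℤ) × ℤ) × ℤ) × ℤ) × ℤ) =>
      bgt ((z.1, (conv2 z.2).1), (conv2 z.2).2)) := by
    have c := prim_conv2.comp (Primrec.snd (α := (ℤ × ℤ) × ℕ)
      (β := ((((List Bool × ℤ) × ℤ) × ℤ) × ℤ) × ℤ))
    exact comp_bgt.comp (Primrec.pair (Primrec.pair Primrec.fst (Primrec.fst.comp c))
      (Primrec.snd.comp c)).to_comp
  exact comp_ex1 (comp_ex1 (comp_ex1 (comp_ex1 (comp_ex1 h1))))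

theorem badT_iff (q : ℤ × ℤ) (n : ℕ) (L : List Bool) : badT ((q, n), L) = true ↔
    ∃ g : C5, (|g.1| ≤ bd q ∧ |g.2.1| ≤ bd q ∧ |g.2.2.1| ≤ bd q ∧ |g.2.2.2.1| ≤ bd q ∧
      |g.2.2.2.2| ≤ bd q) ∧ bgt (((q, n), g), L) = true := by
  unfold badT
  rw [ex1_iff]
  simp only [ex1_iff, conv2]
  constructor
  · rintro ⟨a, ha, b, hb, c, hc, d, hd, e, he, h⟩
    exact ⟨(a, b, c, d, e), ⟨ha, hb, hc, hd, he⟩, h⟩
  · rintro ⟨⟨a, b, c, d, e⟩, ⟨ha, hb, hc, hd, he⟩, h⟩
    exact ⟨a, ha, b, hb, c, hc, d, hd, e, he, h⟩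

/-- the oracle on the codes -/
def onc (O : C5 → Bool) (n : ℕ) : Bool := O ((decode (α := C5) n).getD (0, 0, 0, 0, 0))

/-- the table of the first `n` values -/
def tab (O : C5 → Bool) (n : ℕ) : List Bool := (List.range n).map (onc O)

theorem comp_tab (O : C5 → Bool) : ComputableIn {orc O} (tab O) := by
  refine ctab ?_
  have h : Primrec (fun n : ℕ => (decode (α := C5) n).getD (0, 0, 0, 0, 0)) :=
    Primrec.option_getD.comp Primrec.decode (Primrec.const _)
  have h2 := ccomp (f := O) (g := fun n : ℕ => (decode (α := C5) n).getD (0, 0, 0, 0, 0))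
    (orc_self O) h.computableIn
  unfold onc
  exact h2

theorem bgt_iff (O : C5 → Bool) (q : ℤ × ℤ) (n : ℕ) (g : C5) :
    bgt (((q, n), g), tab O n) = true ↔ n ≤ encode g ∨ badg O ((q, n), g) = true := by
  have hl : (tab O n).length = n := by simp [tab]
  unfold bgt
  simp only [hl]
  by_cases h : n ≤ encode g
  · simp [h]
  · have h1 : (tab O n).getD (encode g) false = O g := by
      unfold tab
      rw [List.getD_eq_getElem _ _ (by simpa using not_le.mp h), List.getElem_map,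
        List.getElem_range]
      unfold onc
      rw [encodek]
      rfl
    rw [h1]
    unfold badg
    simp [h]

theorem hasc_mono {q : ℤ × ℤ} {n m : ℕ} (hnm : n ≤ m) {g : C5} (h : hasc ((q, n), g) = true) :
    hasc ((q, m), g) = true := by
  unfold hasc at h ⊢
  rw [exb_iff] at h ⊢
  obtain ⟨k, hk, h⟩ := h
  exact ⟨k, lt_of_lt_of_le hk hnm, h⟩

theorem ex_T {O : C5 → Bool} (hO : Dec O) (q : ℤ × ℤ) :
    ∃ n, (!badT ((q, n), tab O n)) = true := by
  classical
  obtain ⟨n0, h0⟩ := ex_B hO q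
  have hfin := box_fin q
  refine ⟨max n0 (hfin.toFinset.sup (fun g => encode g) + 1), ?_⟩
  rw [Bool.not_eq_true']
  by_contra hb
  rw [Bool.not_eq_false, badT_iff] at hb
  obtain ⟨g, hg, hb⟩ := hb
  rw [bgt_iff] at hb
  rcases hb with hb | hb
  · have h1 : encode g ≤ hfin.toFinset.sup (fun g => encode g) :=
      Finset.le_sup (f := fun g : C5 => encode g) (hfin.mem_toFinset.mpr hg)
    omega
  · rw [badg_iff] at hb
    obtain ⟨h1, h2, h3, h4⟩ := hb
    have h5 : bad O (q, n0) = true := by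
      rw [bad_iff]
      refine ⟨g, hg, ?_⟩
      rw [badg_iff]
      refine ⟨h1, h2, h3, ?_⟩
      by_contra h6
      rw [Bool.not_eq_false] at h6
      rw [hasc_mono (le_max_left _ _) h6] at h4
      exact absurd h4 (by simp)
    rw [h0] at h5
    exact absurd h5 (by simp)

theorem bad_of_badT {O : C5 → Bool} {q : ℤ × ℤ} {n : ℕ}
    (h : (!badT ((q, n), tab O n)) = true) : bad O (q, n) = false := by
  rw [Bool.not_eq_true'] at h
  by_contra hb
  rw [Bool.not_eq_false, bad_iff] at hb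
  obtain ⟨g, hg, hb⟩ := hb
  have : badT ((q, n), tab O n) = true := by
    rw [badT_iff]
    exact ⟨g, hg, by rw [bgt_iff]; exact Or.inr hb⟩
  rw [h] at this
  exact absurd this (by simp)

theorem lgt_small {m t : ℕ} (h : m ≤ t) (ht : 1 ≤ t) : lgt m t = 0 := by
  unfold lgt
  rw [cnt_eq, Finset.card_eq_zero]
  apply Finset.filter_eq_empty_iff.mpr
  intro k _
  rw [decide_eq_true_eq, not_le]
  have : 1 * t < 2 ^ (k + 1) * t :=
    Nat.mul_lt_mul_of_pos_right (Nat.one_lt_two_pow (by omega)) (by omega)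
  omega

theorem fc_val {O : C5 → Bool} (hO : Dec O) {A B : ℤ}
    (hD : 4 * (A : ℚ) ^ 3 + 27 * (B : ℚ) ^ 2 ≠ 0) {n : ℕ} (hn : bad O ((A, B), n) = false) :
    lgt (fc (A, B) n) (tau (A, B)) = rk (A, B) := by
  have ht : 1 ≤ tau (A, B) := by unfold tau; omega
  rw [rk_eq hD]
  by_cases hinf : Infinite (Pts (A : ℚ) (B : ℚ))
  · rw [fc_eq hD, image_univ hO hD hinf hn]
    rw [Set.ncard_univ, card_QG hD]
    exact lgt_pow _ _ ht
  · have h0 : Module.finrank ℤ (Pts (A : ℚ) (B : ℚ)) = 0 := by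
      by_contra h
      exact hinf ((inf_iff_rank hD).mpr h)
    have := QG_fin hD
    have h1 : fc (A, B) n ≤ tau (A, B) := by
      rw [fc_eq hD]
      refine (Set.ncard_le_ncard (Set.subset_univ _) Set.finite_univ).trans ?_
      rw [Set.ncard_univ, card_QG hD, h0]
      simp
    rw [lgt_small h1 ht, h0]

attribute [local irreducible] bd fc tau lgt nd hasc qf g36 badT

/-- the rank from the bound -/
def rkf (z : (ℤ × ℤ) × ℕ) : ℕ := cond (nd z.1) (lgt (fc z.1 z.2) (tau z.1)) 0

theorem comp_rkf : Computable rkf := by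
  have q : Computable (fun z : (ℤ × ℤ) × ℕ => z.1) := Computable.fst
  have h1 : Computable (fun z : (ℤ × ℤ) × ℕ => fc z.1 z.2) := comp_fc
  have h2 : Computable (fun z : (ℤ × ℤ) × ℕ => lgt (fc z.1 z.2) (tau z.1)) :=
    comp_lgt.comp h1 (comp_tau.comp q)
  exact Computable.cond (comp_nd.comp q) h2 (Computable.const 0)

/-- the rank function is computable with the oracle for the quartics -/
theorem rk_in {O : C5 → Bool} (hO : Dec O) : ComputableIn {orc O} rk := by
  have h1 : ComputableIn {orc O} (fun z : (ℤ × ℤ) × ℕ => !badT ((z.1, z.2), tab O z.2)) := by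
    have a : ComputableIn {orc O} (fun z : (ℤ × ℤ) × ℕ => tab O z.2) :=
      ccomp (comp_tab O) Primrec.snd.computableIn
    have b : ComputableIn {orc O} (fun z : (ℤ × ℤ) × ℕ => (z, tab O z.2)) :=
      cpair Primrec.id.computableIn a
    exact ccomp Primrec.not.computableIn (ccomp comp_badT.computableIn b)
  have h2 := cfind h1 (fun q => ex_T hO q)
  have h3 := ccomp comp_rkf.computableIn (cpair Primrec.id.computableIn h2)
  have h4 : (fun a : ℤ × ℤ => rkf (id a, Nat.find (ex_T hO a))) = rk := by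
    funext q
    obtain ⟨A, B⟩ := q
    unfold rkf
    by_cases hD : 4 * A ^ 3 + 27 * B ^ 2 ≠ 0
    · have hn : nd (A, B) = true := (nd_iff _).mpr hD
      simp only [id]
      rw [hn, cond_true]
      exact fc_val hO (by exact_mod_cast hD) (bad_of_badT (Nat.find_spec (ex_T hO (A, B))))
    · have hn : nd (A, B) = false := by
        rw [← Bool.not_eq_true, nd_iff]; exact hD
      simp only [id]
      rw [hn, cond_false]
      unfold rk
      rw [if_neg hD]
  rw [← h4]
  exact h3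

/-- the stopping test with a given rank -/
def stc (z : ((ℤ × ℤ) × ℕ) × ℕ) : Bool :=
  decide (z.2 = 0) || decide (fc z.1.1 z.1.2 = 2 ^ z.2 * tau z.1.1)

theorem comp_stc : Computable stc := by
  have r : Computable (fun z : ((ℤ × ℤ) × ℕ) × ℕ => z.2) := Computable.snd
  have q : Computable (fun z : ((ℤ × ℤ) × ℕ) × ℕ => z.1.1) := Computable.fst.comp Computable.fst
  have h2 : Computable (fun z : ((ℤ × ℤ) × ℕ) × ℕ => 2 ^ z.2 * tau z.1.1) :=
    Primrec.nat_mul.to_comp.comp (prim_pow2.to_comp.comp r) (comp_tau.comp q)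
  have h3 : Computable (fun z : (ℤ × ℤ) × ℕ => fc z.1 z.2) := comp_fc
  have h4 : Computable (fun z : ((ℤ × ℤ) × ℕ) × ℕ => fc z.1.1 z.1.2) := h3.comp Computable.fst
  exact Primrec.or.to_comp.comp (Primrec.eq.decide.to_comp.comp r (Computable.const 0))
    (Primrec.eq.decide.to_comp.comp h4 h2)

/-- the decision from the rank and the bound -/
def dcs (z : C5 × (ℕ × ℕ)) : Bool :=
  nd (qf z.1) && (!decide (z.2.1 = 0) && hasc ((qf z.1, z.2.2), g36 z.1))

theorem comp_dcs : Computable dcs := by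
  have g : Computable (fun z : C5 × (ℕ × ℕ) => z.1) := Computable.fst
  have r : Computable (fun z : C5 × (ℕ × ℕ) => z.2.1) := Computable.fst.comp Computable.snd
  have n : Computable (fun z : C5 × (ℕ × ℕ) => z.2.2) := Computable.snd.comp Computable.snd
  have q : Computable (fun z : C5 × (ℕ × ℕ) => qf z.1) := prim_qf.to_comp.comp g
  have f : Computable (fun z : C5 × (ℕ × ℕ) => g36 z.1) := prim_g36.to_comp.comp g
  have h1 : Computable (fun z : C5 × (ℕ × ℕ) => nd (qf z.1)) := comp_nd.comp q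
  have h2 : Computable (fun z : C5 × (ℕ × ℕ) => !decide (z.2.1 = 0)) :=
    Primrec.not.to_comp.comp (Primrec.eq.decide.to_comp.comp r (Computable.const 0))
  have h3 : Computable (fun z : C5 × (ℕ × ℕ) => hasc ((qf z.1, z.2.2), g36 z.1)) :=
    comp_hasc.comp (Computable.pair (Computable.pair q n) f)
  have h4 : Computable (fun z : C5 × (ℕ × ℕ) =>
      !decide (z.2.1 = 0) && hasc ((qf z.1, z.2.2), g36 z.1)) :=
    Primrec.and.to_comp.comp h2 h3
  have h5 : Computable (fun z : C5 × (ℕ × ℕ) =>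
      nd (qf z.1) && (!decide (z.2.1 = 0) && hasc ((qf z.1, z.2.2), g36 z.1))) :=
    Primrec.and.to_comp.comp h1 h4
  exact h5

theorem dcs_iff (g : C5) : dcs (g, (rk (qf g), Nat.find (stp_ex (qf g)))) = true ↔
    (4 * (toBQ g).I ^ 3 ≠ (toBQ g).J ^ 2 ∧ (Sol (toQ (toBQ g))).Infinite) := by
  unfold dcs
  simp only [Bool.and_eq_true, Bool.not_eq_true', decide_eq_false_iff_not]
  rw [nd_iff, qf_disc]
  constructor
  · rintro ⟨h1, h2, h3⟩
    refine ⟨h1, ?_⟩
    rw [← sol36]
    exact (main_iff g ((qf_disc g).mpr h1) (Nat.find_spec (stp_ex (qf g)))).mp ⟨h2, h3⟩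
  · rintro ⟨h1, h2⟩
    rw [← sol36] at h2
    have h3 := (main_iff g ((qf_disc g).mpr h1) (Nat.find_spec (stp_ex (qf g)))).mpr h2
    exact ⟨h1, h3.1, h3.2⟩

theorem stp_stc (z : (ℤ × ℤ) × ℕ) : stp z.1 z.2 = stc (z, rk z.1) := rfl

attribute [local irreducible] rk stp dcs stc

theorem rk_fst : ComputableIn {orc rk} (fun z : (ℤ × ℤ) × ℕ => rk z.1) :=
  ccomp (f := rk) (g := fun z : (ℤ × ℤ) × ℕ => z.1) (orc_self rk) Primrec.fst.computableIn

theorem stp_in : ComputableIn {orc rk} (fun z : (ℤ × ℤ) × ℕ => stp z.1 z.2) := by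
  have h1 : ComputableIn {orc rk} (fun z : (ℤ × ℤ) × ℕ => (z, rk z.1)) :=
    cpair (f := fun z : (ℤ × ℤ) × ℕ => z) Primrec.id.computableIn rk_fst
  have h2 : ComputableIn {orc rk} (fun z : (ℤ × ℤ) × ℕ => stc (z, rk z.1)) :=
    ccomp (f := stc) comp_stc.computableIn h1
  have h3 : (fun z : (ℤ × ℤ) × ℕ => stp z.1 z.2) = (fun z : (ℤ × ℤ) × ℕ => stc (z, rk z.1)) :=
    funext stp_stc
  rw [h3]
  exact h2

/-- the bound -/
noncomputable def fnd (q : ℤ × ℤ) : ℕ := Nat.find (stp_ex q)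

theorem fnd_in : ComputableIn {orc rk} fnd :=
  cfind (p := fun z : (ℤ × ℤ) × ℕ => stp z.1 z.2) stp_in (fun q => stp_ex q)

/-- the quartics are decidable with the oracle for the rank -/
theorem dec_in {O : C5 → Bool} (hO : Dec O) : ComputableIn {orc rk} O := by
  have q : ComputableIn {orc rk} qf := prim_qf.computableIn
  have h3 : ComputableIn {orc rk} (fun g : C5 => rk (qf g)) :=
    ccomp (f := rk) (orc_self rk) q
  have h4 : ComputableIn {orc rk} (fun g : C5 => fnd (qf g)) :=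
    ccomp (f := fnd) fnd_in q
  have h5 : ComputableIn {orc rk} (fun g : C5 => (rk (qf g), fnd (qf g))) := cpair h3 h4
  have h7 : ComputableIn {orc rk} (fun g : C5 => (g, (rk (qf g), fnd (qf g)))) :=
    cpair (f := fun g : C5 => g) Primrec.id.computableIn h5
  have h8 : ComputableIn {orc rk} (fun g : C5 => dcs (g, (rk (qf g), fnd (qf g)))) :=
    ccomp (f := dcs) comp_dcs.computableIn h7
  have h6 : (fun g : C5 => dcs (g, (rk (qf g), fnd (qf g)))) = O := by
    funext g
    rw [Bool.eq_iff_iff, hO]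
    exact dcs_iff g
  rw [← h6]
  exact h8

end Pool.Agent.H79.QR
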