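import Mathlib
import Pool.Agent.H79.QR.Tur2

/-!
# The decision problem for plane curves and the ranks
-/

set_option autoImplicit false

namespace Pool.Agent.H79.QR

open Pool.Agent.Helper566.FD.J7 Pool.Agent.TH352.RC BQ WeierstrassCurve Encodable

/-- `f = 0` has infinitely many rational solutions -/
def InfZ (L : List (List ℤ)) : Prop :=
  Set.Infinite {p : ℚ × ℚ | ∑ i ∈ Finset.range L.length,
    ∑ j ∈ Finset.range (L.getD i []).length,
      (((L.getD i []).getD j 0 : ℤ) : ℚ) * p.1 ^ i * p.2 ^ j = 0}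

/-- the coefficient lists of `y² - (a x⁴ + b x³ + c x² + d x + e)` -/
def quart (g : C5) : List (List ℤ) :=
  [[-g.2.2.2.2, 0, 1], [-g.2.2.2.1], [-g.2.2.1], [-g.2.1], [-g.1]]

theorem quart_eval (g : C5) (x y : ℚ) : ∑ i ∈ Finset.range (quart g).length,
    ∑ j ∈ Finset.range ((quart g).getD i []).length,
      ((((quart g).getD i []).getD j 0 : ℤ) : ℚ) * x ^ i * y ^ j =
      y ^ 2 - (g.1 * x ^ 4 + g.2.1 * x ^ 3 + g.2.2.1 * x ^ 2 + g.2.2.2.1 * x + g.2.2.2.2) := by
  simp [quart, Finset.sum_range_succ]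
  ring

theorem inf_quart (g : C5) : InfZ (quart g) ↔ (Sol (toQ (toBQ g))).Infinite := by
  unfold InfZ Sol
  have : {p : ℚ × ℚ | ∑ i ∈ Finset.range (quart g).length,
      ∑ j ∈ Finset.range ((quart g).getD i []).length,
        ((((quart g).getD i []).getD j 0 : ℤ) : ℚ) * p.1 ^ i * p.2 ^ j = 0} =
      {p : ℚ × ℚ | p.2 ^ 2 = (toQ (toBQ g)).ev p.1 1} := by
    ext ⟨x, y⟩
    simp only [Set.mem_ofPred_eq]
    rw [quart_eval]
    simp only [ev, toQ_a, toQ_b, toQ_c, toQ_d, toQ_e, toBQ]
    constructor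
    · intro h; linear_combination h
    · intro h; linear_combination h
  rw [this]

theorem prim_quart : Primrec quart := by
  have a : Primrec (fun z : C5 => z.1) := Primrec.fst
  have b' : Primrec (fun z : C5 => z.2) := Primrec.snd
  have b := Primrec.fst.comp b'
  have c' := Primrec.snd.comp b'
  have c := Primrec.fst.comp c'
  have d' := Primrec.snd.comp c'
  have d := Primrec.fst.comp d'
  have e := Primrec.snd.comp d'
  have m : ∀ {f : C5 → ℤ}, Primrec f → Primrec (fun z => -f z) := by
    intro f hf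
    exact (prim_int_sub.comp (Primrec.const (0 : ℤ)) hf).of_eq (fun z => by ring)
  have nil : Primrec (fun _ : C5 => ([] : List ℤ)) := Primrec.const []
  have nil2 : Primrec (fun _ : C5 => ([] : List (List ℤ))) := Primrec.const []
  have one : ∀ {f : C5 → ℤ}, Primrec f → Primrec (fun z => [f z]) :=
    fun hf => Primrec.list_cons.comp hf nil
  have l1 : Primrec (fun z : C5 => [-z.2.2.2.2, 0, 1]) :=
    Primrec.list_cons.comp (m e) (Primrec.const [0, 1])
  exact Primrec.list_cons.comp l1 (Primrec.list_cons.comp (one (m d)) (Primrec.list_cons.comp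
    (one (m c)) (Primrec.list_cons.comp (one (m b)) (Primrec.list_cons.comp (one (m a)) nil2))))

/-- the invariant `I` -/
def invI (g : C5) : ℤ := 12 * g.1 * g.2.2.2.2 - 3 * g.2.1 * g.2.2.2.1 + g.2.2.1 ^ 2

/-- the invariant `J` -/
def invJ (g : C5) : ℤ := 72 * g.1 * g.2.2.1 * g.2.2.2.2 + 9 * g.2.1 * g.2.2.1 * g.2.2.2.1
  - 27 * g.1 * g.2.2.2.1 ^ 2 - 27 * g.2.2.2.2 * g.2.1 ^ 2 - 2 * g.2.2.1 ^ 3

/-- `4 I³ ≠ J²`, and infinitely many rational points -/
def FamInf (g : C5) : Prop := 4 * invI g ^ 3 ≠ invJ g ^ 2 ∧ InfZ (quart g)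

theorem fam_iff (g : C5) : FamInf g ↔
    (4 * (toBQ g).I ^ 3 ≠ (toBQ g).J ^ 2 ∧ (Sol (toQ (toBQ g))).Infinite) := by
  unfold FamInf
  rw [inf_quart]
  rfl

open Classical in
theorem dec_fam : Dec (fun g => decide (FamInf g)) := by
  intro g
  rw [decide_eq_true_eq]
  exact fam_iff g

attribute [local irreducible] bd fc tau lgt nd hasc qf g36 badT rk stp dcs stc

/-- the nonsingularity test -/
def nsg (g : C5) : Bool := nd (qf g)

theorem nsg_iff (g : C5) : nsg g = true ↔ 4 * invI g ^ 3 ≠ invJ g ^ 2 := by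
  unfold nsg
  rw [nd_iff, qf_disc]
  rfl

theorem comp_nsg : Computable nsg := comp_nd.comp prim_qf.to_comp

theorem fam_of (h : ComputablePred InfZ) : ComputablePred FamInf := by
  rw [ComputablePred.computable_iff] at h ⊢
  obtain ⟨F, hF, hF2⟩ := h
  refine ⟨fun g => nsg g && F (quart g), Primrec.and.to_comp.comp comp_nsg
    (hF.comp prim_quart.to_comp), ?_⟩
  funext g
  rw [eq_iff_iff, Bool.and_eq_true, nsg_iff]
  unfold FamInf
  have := congrFun hF2 (quart g)
  rw [this]

theorem fwd' (h : ComputablePred FamInf) : Computable rk := by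
  rw [ComputablePred.computable_iff] at h
  obtain ⟨F, hF, hF2⟩ := h
  refine fwd hF ?_
  intro g
  rw [← fam_iff, hF2]

theorem rev' (h : Computable rk) : ComputablePred FamInf := by
  rw [ComputablePred.computable_iff]
  obtain ⟨F, hF, hF2⟩ := rev h
  refine ⟨F, hF, ?_⟩
  funext g
  rw [eq_iff_iff, fam_iff]
  exact (hF2 g).symm

open Classical in
theorem fam_in : ComputableIn {orc (fun L : List (List ℤ) => decide (InfZ L))}
    (fun g : C5 => decide (FamInf g)) := by
  have h1 : ComputableIn {orc (fun L : List (List ℤ) => decide (InfZ L))}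
      (fun g : C5 => decide (InfZ (quart g))) :=
    ccomp (f := fun L : List (List ℤ) => decide (InfZ L)) (orc_self _) prim_quart.computableIn
  have h2 : ComputableIn {orc (fun L : List (List ℤ) => decide (InfZ L))}
      (fun g : C5 => (nsg g, decide (InfZ (quart g)))) :=
    cpair comp_nsg.computableIn h1
  have h3 : ComputableIn {orc (fun L : List (List ℤ) => decide (InfZ L))}
      (fun z : Bool × Bool => z.1 && z.2) := Primrec.and.computableIn
  have h4 : ComputableIn {orc (fun L : List (List ℤ) => decide (InfZ L))}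
      (fun g : C5 => nsg g && decide (InfZ (quart g))) :=
    ccomp (f := fun z : Bool × Bool => z.1 && z.2) h3 h2
  have h5 : (fun g : C5 => decide (FamInf g)) =
      (fun g : C5 => nsg g && decide (InfZ (quart g))) := by
    funext g
    rw [Bool.eq_iff_iff, Bool.and_eq_true, nsg_iff, decide_eq_true_eq, decide_eq_true_eq]
    rfl
  rw [h5]
  exact h4

open Classical in
theorem main : TuringEquivalent (orc rk) (orc (fun g : C5 => decide (FamInf g))) ∧
    TuringReducible (orc rk) (orc (fun L : List (List ℤ) => decide (InfZ L))) := by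
  have h1 : TuringReducible (orc rk) (orc (fun g : C5 => decide (FamInf g))) :=
    red_of (rk_in dec_fam)
  have h2 : TuringReducible (orc (fun g : C5 => decide (FamInf g))) (orc rk) :=
    red_of (dec_in dec_fam)
  have h3 : TuringReducible (orc (fun g : C5 => decide (FamInf g)))
      (orc (fun L : List (List ℤ) => decide (InfZ L))) := red_of fam_in
  exact ⟨⟨h1, h2⟩, h1.trans h3⟩

end Pool.Agent.H79.QR
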